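import Pool.Agent.N142.FD.Energy

/-!
# Finite range of dilates: the chain of subgroups
-/

set_option autoImplicit false

namespace Pool.Agent.N142.FD

open Finset
open scoped Pointwise Classical ComplexConjugate
open Pool.Agent.TH414.Dil

variable {Γ : Type*} [AddCommGroup Γ]

/-- the part of `B` in a coset of `W` -/
noncomputable def fib (W : AddSubgroup Γ) (B : Finset Γ) (g : Γ) : Finset Γ :=
  B.filter (fun a => a - g ∈ W)

theorem mem_fib {W : AddSubgroup Γ} {B : Finset Γ} {g a : Γ} :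
    a ∈ fib W B g ↔ a ∈ B ∧ a - g ∈ W := Finset.mem_filter

/-- the largest part of `B` in a coset of `W` -/
noncomputable def mx (W : AddSubgroup Γ) (B : Finset Γ) : ℕ := B.sup (fun g => (fib W B g).card)

theorem le_mx (W : AddSubgroup Γ) (B : Finset Γ) (g : Γ) : (fib W B g).card ≤ mx W B := by
  rcases (fib W B g).eq_empty_or_nonempty with h | ⟨a, ha⟩
  · rw [h]; exact Nat.zero_le _
  · rw [mem_fib] at ha
    have h1 : fib W B g ⊆ fib W B a := by
      intro x hx
      rw [mem_fib] at hx ⊢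
      refine ⟨hx.1, ?_⟩
      have : x - a = (x - g) - (a - g) := by abel
      rw [this]
      exact W.sub_mem hx.2 ha.2
    exact (Finset.card_le_card h1).trans
      (Finset.le_sup (f := fun g => (fib W B g).card) ha.1)

theorem exists_mx (W : AddSubgroup Γ) (B : Finset Γ) (hB : B.Nonempty) :
    ∃ g ∈ B, (fib W B g).card = mx W B := by
  obtain ⟨g, hg, h⟩ := Finset.exists_mem_eq_sup B hB (fun g => (fib W B g).card)
  exact ⟨g, hg, h.symm⟩

theorem mx_le (W : AddSubgroup Γ) (B : Finset Γ) : mx W B ≤ B.card :=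
  Finset.sup_le fun _ _ => Finset.card_le_card (Finset.filter_subset _ _)

theorem mx_pos (W : AddSubgroup Γ) (B : Finset Γ) (hB : B.Nonempty) : 0 < mx W B := by
  obtain ⟨g, hg⟩ := hB
  refine lt_of_lt_of_le ?_ (le_mx W B g)
  refine Finset.card_pos.2 ⟨g, mem_fib.2 ⟨hg, ?_⟩⟩
  rw [sub_self]; exact W.zero_mem

theorem mx_mono {W V : AddSubgroup Γ} (h : W ≤ V) (B : Finset Γ) : mx W B ≤ mx V B := by
  refine Finset.sup_le fun g _ => ?_
  refine le_trans (Finset.card_le_card ?_) (le_mx V B g)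
  intro x hx
  rw [mem_fib] at hx ⊢
  exact ⟨hx.1, h hx.2⟩

theorem card_le_bar_mul (W : AddSubgroup Γ) (B : Finset Γ) :
    B.card ≤ (bar W B).card * mx W B := by
  rw [Finset.card_eq_sum_card_fiberwise (f := fun a => (QuotientAddGroup.mk a : Γ ⧸ W))
    (t := bar W B) (fun a ha => mem_bar ha), ← smul_eq_mul, ← Finset.sum_const]
  refine Finset.sum_le_sum fun y hy => ?_
  obtain ⟨g, _, rfl⟩ := exists_rep hy
  refine le_trans (Finset.card_le_card ?_) (le_mx W B g)
  intro x hx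
  rw [mem_filter] at hx
  rw [mem_fib]
  refine ⟨hx.1, ?_⟩
  rw [← QuotientAddGroup.eq_zero_iff, QuotientAddGroup.mk_sub, hx.2, sub_self]

/-- a sum with a set having a large part in a coset -/
theorem bar_mul (W : AddSubgroup Γ) (B S : Finset Γ) (hB : B.Nonempty) :
    (bar W S).card * mx W B ≤ (S + B).card := by
  obtain ⟨g, -, hg⟩ := exists_mx W B hB
  rw [← hg]
  have hs : ∀ y : Γ ⧸ W, ∃ b : Γ, y ∈ bar W S → b ∈ S ∧ (b : Γ ⧸ W) = y := by
    intro y
    by_cases hy : y ∈ bar W S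
    · obtain ⟨b, hb, hby⟩ := exists_rep hy
      exact ⟨b, fun _ => ⟨hb, hby⟩⟩
    · exact ⟨0, fun h => absurd h hy⟩
  choose s hs using hs
  rw [← Finset.card_product]
  refine Finset.card_le_card_of_injOn (fun t => s t.1 + t.2) ?_ ?_
  · rintro ⟨y, c⟩ ht
    rw [Finset.mem_coe, mem_product] at ht
    exact Finset.mem_coe.2 (Finset.add_mem_add (hs y ht.1).1 (mem_fib.1 ht.2).1)
  · rintro ⟨y, c⟩ ht ⟨y', c'⟩ ht' heq
    rw [Finset.mem_coe, mem_product] at ht ht'
    simp only at heq ht ht'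
    have hc := (mem_fib.1 ht.2).2
    have hc' := (mem_fib.1 ht'.2).2
    have h5 : (c : Γ ⧸ W) = (c' : Γ ⧸ W) := by
      rw [← sub_eq_zero, ← QuotientAddGroup.mk_sub]
      refine (QuotientAddGroup.eq_zero_iff _).2 ?_
      have : c - c' = (c - g) - (c' - g) := by abel
      rw [this]; exact W.sub_mem hc hc'
    have h6 : y = y' := by
      rw [← (hs y ht.1).2, ← (hs y' ht'.1).2]
      have h7 : ((s y + c : Γ) : Γ ⧸ W) = ((s y' + c' : Γ) : Γ ⧸ W) := by rw [heq]
      rw [QuotientAddGroup.mk_add, QuotientAddGroup.mk_add, h5] at h7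
      exact add_right_cancel h7
    subst h6
    have : c = c' := add_left_cancel heq
    rw [this]

/-- the lower bound for the energies in the quotient -/
theorem EE_ge (W : AddSubgroup Γ) (B : Finset Γ) (hB : B.Nonempty) (n : ℕ) (κ : ℝ)
    (h : ((B + B + nd n B).card : ℝ) ≤ κ * B.card) :
    (B.card : ℝ) ^ 3 * mx W B ≤ κ * EE B (fun a => (QuotientAddGroup.mk a : Γ ⧸ W)) n := by
  have h1 := coincidences (B ×ˢ B) (bar W (B + nd n B))
    (fun p => (QuotientAddGroup.mk (p.1 + n • p.2) : Γ ⧸ W)) (by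
      rintro ⟨a, b⟩ hp
      rw [mem_product] at hp
      exact mem_bar (Finset.add_mem_add hp.1 (Finset.mem_image_of_mem _ hp.2)))
  rw [card_product] at h1
  have h2 : (((B ×ˢ B) ×ˢ (B ×ˢ B)).filter (fun p =>
      (QuotientAddGroup.mk (p.1.1 + n • p.1.2) : Γ ⧸ W) =
        QuotientAddGroup.mk (p.2.1 + n • p.2.2))).card ≤
      EE B (fun a => (QuotientAddGroup.mk a : Γ ⧸ W)) n := by
    refine Finset.card_le_card_of_injOn (fun p => ((p.1.1, p.2.1), (p.1.2, p.2.2))) ?_ ?_
    · rintro ⟨⟨a, b⟩, ⟨c, d⟩⟩ hp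
      simp only [coe_filter, mem_product, Set.mem_ofPred_eq] at hp ⊢
      obtain ⟨⟨⟨ha, hb⟩, hc, hd⟩, he⟩ := hp
      refine ⟨⟨⟨ha, hc⟩, hb, hd⟩, ?_⟩
      rw [QuotientAddGroup.mk_add, QuotientAddGroup.mk_add, QuotientAddGroup.mk_nsmul,
        QuotientAddGroup.mk_nsmul] at he
      rw [nsmul_sub, ← sub_eq_zero.2 he]
      abel
    · rintro ⟨⟨a, b⟩, ⟨c, d⟩⟩ _ ⟨⟨a', b'⟩, ⟨c', d'⟩⟩ _ heq
      simp only [Prod.mk.injEq] at heq ⊢
      exact ⟨⟨heq.1.1, heq.2.1⟩, heq.1.2, heq.2.2⟩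
  have h3 := bar_mul W B (B + nd n B) hB
  have h4 : B + nd n B + B = B + B + nd n B := by
    rw [add_assoc, add_comm (nd n B) B, ← add_assoc]
  rw [h4] at h3
  set E := EE B (fun a => (QuotientAddGroup.mk a : Γ ⧸ W)) n with hE
  have hB0 : (0 : ℝ) < B.card := by exact_mod_cast hB.card_pos
  have h5 : ((B.card : ℝ)) ^ 4 ≤ (bar W (B + nd n B)).card * (E : ℝ) := by
    have : B.card ^ 4 ≤ (bar W (B + nd n B)).card * E := by
      calc B.card ^ 4 = (B.card * B.card) ^ 2 := by ring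
        _ ≤ _ := h1
        _ ≤ _ := Nat.mul_le_mul_left _ (by convert h2)
    exact_mod_cast this
  have h6 : ((bar W (B + nd n B)).card : ℝ) * mx W B ≤ κ * B.card := by
    refine le_trans ?_ h
    exact_mod_cast h3
  have h7 : (B.card : ℝ) * ((B.card : ℝ) ^ 3 * mx W B) ≤ B.card * (κ * E) := by
    calc (B.card : ℝ) * ((B.card : ℝ) ^ 3 * mx W B) = (B.card : ℝ) ^ 4 * mx W B := by ring
      _ ≤ ((bar W (B + nd n B)).card * (E : ℝ)) * mx W B := by gcongr
      _ = (((bar W (B + nd n B)).card : ℝ) * mx W B) * E := by ring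
      _ ≤ (κ * B.card) * E := by gcongr
      _ = _ := by ring
  exact le_of_mul_le_mul_left h7 hB0

section finite

variable {F : Type*} [AddCommGroup F] [Finite F]

/-- one step of the chain -/
theorem lam_step (W : AddSubgroup F) (B : Finset F) (hB : B.Nonempty) (κ : ℝ) (hκ : 1 ≤ κ)
    (N : ℕ) (hN : 0 < N)
    (hE : ∀ n : ℕ, n < N → ((B + B + nd n B).card : ℝ) ≤ κ * B.card)
    (hδ : ∀ V : AddSubgroup F, W ≤ V → V ≠ ⊤ → 4 * κ * mx V B ≤ B.card)
    (hNl : 4 * κ * (W.index * mx W B) ≤ N * B.card) :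
    (W.index * mx W B : ℝ) ≤ 2 * κ * B.card := by
  have hB0 : (0 : ℝ) < B.card := by exact_mod_cast hB.card_pos
  have hκ0 : (0 : ℝ) < κ := by linarith
  have hN0 : (0 : ℝ) < N := by exact_mod_cast hN
  have h1 := energy_range (G := F ⧸ W) B (fun a => (QuotientAddGroup.mk a : F ⧸ W)) (mx W B) N
    (1 / (4 * κ)) (by positivity) (by
      intro y S hS hSy
      obtain ⟨g, rfl⟩ := QuotientAddGroup.mk_surjective y
      refine le_trans (Finset.card_le_card ?_) (le_mx W B g)
      intro x hx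
      rw [mem_fib]
      refine ⟨hS hx, ?_⟩
      rw [← QuotientAddGroup.eq_zero_iff, QuotientAddGroup.mk_sub, hSy x hx, sub_self]) (by
      intro χ hχ
      set V : AddSubgroup F := (kr χ).comap (QuotientAddGroup.mk' W) with hV
      have hWV : W ≤ V := by
        intro x hx
        rw [hV, AddSubgroup.mem_comap, QuotientAddGroup.mk'_apply,
          (QuotientAddGroup.eq_zero_iff x).2 hx]
        exact (kr χ).zero_mem
      have hVne : V ≠ ⊤ := by
        intro h
        apply kr_ne χ hχ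
        rw [AddSubgroup.eq_top_iff']
        intro y
        obtain ⟨g, rfl⟩ := QuotientAddGroup.mk_surjective y
        have : g ∈ V := by rw [h]; trivial
        exact this
      have h2 := hδ V hWV hVne
      have h3 : cc B (fun a => (QuotientAddGroup.mk a : F ⧸ W)) χ ≤ B.card * mx V B := by
        have h4 : cc B (fun a => (QuotientAddGroup.mk a : F ⧸ W)) χ =
            ∑ a ∈ B, (B.filter (fun c => χ ((QuotientAddGroup.mk a : F ⧸ W) -
              QuotientAddGroup.mk c) = 1)).card := by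
          rw [cc, Finset.card_filter, Finset.sum_product]
          refine Finset.sum_congr rfl fun a _ => ?_
          rw [Finset.card_filter]
        rw [h4, ← smul_eq_mul, ← Finset.sum_const]
        refine Finset.sum_le_sum fun a _ => ?_
        refine le_trans (Finset.card_le_card ?_) (le_mx V B a)
        intro c hc
        rw [mem_filter] at hc
        rw [mem_fib]
        refine ⟨hc.1, ?_⟩
        have h5 : a - c ∈ V := by
          rw [hV, AddSubgroup.mem_comap, QuotientAddGroup.mk'_apply, QuotientAddGroup.mk_sub,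
            mem_kr]
          exact hc.2
        have : c - a = -(a - c) := by abel
        rw [this]; exact V.neg_mem h5
      have h4 : ((cc B (fun a => (QuotientAddGroup.mk a : F ⧸ W)) χ : ℕ) : ℝ) ≤
          B.card * mx V B := by exact_mod_cast h3
      refine h4.trans ?_
      have h5 : (mx V B : ℝ) ≤ 1 / (4 * κ) * B.card := by
        rw [one_div, ← div_eq_inv_mul, le_div_iff₀ (by positivity)]
        linarith
      calc (B.card : ℝ) * mx V B ≤ B.card * (1 / (4 * κ) * B.card) := by gcongr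
        _ = _ := by ring)
  have hg : (Nat.card (F ⧸ W) : ℝ) = W.index := rfl
  rw [hg] at h1
  -- the lower bound
  have h2 : (N : ℝ) * ((B.card : ℝ) ^ 3 * mx W B) ≤
      κ * ∑ n ∈ range N, (EE B (fun a => (QuotientAddGroup.mk a : F ⧸ W)) n : ℝ) := by
    rw [Finset.mul_sum]
    calc (N : ℝ) * ((B.card : ℝ) ^ 3 * mx W B) =
        ∑ n ∈ range N, ((B.card : ℝ) ^ 3 * mx W B) := by
          rw [Finset.sum_const, card_range, nsmul_eq_mul]
      _ ≤ _ := Finset.sum_le_sum fun n hn => EE_ge W B hB n κ (hE n (mem_range.1 hn))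
  set β : ℝ := (B.card : ℝ) with hβ
  set M : ℝ := (mx W B : ℝ) with hM
  set g : ℝ := (W.index : ℝ) with hgdef
  set Z : ℝ := g * M with hZ
  set Sg := ∑ n ∈ range N, (EE B (fun a => (QuotientAddGroup.mk a : F ⧸ W)) n : ℝ) with hSg
  have hg0 : 0 ≤ g := Nat.cast_nonneg _
  have hM0 : 0 ≤ M := Nat.cast_nonneg _
  have hZ0 : 0 ≤ Z := mul_nonneg hg0 hM0
  have h3 : (N : ℝ) * (β ^ 3 * Z) ≤ κ * (N * β ^ 4 +
      (N * (1 / (4 * κ) * β ^ 2) + Z * β) * (Z * β)) := by
    have e1 : (N : ℝ) * (β ^ 3 * Z) = g * (N * (β ^ 3 * M)) := by rw [hZ]; ring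
    have e2 : g * (κ * Sg) = κ * (g * Sg) := by ring
    have e3 : (N * (1 / (4 * κ) * β ^ 2) + Z * β) * (Z * β) =
        (N * (1 / (4 * κ) * β ^ 2) + g * (M * β)) * (g * (M * β)) := by rw [hZ]; ring
    rw [e1, e3]
    calc g * (N * (β ^ 3 * M)) ≤ g * (κ * Sg) := mul_le_mul_of_nonneg_left h2 hg0
      _ = κ * (g * Sg) := e2
      _ ≤ _ := mul_le_mul_of_nonneg_left h1 hκ0.le
  -- `Z ≤ N β / (4 κ)`
  have h4 : κ * (Z * β * (Z * β)) ≤ N * β ^ 3 * Z / 4 := by
    have : 4 * κ * Z * (Z * β ^ 2) ≤ N * β * (Z * β ^ 2) :=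
      mul_le_mul_of_nonneg_right hNl (by positivity)
    nlinarith [this]
  have h5 : κ * (N * (1 / (4 * κ) * β ^ 2) * (Z * β)) = N * β ^ 3 * Z / 4 := by
    field_simp
  have h6 : (N : ℝ) * (β ^ 3 * Z) ≤ κ * (N * β ^ 4) + N * β ^ 3 * Z / 2 := by
    calc (N : ℝ) * (β ^ 3 * Z) ≤ _ := h3
      _ = κ * (N * β ^ 4) + κ * (N * (1 / (4 * κ) * β ^ 2) * (Z * β)) +
          κ * (Z * β * (Z * β)) := by ring
      _ ≤ _ := by rw [h5]; linarith
  have h7 : ((N : ℝ) * β ^ 3) * Z ≤ ((N : ℝ) * β ^ 3) * (2 * κ * β) := by nlinarith [h6]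
  exact le_of_mul_le_mul_left h7 (by positivity)

/-- a subgroup of small index killing the multiples of `p` -/
theorem exists_sub (W : AddSubgroup F) (p : ℕ) (hp : p.Prime) (hpW : p ∣ Nat.card W) :
    ∃ W' : AddSubgroup F, W' ≤ W ∧ W' ≠ W ∧ Nat.card W' < Nat.card W ∧
      Nat.card W ≤ p * Nat.card W' ∧ ∀ x ∈ W, p • x ∈ W' := by
  have hlt : ∀ V V' : AddSubgroup F, V ≤ V' → V ≠ V' → Nat.card V < Nat.card V' := by
    intro V V' h1 h2
    have hlt : (V : Set F) ⊂ (V' : Set F) := by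
      rw [Set.ssubset_iff_subset_ne]
      exact ⟨h1, fun h => h2 (SetLike.coe_injective h)⟩
    have := Set.ncard_lt_ncard hlt (Set.toFinite (V' : Set F))
    rw [← Nat.card_coe_set_eq, ← Nat.card_coe_set_eq] at this
    exact this
  let P : ℕ → Prop := fun k => ∃ V : AddSubgroup F, V ≤ W ∧ V ≠ W ∧ (∀ x ∈ W, p • x ∈ V) ∧
    Nat.card V = k
  -- the multiples of `p`
  obtain ⟨k, hk, hPk⟩ : ∃ k, k ≤ Nat.card W ∧ P k := by
    set V := W.map (nsmulAddMonoidHom p) with hV
    have h1 : V ≤ W := by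
      rintro x hx
      obtain ⟨y, hy, rfl⟩ := AddSubgroup.mem_map.1 hx
      exact W.nsmul_mem hy p
    have h2 : V ≠ W := by
      intro h
      have : Fact p.Prime := ⟨hp⟩
      obtain ⟨x, hx⟩ := exists_prime_addOrderOf_dvd_card' (G := W) p hpW
      have hsurj : Function.Surjective (fun y : W => p • y) := by
        rintro ⟨y, hy⟩
        rw [← h, hV] at hy
        obtain ⟨z, hz, hzy⟩ := AddSubgroup.mem_map.1 hy
        exact ⟨⟨z, hz⟩, Subtype.ext hzy⟩
      have hinj := Finite.injective_iff_surjective.2 hsurj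
      have h3 : x = 0 := by
        apply hinj
        simp only [nsmul_zero]
        rw [← hx]
        exact addOrderOf_nsmul_eq_zero x
      rw [h3, addOrderOf_zero] at hx
      exact hp.one_lt.ne hx
    refine ⟨Nat.card V, (hlt V W h1 h2).le, V, h1, h2, ?_, rfl⟩
    intro x hx
    exact AddSubgroup.mem_map.2 ⟨x, hx, rfl⟩
  obtain ⟨V, hVW, hVne, hVp, hVg⟩ : P (Nat.findGreatest P (Nat.card W)) :=
    Nat.findGreatest_spec hk hPk
  have hmax : ∀ V' : AddSubgroup F, V' ≤ W → V' ≠ W → (∀ x ∈ W, p • x ∈ V') →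
      Nat.card V' ≤ Nat.card V := by
    intro V' h1 h2 h3
    rw [hVg]
    exact Nat.le_findGreatest (hlt V' W h1 h2).le ⟨V', h1, h2, h3, rfl⟩
  refine ⟨V, hVW, hVne, hlt V W hVW hVne, ?_, hVp⟩
  obtain ⟨w, hwW, hwV⟩ : ∃ w ∈ W, w ∉ V := by
    by_contra hcon
    push Not at hcon
    exact hVne (le_antisymm hVW hcon)
  have h1 : V ⊔ AddSubgroup.zmultiples w ≤ W := by
    refine sup_le hVW ?_
    rw [AddSubgroup.zmultiples_le]
    exact hwW
  have h2 : V ⊔ AddSubgroup.zmultiples w = W := by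
    by_contra hne
    have h3 := hmax _ h1 hne fun x hx => AddSubgroup.mem_sup_left (hVp x hx)
    have h4 := hlt V (V ⊔ AddSubgroup.zmultiples w) le_sup_left (by
      intro h
      apply hwV
      rw [h]
      exact AddSubgroup.mem_sup_right (AddSubgroup.mem_zmultiples w))
    omega
  have h3 := card_sup_le V w p hp.pos (hVp w hwW)
  rw [h2] at h3
  exact h3

/-- the prime factors of the index are at least `p` -/
def PF (p : ℕ) (W : AddSubgroup F) : Prop := ∀ r : ℕ, r.Prime → r ∣ W.index → p ≤ r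

omit [Finite F] in
theorem PF_mono {p : ℕ} {W V : AddSubgroup F} (h : W ≤ V) (hW : PF p W) : PF p V :=
  fun r hr hd => hW r hr (hd.trans (AddSubgroup.index_dvd_of_le h))

theorem PF_step {p : ℕ} (hp : p.Prime) {W W' : AddSubgroup F} (hW : PF p W) (hle : W' ≤ W)
    (hpW : ∀ x ∈ W, p • x ∈ W') : PF p W' := by
  intro r hr hd
  by_contra hlt
  push Not at hlt
  have : Fact r.Prime := ⟨hr⟩
  obtain ⟨y, hy⟩ := exists_prime_addOrderOf_dvd_card' (G := F ⧸ W') r hd
  obtain ⟨x, rfl⟩ := QuotientAddGroup.mk_surjective y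
  have hx0 : x ∉ W' := by
    intro h
    rw [(QuotientAddGroup.eq_zero_iff x).2 h, addOrderOf_zero] at hy
    exact hr.one_lt.ne hy
  have hrx : r • x ∈ W' := by
    rw [← QuotientAddGroup.eq_zero_iff, QuotientAddGroup.mk_nsmul, ← hy]
    exact addOrderOf_nsmul_eq_zero _
  by_cases hxW : x ∈ W
  · apply hx0
    have h1 := hpW x hxW
    have hcop : Nat.Coprime r p := (Nat.coprime_primes hr hp).2 hlt.ne
    have h2 : ((Nat.gcd r p : ℕ) : ℤ) = r * Nat.gcdA r p + p * Nat.gcdB r p :=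
      Nat.gcd_eq_gcd_ab r p
    rw [hcop] at h2
    have h3 : x = (Nat.gcdA r p) • (r • x) + (Nat.gcdB r p) • (p • x) := by
      rw [← natCast_zsmul x r, ← natCast_zsmul x p, smul_smul, smul_smul, ← add_smul,
        mul_comm (Nat.gcdA r p), mul_comm (Nat.gcdB r p), ← h2]
      simp
    rw [h3]
    exact W'.add_mem (W'.zsmul_mem hrx _) (W'.zsmul_mem h1 _)
  · have h1 : addOrderOf (QuotientAddGroup.mk x : F ⧸ W) = r := by
      refine addOrderOf_eq_prime ?_ ?_
      · rw [← QuotientAddGroup.mk_nsmul, QuotientAddGroup.eq_zero_iff]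
        exact hle hrx
      · rwa [Ne, QuotientAddGroup.eq_zero_iff]
    have h2 : r ∣ W.index := by
      rw [← h1]
      exact addOrderOf_dvd_natCard _
    exact absurd (hW r hr h2) (by omega)

theorem delta_of {κ K m β p : ℝ} (hK : 1 ≤ K) (hκ : 1 ≤ κ) (hm : 0 ≤ m) (hβ : 0 ≤ β)
    (h1 : m ^ 4 * p ≤ K ^ 8 * β ^ 4) (h2 : (4 * κ) ^ 4 * K ^ 8 ≤ p) : 4 * κ * m ≤ β := by
  have hK8 : 0 < K ^ 8 := by positivity
  have h3 : K ^ 8 * (4 * κ * m) ^ 4 ≤ K ^ 8 * β ^ 4 := by
    calc K ^ 8 * (4 * κ * m) ^ 4 = m ^ 4 * ((4 * κ) ^ 4 * K ^ 8) := by ring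
      _ ≤ m ^ 4 * p := by gcongr
      _ ≤ _ := h1
  have h4 := le_of_mul_le_mul_left h3 hK8
  exact (pow_le_pow_iff_left₀ (by positivity) hβ (by norm_num)).1 h4

theorem num1 {K : ℝ} (hK : 1 ≤ K) (i c e s : ℕ) (hi : 1 ≤ i) (hc : c ≤ 92) (he : e + s ≤ 92)
    : (2 : ℝ) ^ c * K ^ (e * i + s) ≤ (2 * K) ^ (92 * i) := by
  rw [mul_pow]
  have h1 : (2 : ℝ) ^ c ≤ 2 ^ (92 * i) := pow_le_pow_right₀ (by norm_num) (by nlinarith)
  have h2 : K ^ (e * i + s) ≤ K ^ (92 * i) := pow_le_pow_right₀ hK (by nlinarith)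
  exact mul_le_mul h1 h2 (by positivity) (by positivity)

/-- one step of the chain, with the choice of the number of digits -/
theorem zone (W : AddSubgroup F) (B : Finset F) (hB : B.Nonempty) (K : ℝ) (hK : 1 ≤ K)
    (b : ℕ) (hb : (2 * K) ^ 92 ≤ b) (p : ℝ) (hp : 256 * K ^ 48 ≤ p)
    (hE : ∀ j n : ℕ, n < b ^ j → ((B + B + nd n B).card : ℝ) ≤ K ^ (6 * j + 4) * B.card)
    (hs : ∀ V : AddSubgroup F, W ≤ V → V ≠ ⊤ →
      (mx V B : ℝ) ^ 4 * p ≤ K ^ 8 * (B.card : ℝ) ^ 4)
    (hZ : (W.index * mx W B : ℝ) ≤ p * (2 * K ^ 10 * B.card)) :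
    (W.index * mx W B : ℝ) ≤ 2 * K ^ 10 * B.card := by
  have hB0 : (0 : ℝ) < B.card := by exact_mod_cast hB.card_pos
  have hK0 : (0 : ℝ) < K := by linarith
  have hp0 : (0 : ℝ) < p := lt_of_lt_of_le (by positivity) hp
  set Z : ℝ := (W.index * mx W B : ℝ) with hZdef
  have hZ0 : 0 ≤ Z := by positivity
  have hb0 : (0 : ℝ) < b := lt_of_lt_of_le (by positivity) hb
  have hb0' : 0 < b := by exact_mod_cast hb0
  have hbpow : ∀ i : ℕ, (2 * K) ^ (92 * i) ≤ (b : ℝ) ^ i := by
    intro i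
    rw [pow_mul]
    exact pow_le_pow_left₀ (by positivity) hb i
  -- the number of digits
  have hex : ∃ j : ℕ, 1 ≤ j ∧ 4 * K ^ (6 * j + 4) * Z ≤ (b : ℝ) ^ j * B.card := by
    obtain ⟨i, hi⟩ := pow_unbounded_of_one_lt (4 * K ^ 4 * Z / B.card) (by norm_num : (1 : ℝ) < 2)
    refine ⟨i + 1, by omega, ?_⟩
    rw [div_lt_iff₀ hB0] at hi
    have h1 : (2 : ℝ) ^ i * K ^ (6 * (i + 1)) ≤ (b : ℝ) ^ (i + 1) := by
      refine le_trans ?_ (hbpow (i + 1))
      rw [mul_pow]
      refine mul_le_mul (pow_le_pow_right₀ (by norm_num) (by omega))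
        (pow_le_pow_right₀ hK (by omega)) (by positivity) (by positivity)
    calc 4 * K ^ (6 * (i + 1) + 4) * Z = K ^ (6 * (i + 1)) * (4 * K ^ 4 * Z) := by ring
      _ ≤ K ^ (6 * (i + 1)) * (2 ^ i * B.card) := by gcongr
      _ = (2 ^ i * K ^ (6 * (i + 1))) * B.card := by ring
      _ ≤ _ := by gcongr
  obtain ⟨hj1, hj⟩ := Nat.find_spec hex
  set j := Nat.find hex with hjdef
  have hmain : (4 * K ^ (6 * j + 4)) ^ 4 * K ^ 8 ≤ p → Z ≤ 2 * K ^ (6 * j + 4) * B.card := by
    intro hc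
    refine lam_step W B hB (K ^ (6 * j + 4)) (one_le_pow₀ hK) (b ^ j) (Nat.pow_pos hb0')
      (hE j) ?_ ?_
    · intro V hWV hV
      exact delta_of hK (one_le_pow₀ hK) (Nat.cast_nonneg _) hB0.le (hs V hWV hV) hc
    · push_cast
      exact hj
  rcases Nat.lt_or_ge j 2 with hj2 | hj2
  · have hj' : j = 1 := by omega
    rw [hj'] at hmain
    refine hmain ?_
    refine le_trans (le_of_eq ?_) hp
    ring
  · exfalso
    obtain ⟨i, hi⟩ : ∃ i, j = i + 1 := ⟨j - 1, by omega⟩
    have hi1 : 1 ≤ i := by omega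
    have hmin := Nat.find_min hex (m := i) (by rw [← hjdef]; omega)
    rw [not_and] at hmin
    have hmin' := not_le.1 (hmin hi1)
    -- `b ^ i < 8 K ^ (6 i + 14) p`
    have h1 : (b : ℝ) ^ i < 8 * K ^ (6 * i + 14) * p := by
      have h2 : (b : ℝ) ^ i * B.card < (8 * K ^ (6 * i + 14) * p) * B.card := by
        calc (b : ℝ) ^ i * B.card < 4 * K ^ (6 * i + 4) * Z := hmin'
          _ ≤ 4 * K ^ (6 * i + 4) * (p * (2 * K ^ 10 * B.card)) := by gcongr
          _ = _ := by ring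
      exact lt_of_mul_lt_mul_right h2 hB0.le
    have hc : (4 * K ^ (6 * j + 4)) ^ 4 * K ^ 8 ≤ p := by
      by_contra hcon
      push Not at hcon
      have h2 : (b : ℝ) ^ i < 2 ^ 11 * K ^ (30 * i + 62) := by
        calc (b : ℝ) ^ i < 8 * K ^ (6 * i + 14) * p := h1
          _ ≤ 8 * K ^ (6 * i + 14) * ((4 * K ^ (6 * j + 4)) ^ 4 * K ^ 8) := by gcongr
          _ = _ := by rw [hi]; ring
      have h3 := num1 hK i 11 30 62 hi1 (by norm_num) (by norm_num)
      exact absurd (h2.trans_le (h3.trans (hbpow i))) (lt_irrefl _)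
    have h2 := hmain hc
    have h3 : (b : ℝ) ^ i < 2 ^ 3 * K ^ (12 * i + 14) := by
      have h4 : (b : ℝ) ^ i * B.card < (2 ^ 3 * K ^ (12 * i + 14)) * B.card := by
        calc (b : ℝ) ^ i * B.card < 4 * K ^ (6 * i + 4) * Z := hmin'
          _ ≤ 4 * K ^ (6 * i + 4) * (2 * K ^ (6 * j + 4) * B.card) := by gcongr
          _ = _ := by rw [hi]; ring
      exact lt_of_mul_lt_mul_right h4 hB0.le
    have h4 := num1 hK i 3 12 14 hi1 (by norm_num) (by norm_num)
    exact absurd (h3.trans_le (h4.trans (hbpow i))) (lt_irrefl _)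

/-- **The chain of subgroups.** -/
theorem chain (B : Finset F) (hB : B.Nonempty) (K : ℝ) (hK : 1 ≤ K) (b : ℕ)
    (hb : (2 * K) ^ 92 ≤ b)
    (hF : ∀ p : ℕ, p.Prime → p ∣ Nat.card F → 256 * K ^ 48 ≤ p)
    (hE : ∀ j n : ℕ, n < b ^ j → ((B + B + nd n B).card : ℝ) ≤ K ^ (6 * j + 4) * B.card)
    (hs : ∀ V : AddSubgroup F, V ≠ ⊤ → ∀ p : ℕ, p.Prime → PF p V →
      (mx V B : ℝ) ^ 4 * p ≤ K ^ 8 * (B.card : ℝ) ^ 4) :
    (Nat.card F : ℝ) ≤ 2 * K ^ 10 * B.card := by
  have hB0 : (0 : ℝ) < B.card := by exact_mod_cast hB.card_pos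
  have hK0 : (0 : ℝ) < K := by linarith
  have key : ∀ k : ℕ, ∀ W : AddSubgroup F, Nat.card W = k →
      (∀ p : ℕ, p.Prime → p ∣ Nat.card W → PF p W) →
      (W.index * mx W B : ℝ) ≤ 2 * K ^ 10 * B.card →
      (Nat.card F : ℝ) ≤ 2 * K ^ 10 * B.card := by
    intro k
    induction k using Nat.strong_induction_on with
    | _ k ih =>
      intro W hWk hPF hlam
      have hWpos : 0 < Nat.card W := Nat.card_pos
      have hWF : Nat.card W ∣ Nat.card F := AddSubgroup.card_addSubgroup_dvd_card W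
      have hci := W.card_mul_index
      by_cases hW1 : Nat.card W = 1
      · rw [hW1, one_mul] at hci
        rw [← hci]
        refine le_trans ?_ hlam
        have h1 : (1 : ℝ) ≤ mx W B := by exact_mod_cast mx_pos W B hB
        have h2 : (0 : ℝ) ≤ W.index := Nat.cast_nonneg _
        nlinarith
      · have hne : (Nat.card W).primeFactors.Nonempty := by
          rw [Nat.nonempty_primeFactors]
          omega
        set p := (Nat.card W).primeFactors.max' hne with hpdef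
        have hpmem : p ∈ (Nat.card W).primeFactors := Finset.max'_mem _ _
        have hp : p.Prime := Nat.prime_of_mem_primeFactors hpmem
        have hpW : p ∣ Nat.card W := Nat.dvd_of_mem_primeFactors hpmem
        have hpmax : ∀ q : ℕ, q.Prime → q ∣ Nat.card W → q ≤ p := by
          intro q hq hqd
          exact Finset.le_max' _ _ (Nat.mem_primeFactors.2 ⟨hq, hqd, hWpos.ne'⟩)
        obtain ⟨W', hle, -, hlt, hidx, hpx⟩ := exists_sub W p hp hpW
        have hPF' : PF p W' := PF_step hp (hPF p hp hpW) hle hpx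
        have hci' := W'.card_mul_index
        have hindex : W'.index ≤ p * W.index := by
          have h1 : Nat.card W' * W'.index ≤ Nat.card W' * (p * W.index) := by
            calc Nat.card W' * W'.index = Nat.card W * W.index := by rw [hci', hci]
              _ ≤ (p * Nat.card W') * W.index := Nat.mul_le_mul_right _ hidx
              _ = _ := by ring
          exact Nat.le_of_mul_le_mul_left h1 Nat.card_pos
        refine ih (Nat.card W') (hWk ▸ hlt) W' rfl ?_ ?_
        · intro q hq hqd r hr hrd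
          exact (hpmax q hq (hqd.trans (AddSubgroup.card_dvd_of_le hle))).trans (hPF' r hr hrd)
        · refine zone W' B hB K hK b hb p (hF p hp (hpW.trans hWF)) hE ?_ ?_
          · intro V hWV hV
            exact hs V hV p hp (PF_mono hWV hPF')
          · have h1 : (W'.index : ℝ) ≤ p * W.index := by exact_mod_cast hindex
            have h2 : (mx W' B : ℝ) ≤ mx W B := by exact_mod_cast mx_mono hle B
            calc (W'.index * mx W' B : ℝ) ≤ (p * W.index) * mx W B :=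
                  mul_le_mul h1 h2 (Nat.cast_nonneg _) (by positivity)
              _ = p * (W.index * mx W B) := by ring
              _ ≤ _ := by gcongr
  refine key _ ⊤ rfl ?_ ?_
  · intro p hp _ r hr hd
    rw [AddSubgroup.index_top] at hd
    exact absurd (Nat.dvd_one.1 hd) hr.one_lt.ne'
  · rw [AddSubgroup.index_top]
    have h1 : (mx (⊤ : AddSubgroup F) B : ℝ) ≤ B.card := by exact_mod_cast mx_le _ B
    have h2 : (1 : ℝ) ≤ K ^ 10 := one_le_pow₀ hK
    push_cast
    nlinarith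

end finite

end Pool.Agent.N142.FD
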