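import Pool.Agent.TH414.Dil.Final
import Mathlib.Combinatorics.Additive.PluenneckeRuzsa
import Mathlib.Combinatorics.Additive.RuzsaCovering

/-!
# Finite range of dilates: large multipliers are products of digits
-/

set_option autoImplicit false

namespace Pool.Agent.N142.FD

open Finset
open scoped Pointwise Classical
open Pool.Agent.TH414.Dil

variable {Γ : Type*} [AddCommGroup Γ]

/-- the pigeonhole principle -/
theorem pigeon (S W : Finset Γ) (f : Γ → Γ) (M : ℝ)
    (hM : (((S.image f) - W).card : ℝ) ≤ M) :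
    ∃ h : Γ, (S.card : ℝ) * W.card ≤ M * (S.filter (fun s => f s - h ∈ W)).card := by
  set D := (S.image f) - W with hD
  have hM0 : 0 ≤ M := le_trans (Nat.cast_nonneg _) hM
  by_contra hcon
  push Not at hcon
  have h1 : (S ×ˢ W).card = ∑ h ∈ D, ((S ×ˢ W).filter (fun p => f p.1 - p.2 = h)).card := by
    refine Finset.card_eq_sum_card_fiberwise ?_
    rintro ⟨s, w⟩ hp
    rw [Finset.mem_coe, mem_product] at hp
    exact Finset.mem_coe.2 (Finset.sub_mem_sub (Finset.mem_image_of_mem f hp.1) hp.2)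
  have h2 : ∀ h ∈ D, ((S ×ˢ W).filter (fun p => f p.1 - p.2 = h)).card ≤
      (S.filter (fun s => f s - h ∈ W)).card := by
    intro h _
    refine Finset.card_le_card_of_injOn (fun p => p.1) ?_ ?_
    · rintro ⟨s, w⟩ hp
      simp only [coe_filter, mem_product, Set.mem_setOf_eq] at hp ⊢
      refine ⟨hp.1.1, ?_⟩
      rw [← hp.2, sub_sub_cancel]
      exact hp.1.2
    · rintro ⟨s, w⟩ hp ⟨s', w'⟩ hp' he
      simp only [coe_filter, mem_product, Set.mem_setOf_eq] at hp hp' he
      subst he
      have : w = w' := by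
        have h3 := hp.2.trans hp'.2.symm
        exact sub_right_injective h3
      rw [this]
  have h3 : ((S.card : ℝ) * W.card) ≤
      ∑ h ∈ D, ((S.filter (fun s => f s - h ∈ W)).card : ℝ) := by
    have h4 : (S ×ˢ W).card ≤ ∑ h ∈ D, (S.filter (fun s => f s - h ∈ W)).card := by
      rw [h1]; exact Finset.sum_le_sum h2
    rw [card_product] at h4
    exact_mod_cast h4
  rcases D.eq_empty_or_nonempty with hDe | hDn
  · rw [hDe, Finset.sum_empty] at h3
    have := hcon 0
    have h5 : 0 ≤ M * ((S.filter (fun s => f s - 0 ∈ W)).card : ℝ) :=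
      mul_nonneg hM0 (Nat.cast_nonneg _)
    linarith
  · have h6 : ∑ h ∈ D, (M * ((S.filter (fun s => f s - h ∈ W)).card : ℝ)) <
        ∑ h ∈ D, ((S.card : ℝ) * W.card) :=
      Finset.sum_lt_sum_of_nonempty hDn fun h _ => hcon h
    rw [← Finset.mul_sum, Finset.sum_const, nsmul_eq_mul] at h6
    have h7 : (D.card : ℝ) * ((S.card : ℝ) * W.card) ≤ M * ((S.card : ℝ) * W.card) :=
      mul_le_mul_of_nonneg_right hM (by positivity)
    have h8 := mul_le_mul_of_nonneg_left h3 hM0
    linarith

/-- the sums of dilates are small in the range `n ≤ b` -/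
def Dl (K : ℝ) (b : ℕ) (A : Finset Γ) : Prop :=
  ∀ n : ℕ, n ≤ b → ((A + nd n A).card : ℝ) ≤ K * A.card

theorem sub_le {A : Finset Γ} (hA : A.Nonempty) {K : ℝ} (hK : 1 ≤ K) {b : ℕ} (hb : 1 ≤ b)
    (hd : Dl K b A) {c : ℕ} (hc : c ≤ b) :
    ((nd c A - A).card : ℝ) ≤ K ^ 2 * A.card := by
  have h1 := Finset.ruzsa_triangle_inequality_sub_add_add (nd c A) A A
  have h2 : (((nd c A - A).card : ℝ)) * A.card ≤ (nd c A + A).card * (A + A).card := by
    exact_mod_cast h1
  have h3 := hd c hc
  have h4 := hd 1 hb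
  rw [nd_one] at h4
  rw [add_comm A (nd c A)] at h3
  have hA0 : (0 : ℝ) < A.card := by exact_mod_cast hA.card_pos
  have h5 : ((nd c A + A).card : ℝ) * (A + A).card ≤ (K * A.card) * (K * A.card) :=
    mul_le_mul h3 h4 (Nat.cast_nonneg _) (by positivity)
  have h6 : (((nd c A - A).card : ℝ)) * A.card ≤ (K ^ 2 * A.card) * A.card := by
    calc _ ≤ _ := h2
      _ ≤ _ := h5
      _ = _ := by ring
  exact le_of_mul_le_mul_right h6 hA0

/-- the multiples of the elements of a large part of `A` by a number with `j` digits are in a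
translate of the `j`-fold sumset -/
theorem digits {A : Finset Γ} (hA : A.Nonempty) {K : ℝ} (hK : 1 ≤ K) {b : ℕ} (hb : 1 ≤ b)
    (hd : Dl K b A) (j : ℕ) : ∀ n : ℕ, n < b ^ j → ∃ T : Finset Γ, T ⊆ A ∧ T.Nonempty ∧
      (A.card : ℝ) ≤ K ^ (4 * j) * T.card ∧ ∃ g : Γ, ∀ t ∈ T, n • t - g ∈ j • A := by
  have hA0 : (0 : ℝ) < A.card := by exact_mod_cast hA.card_pos
  have hK0 : (0 : ℝ) < K := by linarith
  induction j with
  | zero =>
    intro n hn
    rw [pow_zero] at hn
    have : n = 0 := by omega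
    subst this
    refine ⟨A, Finset.Subset.refl _, hA, by simp, 0, fun t _ => ?_⟩
    simp
  | succ j ih =>
    intro n hn
    have hn' : n / b < b ^ j := by
      rw [Nat.div_lt_iff_lt_mul (by omega)]
      rw [pow_succ] at hn
      exact hn
    obtain ⟨T', hT'A, hT'ne, hT'c, g', hg'⟩ := ih (n / b) hn'
    -- the elements whose multiples by `b` are in `T'`
    obtain ⟨h, hh⟩ := pigeon A T' (fun a => b • a) (K ^ 2 * A.card) (by
      refine le_trans ?_ (sub_le hA hK hb hd le_rfl)
      exact_mod_cast Finset.card_le_card (Finset.sub_subset_sub_left hT'A))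
    set T₁ := A.filter (fun a => b • a - h ∈ T') with hT₁
    have h1 : (T'.card : ℝ) ≤ K ^ 2 * T₁.card := by
      have : (A.card : ℝ) * T'.card ≤ A.card * (K ^ 2 * T₁.card) := by
        calc _ ≤ _ := hh
          _ = _ := by ring
      exact le_of_mul_le_mul_left this hA0
    have hc : n % b ≤ b := (Nat.mod_lt _ (by omega)).le
    obtain ⟨h', hh'⟩ := pigeon T₁ A (fun a => (n % b) • a) (K ^ 2 * A.card) (by
      refine le_trans ?_ (sub_le hA hK hb hd hc)
      refine Nat.cast_le.2 (Finset.card_le_card (Finset.sub_subset_sub_right ?_))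
      exact Finset.image_subset_image (Finset.filter_subset _ _))
    set T := T₁.filter (fun a => (n % b) • a - h' ∈ A) with hT
    have h2 : (T₁.card : ℝ) ≤ K ^ 2 * T.card := by
      have : (A.card : ℝ) * T₁.card ≤ A.card * (K ^ 2 * T.card) := by
        calc _ = (T₁.card : ℝ) * A.card := by ring
          _ ≤ _ := hh'
          _ = _ := by ring
      exact le_of_mul_le_mul_left this hA0
    have h3 : (A.card : ℝ) ≤ K ^ (4 * (j + 1)) * T.card := by
      calc (A.card : ℝ) ≤ K ^ (4 * j) * T'.card := hT'c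
        _ ≤ K ^ (4 * j) * (K ^ 2 * (K ^ 2 * T.card)) := by gcongr; exact h1.trans (by gcongr)
        _ = _ := by ring
    refine ⟨T, ?_, ?_, h3, h' + (n / b) • h + g', ?_⟩
    · exact (Finset.filter_subset _ _).trans (Finset.filter_subset _ _)
    · rw [← Finset.card_pos]
      by_contra hcon
      have h0 : T.card = 0 := by omega
      rw [h0] at h3
      simp at h3
      rw [h3] at hA
      exact Finset.not_nonempty_empty hA
    · intro t ht
      have ht1 := Finset.mem_filter.1 ht
      have ht2 := Finset.mem_filter.1 ht1.1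
      have h4 := hg' _ ht2.2
      rw [succ_nsmul]
      have h5 : n • t - (h' + (n / b) • h + g') =
          ((n / b) • (b • t - h) - g') + ((n % b) • t - h') := by
        have h6 : n • t = (n / b) • (b • t) + (n % b) • t := by
          rw [smul_smul, ← add_nsmul]
          congr 1
          rw [mul_comm]
          exact (Nat.div_add_mod n b).symm
        rw [h6, nsmul_sub]
        abel
      rw [h5]
      exact Finset.add_mem_add h4 ht1.2

/-- the Pluennecke inequality -/
theorem plu {A : Finset Γ} (hA : A.Nonempty) {K : ℝ} (h1 : ((A + A).card : ℝ) ≤ K * A.card)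
    (r s : ℕ) : ((r • A - s • A).card : ℝ) ≤ K ^ (r + s) * A.card := by
  have h := Finset.pluennecke_ruzsa_inequality_nsmul_sub_nsmul_add hA A r s
  have h2 : (((r • A - s • A).card : ℝ)) ≤ (((A + A).card : ℝ) / A.card) ^ (r + s) * A.card := by
    have h3 : ((((r • A - s • A).card : ℚ≥0) : ℝ)) ≤
        (((((A + A).card : ℚ≥0) / A.card) ^ (r + s) * A.card : ℚ≥0) : ℝ) := by
      exact NNRat.cast_le.2 h
    push_cast at h3
    exact h3
  have hA0 : (0 : ℝ) < A.card := by exact_mod_cast hA.card_pos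
  refine h2.trans ?_
  gcongr
  rw [div_le_iff₀ hA0]
  exact h1

/-- the sum of dilates by a number with `j` digits -/
theorem big_dilate {A : Finset Γ} (hA : A.Nonempty) {K : ℝ} (hK : 1 ≤ K) {b : ℕ} (hb : 1 ≤ b)
    (hd : Dl K b A) (j : ℕ) (n : ℕ) (hn : n < b ^ j) :
    ((A + A + nd n A).card : ℝ) ≤ K ^ (6 * j + 3) * A.card ∧
      ((A + nd n A).card : ℝ) ≤ K ^ (6 * j + 2) * A.card := by
  obtain ⟨T, hTA, hTne, hTc, g, hg⟩ := digits hA hK hb hd j n hn
  have hA0 : (0 : ℝ) < A.card := by exact_mod_cast hA.card_pos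
  have hK0 : (0 : ℝ) < K := by linarith
  have h1 := hd 1 hb
  rw [nd_one] at h1
  have h2 : ((A + T).card : ℝ) ≤ K ^ (4 * j + 1) * T.card := by
    calc ((A + T).card : ℝ) ≤ (A + A).card := by
          exact_mod_cast Finset.card_le_card (Finset.add_subset_add_left hTA)
      _ ≤ K * A.card := h1
      _ ≤ K * (K ^ (4 * j) * T.card) := by gcongr
      _ = _ := by ring
  obtain ⟨X, -, hX, hcov⟩ := Finset.ruzsa_covering_add hTne h2
  have hsub : nd n A ⊆ nd n X + (j • A - j • A) := by
    intro y hy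
    obtain ⟨a, ha, rfl⟩ := Finset.mem_image.1 hy
    obtain ⟨x, hx, d, hd', hxd⟩ := Finset.mem_add.1 (hcov ha)
    obtain ⟨t, ht, t', ht', rfl⟩ := Finset.mem_sub.1 hd'
    refine Finset.mem_add.2 ⟨n • x, Finset.mem_image_of_mem _ hx, (n • t - g) - (n • t' - g),
      Finset.sub_mem_sub (hg _ ht) (hg _ ht'), ?_⟩
    rw [← hxd, nsmul_add, nsmul_sub]
    abel
  have hXc : ((nd n X).card : ℝ) ≤ K ^ (4 * j + 1) :=
    le_trans (by exact_mod_cast Finset.card_image_le) hX
  constructor
  · have hs : A + A + nd n A ⊆ nd n X + ((j + 2) • A - j • A) := by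
      refine (Finset.add_subset_add_left hsub).trans (le_of_eq ?_)
      rw [add_nsmul, two_nsmul, sub_eq_add_neg, sub_eq_add_neg]
      ac_rfl
    calc ((A + A + nd n A).card : ℝ) ≤ (nd n X + ((j + 2) • A - j • A)).card := by
          exact_mod_cast Finset.card_le_card hs
      _ ≤ ((nd n X).card : ℝ) * ((j + 2) • A - j • A).card := by
          exact_mod_cast Finset.card_add_le
      _ ≤ K ^ (4 * j + 1) * (K ^ (j + 2 + j) * A.card) :=
          mul_le_mul hXc (plu hA h1 _ _) (Nat.cast_nonneg _) (by positivity)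
      _ = _ := by ring
  · have hs : A + nd n A ⊆ nd n X + ((j + 1) • A - j • A) := by
      refine (Finset.add_subset_add_left hsub).trans (le_of_eq ?_)
      rw [add_nsmul, one_nsmul, sub_eq_add_neg, sub_eq_add_neg]
      ac_rfl
    calc ((A + nd n A).card : ℝ) ≤ (nd n X + ((j + 1) • A - j • A)).card := by
          exact_mod_cast Finset.card_le_card hs
      _ ≤ ((nd n X).card : ℝ) * ((j + 1) • A - j • A).card := by
          exact_mod_cast Finset.card_add_le
      _ ≤ K ^ (4 * j + 1) * (K ^ (j + 1 + j) * A.card) :=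
          mul_le_mul hXc (plu hA h1 _ _) (Nat.cast_nonneg _) (by positivity)
      _ = _ := by ring

end Pool.Agent.N142.FD
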