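import Pool.Agent.N142.FD.Rigid

/-!
# Finite range of dilates: the energy inequality in a finite quotient, over a range of multipliers
-/

set_option autoImplicit false

namespace Pool.Agent.N142.FD

open Finset
open scoped Pointwise Classical ComplexConjugate
open Pool.Agent.TH414.Dil

section energy

variable {G : Type*} [AddCommGroup G] {ι : Type*}

/-- the number of additive quadruples -/
noncomputable def EE (B : Finset ι) (π : ι → G) (n : ℕ) : ℕ :=
  (((B ×ˢ B) ×ˢ (B ×ˢ B)).filter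
    (fun t => (π t.1.1 - π t.1.2) + n • (π t.2.1 - π t.2.2) = 0)).card

/-- power of a character sum -/
noncomputable def RR (B : Finset ι) (π : ι → G) (χ : AddChar G ℂ) (n : ℕ) : ℝ :=
  Complex.normSq (∑ a ∈ B, χ (π a) ^ n)

theorem RR_nonneg (B : Finset ι) (π : ι → G) (χ : AddChar G ℂ) (n : ℕ) : 0 ≤ RR B π χ n :=
  Complex.normSq_nonneg _

theorem RR_eq [Finite G] (B : Finset ι) (π : ι → G) (χ : AddChar G ℂ) (n : ℕ) :
    ((RR B π χ n : ℝ) : ℂ) = ∑ q ∈ B ×ˢ B, χ (π q.1 - π q.2) ^ n := by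
  rw [RR, Complex.normSq_eq_conj_mul_self, mul_comm, map_sum, Finset.sum_mul_sum,
    ← Finset.sum_product']
  refine Finset.sum_congr rfl fun q _ => ?_
  rw [map_pow, ← mul_pow, ← AddChar.map_neg_eq_conj, ← AddChar.map_add_eq_mul, sub_eq_add_neg]

theorem RR_le [Finite G] (B : Finset ι) (π : ι → G) (χ : AddChar G ℂ) (n : ℕ) :
    RR B π χ n ≤ (B.card : ℝ) ^ 2 := by
  rw [RR, Complex.normSq_eq_norm_sq]
  refine pow_le_pow_left₀ (norm_nonneg _) ?_ 2
  refine (norm_sum_le _ _).trans ?_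
  rw [Finset.card_eq_sum_ones]
  push_cast
  refine Finset.sum_le_sum fun a _ => ?_
  rw [norm_pow]
  have : ‖χ (π a)‖ = 1 := AddChar.norm_apply χ (π a)
  rw [this, one_pow]

/-- coincidences of a character -/
noncomputable def cc (B : Finset ι) (π : ι → G) (χ : AddChar G ℂ) : ℕ :=
  ((B ×ˢ B).filter (fun q => χ (π q.1 - π q.2) = 1)).card

theorem sum_RR [Finite G] (B : Finset ι) (π : ι → G) (χ : AddChar G ℂ) (M : ℕ)
    (hM : ∀ x : G, χ x ^ M = 1) : ∑ n ∈ range M, RR B π χ n = M * cc B π χ := by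
  have h1 : ((∑ n ∈ range M, RR B π χ n : ℝ) : ℂ) = ((M * cc B π χ : ℝ) : ℂ) := by
    push_cast
    simp only [RR_eq]
    rw [Finset.sum_comm]
    have h5 : ∀ q ∈ B ×ˢ B, ∑ n ∈ range M, χ (π q.1 - π q.2) ^ n =
        if χ (π q.1 - π q.2) = 1 then (M : ℂ) else 0 := fun q _ => geom _ _ (hM _)
    rw [Finset.sum_congr rfl h5, ← Finset.sum_filter, Finset.sum_const, nsmul_eq_mul, mul_comm,
      cc]
  exact_mod_cast h1

/-- the kernel of a character -/
def kr (χ : AddChar G ℂ) : AddSubgroup G where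
  carrier := {x | χ x = 1}
  zero_mem' := χ.map_zero_eq_one
  add_mem' := by
    intro x y hx hy
    simp only [Set.mem_ofPred_eq] at hx hy ⊢
    rw [χ.map_add_eq_mul, hx, hy, one_mul]
  neg_mem' := by
    intro x hx
    simp only [Set.mem_ofPred_eq] at hx ⊢
    rw [AddChar.map_neg_eq_inv, hx, inv_one]

theorem mem_kr (χ : AddChar G ℂ) (x : G) : x ∈ kr χ ↔ χ x = 1 := Iff.rfl

theorem kr_ne (χ : AddChar G ℂ) (hχ : χ ≠ 0) : kr χ ≠ ⊤ := by
  intro h
  apply hχ
  ext x
  have : x ∈ kr χ := by rw [h]; trivial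
  rw [mem_kr] at this
  simpa using this

theorem index_mul_cc [Finite G] (B : Finset ι) (π : ι → G) (χ : AddChar G ℂ) (m : ℕ)
    (hm : ∀ g : G, (B.filter (fun a => π a = g)).card ≤ m) :
    (kr χ).index * cc B π χ ≤ Nat.card G * (m * B.card) := by
  have : Fintype G := Fintype.ofFinite G
  have h1 : cc B π χ ≤ B.card * (Nat.card (kr χ) * m) := by
    have h2 : cc B π χ = ∑ a ∈ B, (B.filter (fun c => χ (π a - π c) = 1)).card := by
      rw [cc, Finset.card_filter, Finset.sum_product]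
      refine Finset.sum_congr rfl fun a _ => ?_
      rw [Finset.card_filter]
    rw [h2, ← smul_eq_mul, ← Finset.sum_const]
    refine Finset.sum_le_sum fun a _ => ?_
    have h3 : (B.filter (fun c => χ (π a - π c) = 1)).card =
        ∑ g ∈ (Finset.univ.filter (fun g : G => χ (π a - g) = 1)),
          ((B.filter (fun c => χ (π a - π c) = 1)).filter (fun c => π c = g)).card := by
      refine Finset.card_eq_sum_card_fiberwise ?_
      intro c hc
      simp only [coe_filter, Set.mem_ofPred_eq, mem_univ, true_and] at hc ⊢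
      exact hc.2
    have h4 : (Finset.univ.filter (fun g : G => χ (π a - g) = 1)).card = Nat.card (kr χ) := by
      have h5 : Nat.card (kr χ) = (Finset.univ.filter (fun g : G => χ g = 1)).card := by
        rw [Nat.card_eq_fintype_card, Fintype.card_subtype]
        rfl
      rw [h5]
      refine Finset.card_bij' (fun g _ => π a - g) (fun g _ => π a - g) ?_ ?_ ?_ ?_
      · intro g hg
        rw [mem_filter] at hg ⊢
        exact ⟨mem_univ _, hg.2⟩
      · intro g hg
        rw [mem_filter] at hg ⊢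
        rw [sub_sub_cancel]
        exact ⟨mem_univ _, hg.2⟩
      · intro g _; exact sub_sub_cancel _ _
      · intro g _; exact sub_sub_cancel _ _
    rw [h3, ← h4, ← smul_eq_mul, ← Finset.sum_const]
    refine Finset.sum_le_sum fun g _ => ?_
    refine le_trans (Finset.card_le_card ?_) (hm g)
    intro c hc
    rw [mem_filter, mem_filter] at hc
    rw [mem_filter]
    exact ⟨hc.1.1, hc.2⟩
  have h2 := (kr χ).card_mul_index
  calc (kr χ).index * cc B π χ ≤ (kr χ).index * (B.card * (Nat.card (kr χ) * m)) :=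
        Nat.mul_le_mul_left _ h1
    _ = (Nat.card (kr χ) * (kr χ).index) * (m * B.card) := by ring
    _ = _ := by rw [h2]

/-- the energies as a sum over characters -/
theorem EE_eq [Finite G] [Fintype (AddChar G ℂ)] (B : Finset ι) (π : ι → G) (n : ℕ) :
    (Nat.card G : ℝ) * EE B π n = ∑ χ : AddChar G ℂ, RR B π χ 1 * RR B π χ n := by
  have : Fintype G := Fintype.ofFinite G
  have hsum : ∀ x : G, ∑ χ : AddChar G ℂ, χ x = if x = 0 then (Nat.card G : ℂ) else 0 := by
    intro x
    rw [Nat.card_eq_fintype_card, ← AddChar.sum_apply_eq_ite x]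
    exact Finset.sum_congr (by ext; simp) fun _ _ => rfl
  have h1 : (((Nat.card G : ℝ) * EE B π n : ℝ) : ℂ) =
      ((∑ χ : AddChar G ℂ, RR B π χ 1 * RR B π χ n : ℝ) : ℂ) := by
    push_cast
    simp only [RR_eq, pow_one]
    rw [EE, Finset.card_filter]
    push_cast
    rw [Finset.mul_sum]
    simp only [Finset.sum_mul_sum]
    rw [Finset.sum_comm, Finset.sum_product]
    refine Finset.sum_congr rfl fun p _ => ?_
    rw [Finset.sum_comm]
    refine Finset.sum_congr rfl fun q _ => ?_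
    have h4 : ∀ χ : AddChar G ℂ, χ (π p.1 - π p.2 + n • (π q.1 - π q.2)) =
        χ (π p.1 - π p.2) * χ (π q.1 - π q.2) ^ n := by
      intro χ
      rw [← AddChar.map_nsmul_eq_pow, ← AddChar.map_add_eq_mul]
    rw [← Finset.sum_congr rfl fun χ _ => h4 χ, hsum]
    split_ifs <;> simp
  exact_mod_cast h1

/-- the sum of all powers -/
theorem sum_all [Finite G] [Fintype (AddChar G ℂ)] (B : Finset ι) (π : ι → G) (m : ℕ)
    (hm : ∀ g : G, (B.filter (fun a => π a = g)).card ≤ m) :
    ∑ χ : AddChar G ℂ, RR B π χ 1 ≤ Nat.card G * (m * B.card) := by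
  have : Fintype G := Fintype.ofFinite G
  have hsum : ∀ x : G, ∑ χ : AddChar G ℂ, χ x = if x = 0 then (Nat.card G : ℂ) else 0 := by
    intro x
    rw [Nat.card_eq_fintype_card, ← AddChar.sum_apply_eq_ite x]
    exact Finset.sum_congr (by ext; simp) fun _ _ => rfl
  have h1 : ((∑ χ : AddChar G ℂ, RR B π χ 1 : ℝ) : ℂ) =
      (((Nat.card G : ℝ) * ((B ×ˢ B).filter (fun q => π q.2 = π q.1)).card : ℝ) : ℂ) := by
    push_cast
    simp only [RR_eq, pow_one]
    rw [Finset.sum_comm, Finset.card_filter]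
    push_cast
    rw [Finset.mul_sum]
    refine Finset.sum_congr rfl fun p _ => ?_
    rw [hsum]
    simp only [sub_eq_zero, eq_comm (a := π p.2)]
    split_ifs <;> simp
  have h2 : ∑ χ : AddChar G ℂ, RR B π χ 1 =
      (Nat.card G : ℝ) * ((B ×ˢ B).filter (fun q => π q.2 = π q.1)).card := by
    exact_mod_cast h1
  rw [h2]
  refine mul_le_mul_of_nonneg_left ?_ (Nat.cast_nonneg _)
  have h3 : ((B ×ˢ B).filter (fun q => π q.2 = π q.1)).card ≤ m * B.card := by
    have h4 : ((B ×ˢ B).filter (fun q => π q.2 = π q.1)).card =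
        ∑ a ∈ B, (B.filter (fun c => π c = π a)).card := by
      rw [Finset.card_filter, Finset.sum_product]
      refine Finset.sum_congr rfl fun a _ => ?_
      rw [Finset.card_filter]
    rw [h4, mul_comm, ← smul_eq_mul, ← Finset.sum_const]
    exact Finset.sum_le_sum fun a _ => hm _
  exact_mod_cast h3

/-- **The energy inequality over a range of multipliers.** -/
theorem energy_range [Finite G] (B : Finset ι) (π : ι → G) (m N : ℕ) (δ : ℝ) (hδ : 0 ≤ δ)
    (hm' : ∀ (g : G) (S : Finset ι), S ⊆ B → (∀ a ∈ S, π a = g) → S.card ≤ m)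
    (hcc : ∀ χ : AddChar G ℂ, χ ≠ 0 → (cc B π χ : ℝ) ≤ δ * (B.card : ℝ) ^ 2) :
    (Nat.card G : ℝ) * ∑ n ∈ range N, (EE B π n : ℝ) ≤
      N * (B.card : ℝ) ^ 4 + (N * (δ * (B.card : ℝ) ^ 2) + Nat.card G * (m * B.card)) *
        (Nat.card G * (m * B.card)) := by
  have hm : ∀ g : G, (B.filter (fun a => π a = g)).card ≤ m := fun g =>
    hm' g _ (Finset.filter_subset _ _) fun a ha => (Finset.mem_filter.1 ha).2
  have hfin : Finite (AddChar G ℂ) := inferInstance
  have : Fintype (AddChar G ℂ) := Fintype.ofFinite _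
  have h1 : (Nat.card G : ℝ) * ∑ n ∈ range N, (EE B π n : ℝ) =
      ∑ χ : AddChar G ℂ, RR B π χ 1 * ∑ n ∈ range N, RR B π χ n := by
    rw [Finset.mul_sum]
    simp only [EE_eq, Finset.mul_sum]
    rw [Finset.sum_comm]
  rw [h1]
  set Y : ℝ := N * (δ * (B.card : ℝ) ^ 2) + Nat.card G * (m * B.card) with hY
  have hY0 : 0 ≤ Y := by positivity
  have h4 : ∀ χ : AddChar G ℂ, RR B π χ 1 * ∑ n ∈ range N, RR B π χ n ≤
      (if χ = 0 then N * (B.card : ℝ) ^ 4 else 0) + Y * RR B π χ 1 := by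
    intro χ
    by_cases hχ : χ = 0
    · rw [if_pos hχ]
      have h5 : ∑ n ∈ range N, RR B π χ n ≤ N * (B.card : ℝ) ^ 2 := by
        calc ∑ n ∈ range N, RR B π χ n ≤ ∑ n ∈ range N, (B.card : ℝ) ^ 2 :=
              Finset.sum_le_sum fun n _ => RR_le B π χ n
          _ = _ := by rw [Finset.sum_const, card_range, nsmul_eq_mul]
      have h6 : RR B π χ 1 * ∑ n ∈ range N, RR B π χ n ≤
          (B.card : ℝ) ^ 2 * (N * (B.card : ℝ) ^ 2) :=
        mul_le_mul (RR_le B π χ 1) h5 (Finset.sum_nonneg fun n _ => RR_nonneg B π χ n)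
          (by positivity)
      have h8 : 0 ≤ Y * RR B π χ 1 := mul_nonneg hY0 (RR_nonneg _ _ _ _)
      calc _ ≤ _ := h6
        _ = N * (B.card : ℝ) ^ 4 := by ring
        _ ≤ _ := le_add_of_nonneg_right h8
    · rw [if_neg hχ, zero_add, mul_comm]
      refine mul_le_mul_of_nonneg_right ?_ (RR_nonneg _ _ _ _)
      set D := (kr χ).index with hD
      have hD0 : 0 < D := Nat.pos_of_ne_zero (kr χ).index_ne_zero_of_finite
      have hpow : ∀ x : G, χ x ^ (D * (N / D + 1)) = 1 := by
        intro x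
        rw [← AddChar.map_nsmul_eq_pow, mul_comm, mul_nsmul', ← mem_kr]
        refine (kr χ).nsmul_mem ?_ _
        exact (kr χ).nsmul_index_mem x
      have h5 : ∑ n ∈ range N, RR B π χ n ≤ ∑ n ∈ range (D * (N / D + 1)), RR B π χ n := by
        refine Finset.sum_le_sum_of_subset_of_nonneg ?_ fun _ _ _ => RR_nonneg _ _ _ _
        refine Finset.range_subset_range.2 ?_
        exact (Nat.lt_mul_div_succ N hD0).le
      rw [sum_RR B π χ _ hpow] at h5
      have h6 : D * (N / D + 1) ≤ N + D := by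
        rw [mul_add, mul_one]
        exact Nat.add_le_add_right (Nat.mul_div_le N D) _
      have h7 : ((D * (N / D + 1) : ℕ) : ℝ) ≤ (N : ℝ) + D := by exact_mod_cast h6
      have h8 : (D : ℝ) * cc B π χ ≤ Nat.card G * (m * B.card) := by
        exact_mod_cast index_mul_cc B π χ m hm
      calc ∑ n ∈ range N, RR B π χ n ≤ ((D * (N / D + 1) : ℕ) : ℝ) * cc B π χ := h5
        _ ≤ ((N : ℝ) + D) * cc B π χ := mul_le_mul_of_nonneg_right h7 (Nat.cast_nonneg _)
        _ = N * cc B π χ + D * cc B π χ := by ring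
        _ ≤ _ := add_le_add (mul_le_mul_of_nonneg_left (hcc χ hχ) (Nat.cast_nonneg _)) h8
  calc ∑ χ : AddChar G ℂ, RR B π χ 1 * ∑ n ∈ range N, RR B π χ n
      ≤ ∑ χ : AddChar G ℂ, ((if χ = 0 then N * (B.card : ℝ) ^ 4 else 0) + Y * RR B π χ 1) :=
        Finset.sum_le_sum fun χ _ => h4 χ
    _ = N * (B.card : ℝ) ^ 4 + Y * ∑ χ : AddChar G ℂ, RR B π χ 1 := by
        rw [Finset.sum_add_distrib, Finset.sum_ite_eq' Finset.univ (0 : AddChar G ℂ),
          if_pos (Finset.mem_univ _), ← Finset.mul_sum]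
    _ ≤ _ := by
        have := mul_le_mul_of_nonneg_left (sum_all B π m hm) hY0
        linarith

end energy

end Pool.Agent.N142.FD
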