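import Pool.Agent.N142.FD.Reset

/-!
# Finite range of dilates: the energy inequality with characters of small order
-/

set_option autoImplicit false

namespace Pool.Agent.N142.FD

open Finset
open scoped Pointwise Classical ComplexConjugate
open Pool.Agent.TH414.Dil

section energy

variable {G : Type*} [AddCommGroup G] {ι : Type*}

theorem sum_all' [Finite G] [Fintype (AddChar G ℂ)] (B : Finset ι) (π : ι → G) (m : ℕ)
    (hm' : ∀ (g : G) (S : Finset ι), S ⊆ B → (∀ a ∈ S, π a = g) → S.card ≤ m) :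
    ∑ χ : AddChar G ℂ, RR B π χ 1 ≤ Nat.card G * (m * B.card) :=
  sum_all B π m fun g => hm' g _ (Finset.filter_subset _ _) fun _ ha => (Finset.mem_filter.1 ha).2

/-- **The energy inequality over a range of multipliers**, with exceptional characters. -/
theorem energy_range' [Finite G] (B : Finset ι) (π : ι → G) (m N D : ℕ) (δ Ξ : ℝ) (hδ : 0 ≤ δ)
    (hΞ : 0 ≤ Ξ)
    (hm' : ∀ (g : G) (S : Finset ι), S ⊆ B → (∀ a ∈ S, π a = g) → S.card ≤ m)
    (hbad : ∀ S : Finset (AddChar G ℂ), (∀ χ ∈ S, (kr χ).index ≤ D) →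
      ∑ χ ∈ S, RR B π χ 1 ≤ Ξ * (B.card : ℝ) ^ 2)
    (hcc : ∀ χ : AddChar G ℂ, D < (kr χ).index → (cc B π χ : ℝ) ≤ δ * (B.card : ℝ) ^ 2) :
    (Nat.card G : ℝ) * ∑ n ∈ range N, (EE B π n : ℝ) ≤
      N * (Ξ * (B.card : ℝ) ^ 4) + (N * (δ * (B.card : ℝ) ^ 2) + Nat.card G * (m * B.card)) *
        (Nat.card G * (m * B.card)) := by
  have hm : ∀ g : G, (B.filter (fun a => π a = g)).card ≤ m := fun g =>
    hm' g _ (Finset.filter_subset _ _) fun a ha => (Finset.mem_filter.1 ha).2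
  have hfin : Finite (AddChar G ℂ) := inferInstance
  have : Fintype (AddChar G ℂ) := Fintype.ofFinite _
  have h1 : (Nat.card G : ℝ) * ∑ n ∈ range N, (EE B π n : ℝ) =
      ∑ χ : AddChar G ℂ, RR B π χ 1 * ∑ n ∈ range N, RR B π χ n := by
    rw [Finset.mul_sum]
    simp only [EE_eq, Finset.mul_sum]
    rw [Finset.sum_comm]
  rw [h1]
  set Y : ℝ := N * (δ * (B.card : ℝ) ^ 2) + Nat.card G * (m * B.card) with hY
  have hY0 : 0 ≤ Y := by positivity
  rw [← Finset.sum_filter_add_sum_filter_not Finset.univ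
    (fun χ : AddChar G ℂ => (kr χ).index ≤ D)]
  refine add_le_add ?_ ?_
  · -- exceptional characters
    calc ∑ χ ∈ Finset.univ.filter (fun χ : AddChar G ℂ => (kr χ).index ≤ D),
          RR B π χ 1 * ∑ n ∈ range N, RR B π χ n
        ≤ ∑ χ ∈ Finset.univ.filter (fun χ : AddChar G ℂ => (kr χ).index ≤ D),
          RR B π χ 1 * (N * (B.card : ℝ) ^ 2) := by
          refine Finset.sum_le_sum fun χ _ => mul_le_mul_of_nonneg_left ?_ (RR_nonneg _ _ _ _)
          calc ∑ n ∈ range N, RR B π χ n ≤ ∑ n ∈ range N, (B.card : ℝ) ^ 2 :=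
                Finset.sum_le_sum fun n _ => RR_le B π χ n
            _ = _ := by rw [Finset.sum_const, card_range, nsmul_eq_mul]
      _ = (∑ χ ∈ Finset.univ.filter (fun χ : AddChar G ℂ => (kr χ).index ≤ D),
          RR B π χ 1) * (N * (B.card : ℝ) ^ 2) := by rw [Finset.sum_mul]
      _ ≤ (Ξ * (B.card : ℝ) ^ 2) * (N * (B.card : ℝ) ^ 2) := by
          refine mul_le_mul_of_nonneg_right (hbad _ fun χ hχ => (Finset.mem_filter.1 hχ).2)
            (by positivity)
      _ = _ := by ring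
  · have h4 : ∀ χ : AddChar G ℂ, ¬ (kr χ).index ≤ D →
        RR B π χ 1 * ∑ n ∈ range N, RR B π χ n ≤ Y * RR B π χ 1 := by
      intro χ hχ
      rw [mul_comm]
      refine mul_le_mul_of_nonneg_right ?_ (RR_nonneg _ _ _ _)
      set D' := (kr χ).index with hD
      have hD0 : 0 < D' := Nat.pos_of_ne_zero (kr χ).index_ne_zero_of_finite
      have hpow : ∀ x : G, χ x ^ (D' * (N / D' + 1)) = 1 := by
        intro x
        rw [← AddChar.map_nsmul_eq_pow, mul_comm, mul_nsmul', ← mem_kr]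
        refine (kr χ).nsmul_mem ?_ _
        exact (kr χ).nsmul_index_mem x
      have h5 : ∑ n ∈ range N, RR B π χ n ≤ ∑ n ∈ range (D' * (N / D' + 1)), RR B π χ n := by
        refine Finset.sum_le_sum_of_subset_of_nonneg ?_ fun _ _ _ => RR_nonneg _ _ _ _
        refine Finset.range_subset_range.2 ?_
        exact (Nat.lt_mul_div_succ N hD0).le
      rw [sum_RR B π χ _ hpow] at h5
      have h6 : D' * (N / D' + 1) ≤ N + D' := by
        rw [mul_add, mul_one]
        exact Nat.add_le_add_right (Nat.mul_div_le N D') _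
      have h7 : ((D' * (N / D' + 1) : ℕ) : ℝ) ≤ (N : ℝ) + D' := by exact_mod_cast h6
      have h8 : (D' : ℝ) * cc B π χ ≤ Nat.card G * (m * B.card) := by
        exact_mod_cast index_mul_cc B π χ m hm
      calc ∑ n ∈ range N, RR B π χ n ≤ ((D' * (N / D' + 1) : ℕ) : ℝ) * cc B π χ := h5
        _ ≤ ((N : ℝ) + D') * cc B π χ := mul_le_mul_of_nonneg_right h7 (Nat.cast_nonneg _)
        _ = N * cc B π χ + D' * cc B π χ := by ring
        _ ≤ _ := add_le_add (mul_le_mul_of_nonneg_left (hcc χ (not_le.1 hχ))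
            (Nat.cast_nonneg _)) h8
    calc ∑ χ ∈ Finset.univ.filter (fun χ : AddChar G ℂ => ¬ (kr χ).index ≤ D),
          RR B π χ 1 * ∑ n ∈ range N, RR B π χ n
        ≤ ∑ χ ∈ Finset.univ.filter (fun χ : AddChar G ℂ => ¬ (kr χ).index ≤ D),
          Y * RR B π χ 1 := Finset.sum_le_sum fun χ hχ => h4 χ (Finset.mem_filter.1 hχ).2
      _ ≤ ∑ χ : AddChar G ℂ, Y * RR B π χ 1 :=
          Finset.sum_le_sum_of_subset_of_nonneg (Finset.filter_subset _ _)
            fun χ _ _ => mul_nonneg hY0 (RR_nonneg _ _ _ _)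
      _ = Y * ∑ χ : AddChar G ℂ, RR B π χ 1 := by rw [Finset.mul_sum]
      _ ≤ _ := mul_le_mul_of_nonneg_left (sum_all B π m hm) hY0

end energy

section finite

variable {F : Type*} [AddCommGroup F] [Finite F]

/-- lifting a character to a quotient -/
theorem exists_lift (L : AddSubgroup F) (θ : AddChar F ℂ) (h : ∀ x ∈ L, θ x = 1) :
    ∃ ψ : AddChar (F ⧸ L) ℂ, ∀ x : F, ψ (QuotientAddGroup.mk x) = θ x := by
  refine ⟨AddChar.toAddMonoidHomEquiv.symm (QuotientAddGroup.lift L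
    (AddChar.toAddMonoidHomEquiv θ) ?_), ?_⟩
  · intro x hx
    rw [AddMonoidHom.mem_ker]
    exact congrArg Additive.ofMul (h x hx)
  · intro x
    rfl

/-- the sum over the characters whose kernel has index `d` -/
theorem bad_sum (W : AddSubgroup F) (B : Finset F) (d : ℕ) (S : Finset (AddChar (F ⧸ W) ℂ))
    (hS : ∀ χ ∈ S, (kr χ).index = d) :
    ∑ χ ∈ S, RR B (fun a => (QuotientAddGroup.mk a : F ⧸ W)) χ 1 ≤
      (nsmulAddMonoidHom d : F →+ F).range.index *
        (mx (nsmulAddMonoidHom d : F →+ F).range B * B.card) := by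
  set L : AddSubgroup F := (nsmulAddMonoidHom d : F →+ F).range with hL
  have hfin : Finite (AddChar (F ⧸ L) ℂ) := inferInstance
  have : Fintype (AddChar (F ⧸ L) ℂ) := Fintype.ofFinite _
  have hex : ∀ χ : AddChar (F ⧸ W) ℂ, ∃ ψ : AddChar (F ⧸ L) ℂ, χ ∈ S →
      ∀ x : F, ψ (QuotientAddGroup.mk x) = χ (QuotientAddGroup.mk x) := by
    intro χ
    by_cases hχ : χ ∈ S
    · obtain ⟨ψ, hψ⟩ := exists_lift L
        (χ.compAddMonoidHom (QuotientAddGroup.mk' W)) (by
          rintro x ⟨y, rfl⟩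
          rw [AddChar.compAddMonoidHom_apply, nsmulAddMonoidHom_apply, map_nsmul, ← mem_kr,
            ← hS χ hχ]
          exact (kr χ).nsmul_index_mem _)
      exact ⟨ψ, fun _ x => hψ x⟩
    · exact ⟨0, fun h => absurd h hχ⟩
  choose ψ hψ using hex
  have hinj : Set.InjOn ψ S := by
    intro χ hχ χ' hχ' h
    ext y
    obtain ⟨x, rfl⟩ := QuotientAddGroup.mk_surjective y
    rw [← hψ χ hχ x, ← hψ χ' hχ' x, h]
  have h1 : ∑ χ ∈ S, RR B (fun a => (QuotientAddGroup.mk a : F ⧸ W)) χ 1 =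
      ∑ χ ∈ S, RR B (fun a => (QuotientAddGroup.mk a : F ⧸ L)) (ψ χ) 1 := by
    refine Finset.sum_congr rfl fun χ hχ => ?_
    rw [RR, RR]
    congr 1
    refine Finset.sum_congr rfl fun a _ => ?_
    rw [hψ χ hχ a]
  rw [h1]
  calc ∑ χ ∈ S, RR B (fun a => (QuotientAddGroup.mk a : F ⧸ L)) (ψ χ) 1
      = ∑ η ∈ S.image ψ, RR B (fun a => (QuotientAddGroup.mk a : F ⧸ L)) η 1 :=
        (Finset.sum_image (f := fun η => RR B (fun a => (QuotientAddGroup.mk a : F ⧸ L)) η 1)
          hinj).symm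
    _ ≤ ∑ η : AddChar (F ⧸ L) ℂ, RR B (fun a => (QuotientAddGroup.mk a : F ⧸ L)) η 1 :=
        Finset.sum_le_sum_of_subset_of_nonneg (Finset.subset_univ _)
          fun _ _ _ => RR_nonneg _ _ _ _
    _ ≤ Nat.card (F ⧸ L) * (mx L B * B.card) := by
        refine sum_all' B _ (mx L B) ?_
        intro y T hT hTy
        obtain ⟨g, rfl⟩ := QuotientAddGroup.mk_surjective y
        refine le_trans (Finset.card_le_card ?_) (le_mx L B g)
        intro x hx
        rw [mem_fib]
        refine ⟨hT hx, ?_⟩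
        rw [← QuotientAddGroup.eq_zero_iff, QuotientAddGroup.mk_sub, hTy x hx, sub_self]

/-- one step of the chain, small primes -/
theorem lam_step' (W : AddSubgroup F) (B : Finset F) (hB : B.Nonempty) (κ Ξ : ℝ) (hκ : 1 ≤ κ)
    (N D : ℕ) (hN : 0 < N) (hΞ : 0 ≤ Ξ)
    (hE : ∀ n : ℕ, n < N → ((B + B + nd n B).card : ℝ) ≤ κ * B.card)
    (hδ : ∀ V : AddSubgroup F, D < V.index → 4 * κ * mx V B ≤ B.card)
    (hbad : ∀ d : ℕ, 1 ≤ d → d ≤ D → ((nsmulAddMonoidHom d : F →+ F).range.index *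
        mx (nsmulAddMonoidHom d : F →+ F).range B : ℝ) ≤ Ξ * B.card)
    (hNl : 4 * κ * (W.index * mx W B) ≤ N * B.card) :
    (W.index * mx W B : ℝ) ≤ 2 * κ * (D * Ξ) * B.card := by
  have hB0 : (0 : ℝ) < B.card := by exact_mod_cast hB.card_pos
  have hκ0 : (0 : ℝ) < κ := by linarith
  have hN0 : (0 : ℝ) < N := by exact_mod_cast hN
  have h1 := energy_range' (G := F ⧸ W) B (fun a => (QuotientAddGroup.mk a : F ⧸ W)) (mx W B) N
    D (1 / (4 * κ)) (D * Ξ) (by positivity) (by positivity) (by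
      intro y S hS hSy
      obtain ⟨g, rfl⟩ := QuotientAddGroup.mk_surjective y
      refine le_trans (Finset.card_le_card ?_) (le_mx W B g)
      intro x hx
      rw [mem_fib]
      refine ⟨hS hx, ?_⟩
      rw [← QuotientAddGroup.eq_zero_iff, QuotientAddGroup.mk_sub, hSy x hx, sub_self]) (by
      intro S hS
      have h2 : ∑ χ ∈ S, RR B (fun a => (QuotientAddGroup.mk a : F ⧸ W)) χ 1 =
          ∑ d ∈ Finset.Icc 1 D, ∑ χ ∈ S.filter (fun χ => (kr χ).index = d),
            RR B (fun a => (QuotientAddGroup.mk a : F ⧸ W)) χ 1 := by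
        rw [Finset.sum_fiberwise_of_maps_to]
        intro χ hχ
        rw [Finset.mem_Icc]
        exact ⟨Nat.one_le_iff_ne_zero.2 (kr χ).index_ne_zero_of_finite, hS χ hχ⟩
      rw [h2]
      calc ∑ d ∈ Finset.Icc 1 D, ∑ χ ∈ S.filter (fun χ => (kr χ).index = d),
            RR B (fun a => (QuotientAddGroup.mk a : F ⧸ W)) χ 1
          ≤ ∑ d ∈ Finset.Icc 1 D, (Ξ * (B.card : ℝ) ^ 2) := by
            refine Finset.sum_le_sum fun d hd => ?_
            rw [Finset.mem_Icc] at hd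
            refine (bad_sum W B d _ fun χ hχ => (Finset.mem_filter.1 hχ).2).trans ?_
            have h3 := mul_le_mul_of_nonneg_right (hbad d hd.1 hd.2) hB0.le
            calc _ = ((nsmulAddMonoidHom d : F →+ F).range.index *
                  mx (nsmulAddMonoidHom d : F →+ F).range B : ℝ) * B.card := by ring
              _ ≤ _ := h3
              _ = _ := by ring
        _ = D * Ξ * (B.card : ℝ) ^ 2 := by
            rw [Finset.sum_const, Nat.card_Icc, nsmul_eq_mul]
            simp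
            ring) (by
      intro χ hχ
      set V : AddSubgroup F := (kr χ).comap (QuotientAddGroup.mk' W) with hV
      have hVidx : V.index = (kr χ).index :=
        (kr χ).index_comap_of_surjective (QuotientAddGroup.mk'_surjective W)
      have h2 := hδ V (by rw [hVidx]; exact hχ)
      have h3 : cc B (fun a => (QuotientAddGroup.mk a : F ⧸ W)) χ ≤ B.card * mx V B := by
        have h4 : cc B (fun a => (QuotientAddGroup.mk a : F ⧸ W)) χ =
            ∑ a ∈ B, (B.filter (fun c => χ ((QuotientAddGroup.mk a : F ⧸ W) -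
              QuotientAddGroup.mk c) = 1)).card := by
          rw [cc, Finset.card_filter, Finset.sum_product]
          refine Finset.sum_congr rfl fun a _ => ?_
          rw [Finset.card_filter]
        rw [h4, ← smul_eq_mul, ← Finset.sum_const]
        refine Finset.sum_le_sum fun a _ => ?_
        refine le_trans (Finset.card_le_card ?_) (le_mx V B a)
        intro c hc
        rw [mem_filter] at hc
        rw [mem_fib]
        refine ⟨hc.1, ?_⟩
        have h5 : a - c ∈ V := by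
          rw [hV, AddSubgroup.mem_comap, QuotientAddGroup.mk'_apply, QuotientAddGroup.mk_sub,
            mem_kr]
          exact hc.2
        have : c - a = -(a - c) := by abel
        rw [this]; exact V.neg_mem h5
      have h4 : ((cc B (fun a => (QuotientAddGroup.mk a : F ⧸ W)) χ : ℕ) : ℝ) ≤
          B.card * mx V B := by exact_mod_cast h3
      refine h4.trans ?_
      have h5 : (mx V B : ℝ) ≤ 1 / (4 * κ) * B.card := by
        rw [one_div, ← div_eq_inv_mul, le_div_iff₀ (by positivity)]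
        linarith
      calc (B.card : ℝ) * mx V B ≤ B.card * (1 / (4 * κ) * B.card) := by gcongr
        _ = _ := by ring)
  have hg : (Nat.card (F ⧸ W) : ℝ) = W.index := rfl
  rw [hg] at h1
  -- the lower bound
  have h2 : (N : ℝ) * ((B.card : ℝ) ^ 3 * mx W B) ≤
      κ * ∑ n ∈ range N, (EE B (fun a => (QuotientAddGroup.mk a : F ⧸ W)) n : ℝ) := by
    rw [Finset.mul_sum]
    calc (N : ℝ) * ((B.card : ℝ) ^ 3 * mx W B) =
        ∑ n ∈ range N, ((B.card : ℝ) ^ 3 * mx W B) := by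
          rw [Finset.sum_const, card_range, nsmul_eq_mul]
      _ ≤ _ := Finset.sum_le_sum fun n hn => EE_ge W B hB n κ (hE n (mem_range.1 hn))
  set β : ℝ := (B.card : ℝ) with hβ
  set M : ℝ := (mx W B : ℝ) with hM
  set g : ℝ := (W.index : ℝ) with hgdef
  set Z : ℝ := g * M with hZ
  set ξ : ℝ := D * Ξ with hξ
  have hξ0 : 0 ≤ ξ := by positivity
  set Sg := ∑ n ∈ range N, (EE B (fun a => (QuotientAddGroup.mk a : F ⧸ W)) n : ℝ) with hSg
  have hg0 : 0 ≤ g := Nat.cast_nonneg _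
  have hM0 : 0 ≤ M := Nat.cast_nonneg _
  have hZ0 : 0 ≤ Z := mul_nonneg hg0 hM0
  have h3 : (N : ℝ) * (β ^ 3 * Z) ≤ κ * (N * (ξ * β ^ 4) +
      (N * (1 / (4 * κ) * β ^ 2) + Z * β) * (Z * β)) := by
    have e1 : (N : ℝ) * (β ^ 3 * Z) = g * (N * (β ^ 3 * M)) := by rw [hZ]; ring
    have e2 : g * (κ * Sg) = κ * (g * Sg) := by ring
    have e3 : (N * (1 / (4 * κ) * β ^ 2) + Z * β) * (Z * β) =
        (N * (1 / (4 * κ) * β ^ 2) + g * (M * β)) * (g * (M * β)) := by rw [hZ]; ring
    rw [e1, e3]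
    calc g * (N * (β ^ 3 * M)) ≤ g * (κ * Sg) := mul_le_mul_of_nonneg_left h2 hg0
      _ = κ * (g * Sg) := e2
      _ ≤ _ := mul_le_mul_of_nonneg_left h1 hκ0.le
  have h4 : κ * (Z * β * (Z * β)) ≤ N * β ^ 3 * Z / 4 := by
    have : 4 * κ * Z * (Z * β ^ 2) ≤ N * β * (Z * β ^ 2) :=
      mul_le_mul_of_nonneg_right hNl (by positivity)
    nlinarith [this]
  have h5 : κ * (N * (1 / (4 * κ) * β ^ 2) * (Z * β)) = N * β ^ 3 * Z / 4 := by
    field_simp
  have h6 : (N : ℝ) * (β ^ 3 * Z) ≤ κ * (N * (ξ * β ^ 4)) + N * β ^ 3 * Z / 2 := by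
    calc (N : ℝ) * (β ^ 3 * Z) ≤ _ := h3
      _ = κ * (N * (ξ * β ^ 4)) + κ * (N * (1 / (4 * κ) * β ^ 2) * (Z * β)) +
          κ * (Z * β * (Z * β)) := by ring
      _ ≤ _ := by rw [h5]; linarith
  have h7 : ((N : ℝ) * β ^ 3) * Z ≤ ((N : ℝ) * β ^ 3) * (2 * κ * ξ * β) := by nlinarith [h6]
  exact le_of_mul_le_mul_left h7 (by positivity)

end finite

end Pool.Agent.N142.FD
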