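import Pool.Agent.N142.FD.General

/-!
# Finite range of dilates: final statements
-/

set_option autoImplicit false

namespace Pool.Agent.N142.FD

open Finset
open scoped Pointwise Classical
open Pool.Agent.TH414.Dil

variable {Γ : Type*} [AddCommGroup Γ]

/-- **Structure theorem**, all abelian groups. -/
theorem structure_general (A : Finset Γ) (hA : A.Nonempty) (K : ℝ) (hK : 2 ≤ K) (b N : ℕ)
    (hN : 5000000000 ≤ N) (hb : K ^ N ≤ b) (hd : Dl K b A) :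
    ∃ H : AddSubgroup Γ, Finite H ∧ ((bar H A).card : ℝ) ≤ K ^ 124353 ∧
      (Nat.card H : ℝ) ≤ K ^ 1345223593 * A.card := by
  have hK1 : (1 : ℝ) ≤ K := by linarith
  have hK1' : (1 : ℝ) < K := by linarith
  have hb60 : K ^ 60 < b := lt_of_lt_of_le (pow_lt_pow_right₀ hK1' (by omega)) hb
  -- a subgroup of minimal order
  let P : ℕ → Prop := fun k => ∃ U : AddSubgroup Γ, Finite U ∧
    ((bar U A).card : ℝ) ≤ K ^ 124353 ∧ Nat.card U = k
  have hP : ∃ k, P k := by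
    obtain ⟨U, hU, h⟩ := few_cosets_fin A hA hK1 hb60 hd
    exact ⟨_, U, hU, h.trans (le_self_pow₀ hK1 (by norm_num)), rfl⟩
  obtain ⟨H, hHfin, hHc, hHk⟩ := Nat.find_spec hP
  have hmin : ∀ U : AddSubgroup Γ, Finite U → ((bar U A).card : ℝ) ≤ K ^ 124353 →
      Nat.card H ≤ Nat.card U := by
    intro U hU h
    rw [hHk]
    exact Nat.find_min' hP ⟨U, hU, h, rfl⟩
  refine ⟨H, hHfin, hHc, ?_⟩
  exact inner' H.subtype Subtype.val_injective A hA K hK b N 124353 124292 124362 373010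
    1344726220 1345223593 994872 rfl rfl rfl rfl rfl rfl rfl hN hb hd
    (by rw [AddSubgroup.range_subtype]; exact hHc) hmin

/-- the hypothesis for the integers in a real range -/
theorem Dl_of_range (A : Finset Γ) (K X : ℝ) (hK : 1 ≤ K) (hX : 0 ≤ X)
    (h : ∀ n : ℕ, 1 ≤ n → (n : ℝ) ≤ X → ((A + A.image (fun a => n • a)).card : ℝ) ≤
      K * A.card) : Dl K ⌊X⌋₊ A := by
  intro n hn
  rcases Nat.eq_zero_or_pos n with rfl | hn0
  · rcases A.eq_empty_or_nonempty with rfl | hA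
    · simp
    · have h1 : (A + nd 0 A).card ≤ A.card := by
        have h2 : nd 0 A = {0} := by
          ext x
          simp only [nd, mem_image, zero_nsmul, mem_singleton]
          constructor
          · rintro ⟨_, _, h⟩; exact h.symm
          · rintro rfl; obtain ⟨a, ha⟩ := hA; exact ⟨a, ha, rfl⟩
        rw [h2, add_singleton]
        exact Finset.card_image_le
      have h2 : ((A + nd 0 A).card : ℝ) ≤ A.card := by exact_mod_cast h1
      have h3 : (0 : ℝ) ≤ A.card := Nat.cast_nonneg _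
      nlinarith
  · exact h n hn0 ((Nat.le_floor_iff hX).1 hn)

/-- floors of large numbers -/
theorem floor_ge {L : ℝ} (hL : 2 ≤ L) (m n : ℕ) (hmn : m < n) :
    L ^ m ≤ ((⌊L ^ n⌋₊ : ℕ) : ℝ) := by
  have hL1 : (1 : ℝ) ≤ L := by linarith
  have h1 : L ^ n < ((⌊L ^ n⌋₊ : ℕ) : ℝ) + 1 := Nat.lt_floor_add_one _
  have h2 : L ^ (m + 1) ≤ L ^ n := pow_le_pow_right₀ hL1 hmn
  have h3 : (1 : ℝ) ≤ L ^ m := one_le_pow₀ hL1
  rw [pow_succ] at h2
  nlinarith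

/-- Part I. -/
theorem partI (A : Finset Γ) (hA : A.Nonempty) (K : ℝ) (hK : 1 ≤ K) (E : ℕ)
    (hE : 5000000000 < E)
    (hdil : ∀ n : ℕ, 1 ≤ n → (n : ℝ) ≤ (2 * K) ^ E →
      ((A + A.image (fun a => n • a)).card : ℝ) ≤ K * A.card) (L1 L2 L3 : ℕ)
    (h1 : 124353 ≤ L1) (h2 : 1345223593 ≤ L2) (h3 : 2690447186 ≤ L3) :
    (∃ (H : AddSubgroup Γ) (T : Finset Γ), Finite H ∧
      (Nat.card H : ℝ) ≤ (2 * K) ^ L2 * A.card ∧
      (T.card : ℝ) ≤ (2 * K) ^ L1 ∧ ∀ a ∈ A, ∃ t ∈ T, a - t ∈ H) ∧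
    (∃ (B : Set (Fin 1 → ℝ)) (ψ : (Fin 1 → ℤ) →+ Γ) (H : AddSubgroup Γ) (T : Finset Γ),
      Convex ℝ B ∧ IsCompact B ∧ (interior B).Nonempty ∧ (∀ x ∈ B, -x ∈ B) ∧
      Finite H ∧
      {x : Fin 1 → ℤ | (fun i => (x i : ℝ)) ∈ B}.ncard * Nat.card H ≤ A.card ∧
      (T.card : ℝ) ≤ 8 * (2 * K) ^ L3 ∧
      ∀ a ∈ A, ∃ t ∈ T, ∃ x : Fin 1 → ℤ, (fun i => (x i : ℝ)) ∈ B ∧
        ∃ h ∈ H, a = t + ψ x + h) := by
  obtain ⟨L, hL⟩ : ∃ L, L = 2 * K := ⟨_, rfl⟩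
  have hL2 : 2 ≤ L := by linarith
  have hL1 : (1 : ℝ) ≤ L := by linarith
  have hA0 : (0 : ℝ) < A.card := by exact_mod_cast hA.card_pos
  have hd0 : Dl K ⌊L ^ E⌋₊ A := Dl_of_range A K (L ^ E) hK (by positivity) (by
    intro n hn hn'
    rw [hL] at hn'
    exact hdil n hn hn')
  have hd : Dl L ⌊L ^ E⌋₊ A := fun n hn => (hd0 n hn).trans (by
    refine mul_le_mul_of_nonneg_right ?_ hA0.le
    linarith)
  obtain ⟨H, hHfin, hHc, hHo⟩ := structure_general A hA L hL2 ⌊L ^ E⌋₊ 5000000000 le_rfl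
    (floor_ge hL2 _ _ hE) hd
  have hHfin' : Finite H := hHfin
  constructor
  · obtain ⟨X, hX, hcov⟩ := reps H A
    rw [← hL]
    refine ⟨H, X, hHfin, ?_, ?_, hcov⟩
    · refine hHo.trans ?_
      exact mul_le_mul_of_nonneg_right (pow_le_pow_right₀ hL1 h2) hA0.le
    · rw [hX]
      exact hHc.trans (pow_le_pow_right₀ hL1 h1)
  · obtain ⟨B, ψ, H', T, h4, h5, h6, h7, h8, h9, h10, h11⟩ :=
      q1_form A hA (L ^ 1345223593) (one_le_pow₀ hL1) H
        (hHc.trans (pow_le_pow_right₀ hL1 (by norm_num))) (by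
          refine hHo.trans ?_
          refine mul_le_mul_of_nonneg_right ?_ hA0.le
          have : 0 ≤ L ^ 1345223593 := by positivity
          linarith)
    refine ⟨B, ψ, H', T, h4, h5, h6, h7, h8, h9, ?_, h11⟩
    rw [← hL]
    refine h10.trans ?_
    rw [← pow_mul]
    exact mul_le_mul_of_nonneg_left (pow_le_pow_right₀ hL1 (by omega)) (by norm_num)

/-- Part II. -/
theorem partII (A : Finset Γ) (hA : A.Nonempty) (K : ℝ) (hK : 1 ≤ K)
    (hdil : ∀ n : ℕ, 1 ≤ n → (n : ℝ) ≤ (2 * K) ^ 100 →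
      ((A + A.image (fun a => n • a)).card : ℝ) ≤ K * A.card) :
    (∃ (H : AddSubgroup Γ) (T : Finset Γ), Finite H ∧ (T.card : ℝ) ≤ K ∧
      ∀ a ∈ A, ∃ t ∈ T, a - t ∈ H) ∧
    ((∀ p : ℕ, p.Prime → (p : ℝ) ≤ (2 * K) ^ 50 → ∀ x : Γ, p • x = 0 → x = 0) →
      (∃ (H : AddSubgroup Γ) (T : Finset Γ), Finite H ∧
        (Nat.card H : ℝ) ≤ 2 * K ^ 10 * A.card ∧
        (T.card : ℝ) ≤ K ∧ ∀ a ∈ A, ∃ t ∈ T, a - t ∈ H) ∧
      (∃ (B : Set (Fin 1 → ℝ)) (ψ : (Fin 1 → ℤ) →+ Γ) (H : AddSubgroup Γ) (T : Finset Γ),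
        Convex ℝ B ∧ IsCompact B ∧ (interior B).Nonempty ∧ (∀ x ∈ B, -x ∈ B) ∧
        Finite H ∧
        {x : Fin 1 → ℤ | (fun i => (x i : ℝ)) ∈ B}.ncard * Nat.card H ≤ A.card ∧
        (T.card : ℝ) ≤ 8 * K ^ 20 ∧
        ∀ a ∈ A, ∃ t ∈ T, ∃ x : Fin 1 → ℤ, (fun i => (x i : ℝ)) ∈ B ∧
          ∃ h ∈ H, a = t + ψ x + h)) ∧
    ((∀ x : Γ, IsOfFinAddOrder x → x = 0) → (A.card : ℝ) ≤ K) := by
  have hL2 : 2 ≤ 2 * K := by linarith
  have hA0 : (0 : ℝ) < A.card := by exact_mod_cast hA.card_pos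
  have hd : Dl K ⌊(2 * K) ^ 100⌋₊ A := Dl_of_range A K _ hK (by positivity) hdil
  have hb : (2 * K) ^ 92 ≤ ((⌊(2 * K) ^ 100⌋₊ : ℕ) : ℝ) := floor_ge hL2 92 100 (by norm_num)
  obtain ⟨hb1, hb60⟩ := b_facts hK hb
  obtain ⟨U, hU, hUc⟩ := few_cosets_fin A hA hK hb60 hd
  obtain ⟨X, hX, hXcov⟩ := reps U A
  refine ⟨⟨U, X, hU, by rw [hX]; exact hUc, hXcov⟩, ?_, ?_⟩
  · intro hΓ
    have hQ' : 256 * K ^ 48 < ((⌊(2 * K) ^ 50⌋₊ + 1 : ℕ) : ℝ) := by
      push_cast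
      refine lt_of_le_of_lt ?_ (Nat.lt_floor_add_one _)
      rw [mul_pow]
      have h1 : K ^ 48 ≤ K ^ 50 := pow_le_pow_right₀ hK (by norm_num)
      have h2 : (0 : ℝ) ≤ K ^ 50 := by positivity
      nlinarith
    obtain ⟨H, hHfin, hHc, hHo⟩ := structure_fin A hA K hK _ hb hd (⌊(2 * K) ^ 50⌋₊ + 1) hQ' (by
      intro p hp hpQ
      refine hΓ p hp ?_
      exact (Nat.le_floor_iff (by positivity)).1 (Nat.lt_succ_iff.1 hpQ))
    have hHfin' : Finite H := hHfin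
    constructor
    · obtain ⟨Y, hY, hcov⟩ := reps H A
      exact ⟨H, Y, hHfin, hHo, by rw [hY]; exact hHc, hcov⟩
    · obtain ⟨B, ψ, H', T, h4, h5, h6, h7, h8, h9, h10, h11⟩ :=
        q1_form A hA (K ^ 10) (one_le_pow₀ hK) H
          (hHc.trans (le_self_pow₀ hK (by norm_num))) hHo
      refine ⟨B, ψ, H', T, h4, h5, h6, h7, h8, h9, ?_, h11⟩
      refine h10.trans (le_of_eq ?_)
      rw [← pow_mul]
  · intro htf
    have hUbot : ∀ x ∈ U, x = 0 := by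
      intro x hx
      refine htf x ?_
      have h1 : IsOfFinAddOrder (⟨x, hx⟩ : U) := isOfFinAddOrder_of_finite _
      rw [isOfFinAddOrder_iff_nsmul_eq_zero] at h1 ⊢
      obtain ⟨n, hn, h⟩ := h1
      exact ⟨n, hn, by simpa using congrArg Subtype.val h⟩
    have h1 : A.card ≤ X.card := by
      refine Finset.card_le_card ?_
      intro a ha
      obtain ⟨x, hx, h⟩ := hXcov a ha
      have := hUbot _ h
      rw [sub_eq_zero.1 this]
      exact hx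
    calc (A.card : ℝ) ≤ X.card := by exact_mod_cast h1
      _ ≤ K := by rw [hX]; exact hUc

/-- Part III: intervals. -/
theorem partIII (R L : ℕ) : ∃ A : Finset ℤ, A.card = L ∧ ∀ n : ℕ, n ≤ R →
    (A + A.image (fun a => n • a)).card ≤ (R + 1) * A.card := by
  refine ⟨Finset.Ico 0 (L : ℤ), by simp, ?_⟩
  intro n hn
  have h1 : Finset.Ico 0 (L : ℤ) + (Finset.Ico 0 (L : ℤ)).image (fun a => n • a) ⊆
      Finset.Ico 0 ((R + 1) * L : ℤ) := by
    intro z hz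
    obtain ⟨x, hx, y, hy, rfl⟩ := Finset.mem_add.1 hz
    obtain ⟨w, hw, rfl⟩ := Finset.mem_image.1 hy
    rw [Finset.mem_Ico] at hx hw ⊢
    simp only [nsmul_eq_mul]
    have hn' : (n : ℤ) ≤ R := by exact_mod_cast hn
    have hn0 : (0 : ℤ) ≤ n := Int.natCast_nonneg n
    constructor
    · have := mul_nonneg hn0 hw.1
      linarith [hx.1]
    · have h2 : (n : ℤ) * w ≤ R * w := mul_le_mul_of_nonneg_right hn' hw.1
      have hR0 : (0 : ℤ) ≤ R := Int.natCast_nonneg R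
      have h3 : (R : ℤ) * w ≤ R * L := mul_le_mul_of_nonneg_left hw.2.le hR0
      linarith [hx.2]
  calc (Finset.Ico 0 (L : ℤ) + (Finset.Ico 0 (L : ℤ)).image (fun a => n • a)).card
      ≤ (Finset.Ico 0 ((R + 1) * L : ℤ)).card := Finset.card_le_card h1
    _ = (R + 1) * L := by
      rw [Int.card_Ico, sub_zero]
      have : ((R : ℤ) + 1) * L = (((R + 1) * L : ℕ) : ℤ) := by push_cast; ring
      rw [this, Int.toNat_natCast]
    _ = (R + 1) * (Finset.Ico 0 (L : ℤ)).card := by simp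

end Pool.Agent.N142.FD
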