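import Pool.Agent.N142.FD.Zone2

/-!
# Finite range of dilates: the general structure theorem
-/

set_option autoImplicit false

namespace Pool.Agent.N142.FD

open Finset
open scoped Pointwise Classical ComplexConjugate
open Pool.Agent.TH414.Dil

variable {Γ : Type*} [AddCommGroup Γ] {F : Type*} [AddCommGroup F]

/-- quotients of small exponent -/
theorem small_exp [Finite F] {G : Type*} [AddCommGroup G] (π : F →+ G)
    (hπ : Function.Surjective π) (B : Finset F) (hB : B.Nonempty) {K : ℝ} (hK : 2 ≤ K)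
    (d : ℕ) (hd0 : 1 ≤ d) (hd : ∀ y : G, d • y = 0) (q a m : ℕ)
    (hE : ∀ n : ℕ, n < d → ((B + B + nd n B).card : ℝ) ≤ K ^ q * B.card)
    (h1 : ((B + B).card : ℝ) ≤ K ^ a * B.card)
    (hM : ∀ V : AddSubgroup F, (B.card : ℝ) ≤ K ^ (q * 5406) * mx V B →
      (V.index : ℝ) ≤ K ^ m) :
    (Nat.card G * mx π.ker B : ℝ) ≤ K ^ (q * 5404 + m + a) * B.card := by
  have hK1 : (1 : ℝ) ≤ K := by linarith
  have hK0 : (0 : ℝ) < K := by linarith
  have hGfin : Finite G := Finite.of_surjective π hπ
  have hall : ∀ n : ℕ, (((B.image π) + nd n (B.image π)).card : ℝ) ≤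
      K ^ q * (B.image π).card := by
    refine all_dil (B.image π) (K ^ q) d hd0 0 (fun s _ => hd _) ?_
    intro n hn
    exact im_dil π B hB (K ^ q) n (hE n hn)
  obtain ⟨V, T, hVfin, hVc, hTc, hcov⟩ :=
    Pool.Agent.TH414.UD.structureA (B.image π) (hB.image _) (K ^ q) hall
  have h2 : ((bar (V.comap π) B).card : ℝ) ≤ K ^ (q * 5406) := by
    have h3 : (bar (V.comap π) B).card ≤ T.card := by
      refine bar_le_of_cover (V.comap π) B T (fun a t => π a - t ∈ V) ?_ ?_
      · intro a ha
        obtain ⟨t, htT, h⟩ := hcov (π a) (Finset.mem_image_of_mem _ ha)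
        exact ⟨t, htT, h⟩
      · intro a _ a' _ x hax ha'x
        rw [AddSubgroup.mem_comap, map_sub]
        have : π a - π a' = (π a - x) - (π a' - x) := by abel
        rw [this]
        exact V.sub_mem hax ha'x
    calc ((bar (V.comap π) B).card : ℝ) ≤ T.card := by exact_mod_cast h3
      _ ≤ (K ^ q) ^ 5406 := hTc
      _ = _ := by rw [← pow_mul]
  have h3 := hM (V.comap π) (by
    have h4 : (B.card : ℝ) ≤ (bar (V.comap π) B).card * mx (V.comap π) B := by
      exact_mod_cast card_le_bar_mul (V.comap π) B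
    exact h4.trans (mul_le_mul_of_nonneg_right h2 (Nat.cast_nonneg _)))
  rw [V.index_comap_of_surjective hπ] at h3
  have h4 : (Nat.card G : ℝ) = Nat.card V * V.index := by
    have := V.card_mul_index
    exact_mod_cast this.symm
  have h5 : ((B.image π).card : ℝ) * mx π.ker B ≤ K ^ a * B.card := by
    refine le_trans ?_ h1
    exact_mod_cast im_mul π B B hB
  calc (Nat.card G * mx π.ker B : ℝ) = Nat.card V * V.index * mx π.ker B := by rw [h4]
    _ ≤ ((K ^ q) ^ 5404 * (B.image π).card) * K ^ m * mx π.ker B := by gcongr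
    _ = ((K ^ q) ^ 5404 * K ^ m) * ((B.image π).card * mx π.ker B) := by ring
    _ ≤ ((K ^ q) ^ 5404 * K ^ m) * (K ^ a * B.card) := by gcongr
    _ = _ := by rw [← pow_mul, pow_add, pow_add]; ring

theorem inner' [Finite F] (φ : F →+ Γ) (hφ : Function.Injective φ)
    (A : Finset Γ) (hA : A.Nonempty) (K : ℝ) (hK : 2 ≤ K) (b N a a' q g c0 l e : ℕ)
    (ha : a = 124353) (ha' : a' = 124292) (hq : q = a + 9) (hg : g = a' + a + q + 3)
    (hc0 : c0 = 10810 * q + a' + 2 * a + 2) (hl : l = 1 + q + g + c0) (he : e = 8 * a + 48)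
    (hN : 5000000000 ≤ N)
    (hb : K ^ N ≤ b) (hd : Dl K b A)
    (hHc : ((bar φ.range A).card : ℝ) ≤ K ^ a)
    (hmin : ∀ U : AddSubgroup Γ, Finite U → ((bar U A).card : ℝ) ≤ K ^ a →
      Nat.card F ≤ Nat.card U) :
    (Nat.card F : ℝ) ≤ K ^ l * A.card := by
  have hA0 : (0 : ℝ) < A.card := by exact_mod_cast hA.card_pos
  have hK1 : (1 : ℝ) ≤ K := by linarith
  have hK1' : (1 : ℝ) < K := by linarith
  have hK0 : (0 : ℝ) < K := by linarith
  have h4K : (4 : ℝ) ≤ K ^ 2 := by nlinarith
  have hbm : ∀ m : ℕ, m ≤ N → K ^ m ≤ b := fun m hm => (pow_le_pow_right₀ hK1 hm).trans hb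
  have hb0 : (0 : ℝ) < b := lt_of_lt_of_le (by positivity) hb
  have hb1 : 1 ≤ b := by
    have : 0 < b := by exact_mod_cast hb0
    exact this
  have hd1 := hd 1 hb1
  rw [nd_one] at hd1
  -- the largest part
  obtain ⟨a₀, ha₀, hmx⟩ := exists_mx φ.range A hA
  obtain ⟨B, hBdef⟩ : ∃ B, B = sh φ hφ A a₀ := ⟨_, rfl⟩
  have hBc : B.card = mx φ.range A := by rw [hBdef, sh_card, hmx]
  have hBne : B.Nonempty := by
    rw [← Finset.card_pos, hBc]
    exact mx_pos _ A hA
  have hAB : (A.card : ℝ) ≤ K ^ a * B.card := by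
    have h1 : (A.card : ℝ) ≤ (bar φ.range A).card * mx φ.range A := by
      exact_mod_cast card_le_bar_mul φ.range A
    rw [hBc]
    refine h1.trans ?_
    gcongr
  have hBA : (B.card : ℝ) ≤ A.card := by
    rw [hBc]; exact_mod_cast mx_le _ A
  have hB0 : (0 : ℝ) < B.card := by exact_mod_cast hBne.card_pos
  have hB1 : ∀ n : ℕ, n ≤ b → ((B + nd n B).card : ℝ) ≤ K ^ (a + 1) * B.card := by
    intro n hn
    calc ((B + nd n B).card : ℝ) ≤ (A + nd n A).card := by
          rw [hBdef]; exact_mod_cast sh_add1 φ hφ A a₀ n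
      _ ≤ K * A.card := hd n hn
      _ ≤ K * (K ^ a * B.card) := by gcongr
      _ = _ := by rw [pow_succ]; ring
  have hB2 : ∀ j n : ℕ, n < b ^ j →
      ((B + nd n B).card : ℝ) ≤ K ^ (6 * j + (a + 2)) * B.card := by
    intro j n hn
    calc ((B + nd n B).card : ℝ) ≤ (A + nd n A).card := by
          rw [hBdef]; exact_mod_cast sh_add1 φ hφ A a₀ n
      _ ≤ K ^ (6 * j + 2) * A.card := (big_dilate hA hK1 hb1 hd j n hn).2
      _ ≤ K ^ (6 * j + 2) * (K ^ a * B.card) := by gcongr
      _ = _ := by rw [← mul_assoc, ← pow_add]; congr 2; ring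
  have hB3 : ∀ j n : ℕ, n < b ^ j →
      ((B + B + nd n B).card : ℝ) ≤ K ^ (6 * j + (a + 3)) * B.card := by
    intro j n hn
    calc ((B + B + nd n B).card : ℝ) ≤ (A + A + nd n A).card := by
          rw [hBdef]; exact_mod_cast sh_add2 φ hφ A a₀ n
      _ ≤ K ^ (6 * j + 3) * A.card := (big_dilate hA hK1 hb1 hd j n hn).1
      _ ≤ K ^ (6 * j + 3) * (K ^ a * B.card) := by gcongr
      _ = _ := by rw [← mul_assoc, ← pow_add]; congr 2; ring
  have hBB : ((B + B).card : ℝ) ≤ K ^ (a + 1) * B.card := by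
    have := hB1 1 hb1
    rwa [nd_one] at this
  -- subgroups meeting `B` in a large set have small index
  have hM2 : ∀ (V : AddSubgroup F) (c : ℕ), 6 * (a + c + 1) + 11 ≤ N →
      (B.card : ℝ) ≤ K ^ c * mx V B → (V.index : ℝ) ≤ K ^ (a' + (a + c + 1)) := by
    intro V c hcN hc
    set V' := V.map φ with hV'
    have hV'card' : Nat.card V' = Nat.card V := AddSubgroup.card_map_of_injective hφ
    have hV'fin : Finite V' := by
      refine Nat.finite_of_card_ne_zero ?_
      rw [hV'card']
      exact Nat.card_pos.ne'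
    have h4 : (A.card : ℝ) ≤ K ^ (a + c) * mx V' A := by
      have h5 : (mx V B : ℝ) ≤ mx V' A := by
        rw [hBdef]; exact_mod_cast mx_sh φ hφ A a₀ V
      calc (A.card : ℝ) ≤ K ^ a * B.card := hAB
        _ ≤ K ^ a * (K ^ c * mx V B) := by gcongr
        _ ≤ K ^ a * (K ^ c * mx V' A) := by gcongr
        _ = _ := by rw [pow_add]; ring
    have h5 : ((bar V' A).card : ℝ) * mx V' A ≤ K * A.card := by
      have h6 : ((bar V' A).card : ℝ) * mx V' A ≤ (A + A).card := by
        exact_mod_cast bar_mul V' A A hA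
      exact h6.trans hd1
    have h6 : ((bar V' A).card : ℝ) ≤ K ^ (a + c + 1) := by
      have h7 : (A.card : ℝ) * (bar V' A).card ≤ A.card * K ^ (a + c + 1) := by
        calc (A.card : ℝ) * (bar V' A).card ≤ (K ^ (a + c) * mx V' A) * (bar V' A).card := by
              gcongr
          _ = K ^ (a + c) * ((bar V' A).card * mx V' A) := by ring
          _ ≤ K ^ (a + c) * (K * A.card) := by gcongr
          _ = _ := by rw [pow_succ]; ring
      exact le_of_mul_le_mul_left h7 hA0
    obtain ⟨U, hUfin, hUbar, hUc⟩ := reset V' A hA hK hd (a + c + 1) h6 (hbm _ hcN)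
    rw [← ha] at hUbar
    rw [← ha'] at hUc
    have h7 := hmin U hUfin hUbar
    have h8 : (Nat.card F : ℝ) ≤ K ^ (a' + (a + c + 1)) * Nat.card V := by
      calc (Nat.card F : ℝ) ≤ Nat.card U := by exact_mod_cast h7
        _ ≤ _ := hUc
        _ = _ := by rw [hV'card']
    have h9 : (Nat.card F : ℝ) = Nat.card V * V.index := by
      exact_mod_cast V.card_mul_index.symm
    have hVpos : (0 : ℝ) < Nat.card V := by exact_mod_cast Nat.card_pos
    rw [h9, mul_comm (K ^ (a' + (a + c + 1)))] at h8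
    exact le_of_mul_le_mul_left h8 hVpos
  -- large primes
  have hM3 : ∀ V : AddSubgroup F, V ≠ ⊤ → ∀ p : ℕ, p.Prime → K ^ e ≤ p → PF p V →
      (mx V B : ℝ) ^ 4 * p ≤ K ^ (4 * (a + 1)) * (B.card : ℝ) ^ 4 := by
    intro V hV p hp hpe hPF
    by_contra hcon
    push Not at hcon
    obtain ⟨t, ht⟩ : ∃ t, t = (bar V B).card := ⟨_, rfl⟩
    obtain ⟨m, hm⟩ : ∃ m, m = mx V B := ⟨_, rfl⟩
    rw [← hm] at hcon
    have h1 : (t : ℝ) * m ≤ K ^ (a + 1) * B.card := by
      have h2 := bar_mul V B B hBne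
      have h3 : ((bar V B).card : ℝ) * mx V B ≤ (B + B).card := by exact_mod_cast h2
      rw [ht, hm]
      exact h3.trans hBB
    have h2 : (t : ℝ) ^ 4 < p := by
      have h3 : (m : ℝ) ^ 4 * (t : ℝ) ^ 4 < (m : ℝ) ^ 4 * p := by
        calc (m : ℝ) ^ 4 * (t : ℝ) ^ 4 = ((t : ℝ) * m) ^ 4 := by ring
          _ ≤ (K ^ (a + 1) * B.card) ^ 4 := pow_le_pow_left₀ (by positivity) h1 4
          _ = K ^ (4 * (a + 1)) * (B.card : ℝ) ^ 4 := by
            rw [mul_pow, ← pow_mul, mul_comm (a + 1) 4]
          _ < _ := hcon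
      exact lt_of_mul_lt_mul_left h3 (by positivity)
    have h2' : (bar V B).card ^ 4 < p := by rw [← ht]; exact_mod_cast h2
    have h3 : (t : ℝ) ≤ K ^ (a + 1) := by
      rw [ht]
      refine rigid' V B hBne hK1 (a + 2) (a + 1) ?_ hB1 hB2 p (LST_of_PF p V hPF B) h2'
      exact lt_of_lt_of_le (pow_lt_pow_right₀ hK1' (by omega : 48 + 4 * (a + 2) < N)) hb
    have h4 : (B.card : ℝ) ≤ K ^ (a + 1) * mx V B := by
      have h6 : (B.card : ℝ) ≤ t * m := by
        rw [ht, hm]; exact_mod_cast card_le_bar_mul V B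
      rw [← hm]
      refine h6.trans ?_
      gcongr
    have h5 := hM2 V (a + 1) (by omega) h4
    have h6 : p ≤ V.index := by
      have h7 : V.index ≠ 1 := fun h => hV (AddSubgroup.index_eq_one.1 h)
      obtain ⟨r, hr, hrd⟩ := Nat.exists_prime_and_dvd h7
      exact (hPF r hr hrd).trans (Nat.le_of_dvd
        (Nat.pos_of_ne_zero V.index_ne_zero_of_finite) hrd)
    have h7 : K ^ e ≤ K ^ (a' + (a + (a + 1) + 1)) := by
      calc K ^ e ≤ p := hpe
        _ ≤ V.index := by exact_mod_cast h6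
        _ ≤ _ := h5
    have h8 := (pow_le_pow_iff_right₀ hK1').1 h7
    omega
  -- quotients of small exponent
  have hM4 : ∀ d : ℕ, 1 ≤ d → d ≤ b → ((nsmulAddMonoidHom d : F →+ F).range.index *
        mx (nsmulAddMonoidHom d : F →+ F).range B : ℝ) ≤ K ^ c0 * B.card := by
    intro d hd0 hdb
    set L : AddSubgroup F := (nsmulAddMonoidHom d : F →+ F).range with hL
    have h1 := small_exp (QuotientAddGroup.mk' L) (QuotientAddGroup.mk'_surjective L) B hBne hK
      d hd0 (by
        intro y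
        obtain ⟨x, rfl⟩ := QuotientAddGroup.mk_surjective y
        rw [← QuotientAddGroup.mk_nsmul, QuotientAddGroup.eq_zero_iff]
        exact ⟨x, rfl⟩) q (a + 1) (a' + (a + q * 5406 + 1)) (by
        intro n hn
        have h2 := hB3 1 n (by rw [pow_one]; omega)
        refine h2.trans (le_of_eq ?_)
        rw [hq]
        congr 2
        omega) hBB (fun V hV => hM2 V (q * 5406) (by omega) hV)
    rw [QuotientAddGroup.ker_mk'] at h1
    have h2 : (Nat.card (F ⧸ L) : ℝ) = L.index := rfl
    rw [h2] at h1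
    refine h1.trans (le_of_eq ?_)
    congr 2
    omega
  -- small primes
  have hsm : ∀ W : AddSubgroup F, (W.index * mx W B : ℝ) ≤ K ^ (e + l) * B.card →
      (W.index * mx W B : ℝ) ≤ K ^ l * B.card := by
    intro W hW
    set D := ⌊K ^ g⌋₊ with hD
    have hDle : (D : ℝ) ≤ K ^ g := Nat.floor_le (by positivity)
    have h1 := lam_step' W B hBne (K ^ q) (K ^ c0) (one_le_pow₀ hK1) b D hb1 (by positivity)
      (by
        intro n hn
        have h2 := hB3 1 n (by rw [pow_one]; omega)
        refine h2.trans (le_of_eq ?_)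
        rw [hq]
        congr 2
        omega)
      (by
        intro V hV
        by_contra hcon
        push Not at hcon
        have h2 := hM2 V (q + 2) (by omega) (by
          refine hcon.le.trans ?_
          refine mul_le_mul_of_nonneg_right ?_ (Nat.cast_nonneg _)
          calc 4 * K ^ q ≤ K ^ 2 * K ^ q := by gcongr
            _ = _ := by rw [← pow_add, add_comm])
        have h3 : V.index ≤ D := by
          rw [hD]
          refine Nat.le_floor (h2.trans (le_of_eq ?_))
          congr 1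
          omega
        omega)
      (by
        intro d hd0 hdD
        refine hM4 d hd0 ?_
        have h2 : (d : ℝ) ≤ b := by
          calc (d : ℝ) ≤ D := by exact_mod_cast hdD
            _ ≤ K ^ g := hDle
            _ ≤ b := hbm _ (by omega)
        exact_mod_cast h2)
      (by
        calc 4 * K ^ q * (W.index * mx W B) ≤ K ^ 2 * K ^ q * (K ^ (e + l) * B.card) := by
              gcongr
          _ = K ^ (2 + q + (e + l)) * B.card := by rw [pow_add _ (2 + q), pow_add]; ring
          _ ≤ b * B.card := by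
            refine mul_le_mul_of_nonneg_right (hbm _ (by omega)) hB0.le)
    refine h1.trans ?_
    calc 2 * K ^ q * (D * K ^ c0) * (B.card : ℝ) ≤ K * K ^ q * (K ^ g * K ^ c0) * B.card := by
          gcongr
      _ = _ := by
        rw [hl, ← pow_succ', ← pow_add, ← pow_add]
        congr 2
        omega
  have hfinal := chain' B hBne K hK b (a + 3) (4 * (a + 1)) l e (by omega) (by omega)
    (hbm _ (by omega)) hB3 hM3 hsm
  refine hfinal.trans ?_
  gcongr

end Pool.Agent.N142.FD
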