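import Pool.Agent.N142.FD.Pop

/-!
# Finite range of dilates: a common multiple of the popular orders
-/

set_option autoImplicit false

namespace Pool.Agent.N142.FD

open Finset
open scoped Pointwise Classical
open Pool.Agent.TH414.Dil

variable {Γ : Type*} [AddCommGroup Γ] {G : Type*} [AddCommGroup G]

/-- the set `S - S` almost contains the cyclic group generated by `u` -/
def Pop (K : ℝ) (S : Finset G) (u : G) : Prop :=
  0 < addOrderOf u ∧ ∃ X : Finset G, (X.card : ℝ) ≤ 4 * K ∧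
    ∀ z ∈ AddSubgroup.zmultiples u, z ∈ X + (S - S)

theorem pop_of (K : ℝ) (S : Finset G) (x u : G) (hu : 0 < addOrderOf u)
    (h : (addOrderOf u : ℝ) ≤ 4 * K * cf S x u) : Pop K S u := by
  refine ⟨hu, ?_⟩
  have hcard : Nat.card (AddSubgroup.zmultiples u) = addOrderOf u := Nat.card_zmultiples u
  have hfin : Finite (AddSubgroup.zmultiples u) := by
    refine Nat.finite_of_card_ne_zero ?_
    rw [hcard]
    omega
  have hsfin : ((AddSubgroup.zmultiples u : AddSubgroup G) : Set G).Finite := Set.toFinite _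
  set Z : Finset G := hsfin.toFinset with hZ
  have hZmem : ∀ z, z ∈ Z ↔ z ∈ AddSubgroup.zmultiples u := by
    intro z
    rw [hZ, Set.Finite.mem_toFinset, SetLike.mem_coe]
  have hZc : Z.card = addOrderOf u := by
    rw [← hcard, hZ, ← Set.ncard_eq_toFinset_card _ hsfin, ← Nat.card_coe_set_eq]
    rfl
  set C := S.filter (fun v => v - x ∈ AddSubgroup.zmultiples u) with hC
  have hCc : C.card = cf S x u := rfl
  have hCne : C.Nonempty := by
    rw [← Finset.card_pos]
    by_contra hcon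
    have h0 : C.card = 0 := by omega
    rw [← hCc, h0, Nat.cast_zero, mul_zero] at h
    have : (0 : ℝ) < addOrderOf u := by exact_mod_cast hu
    linarith
  have h1 : Z + C ⊆ Z.image (fun z => x + z) := by
    intro w hw
    obtain ⟨z, hz, v, hv, rfl⟩ := Finset.mem_add.1 hw
    rw [mem_image]
    refine ⟨z + (v - x), ?_, by abel⟩
    rw [hZmem] at hz ⊢
    exact AddSubgroup.add_mem _ hz (Finset.mem_filter.1 hv).2
  have h2 : ((Z + C).card : ℝ) ≤ 4 * K * C.card := by
    calc ((Z + C).card : ℝ) ≤ (Z.image (fun z => x + z)).card := by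
          exact_mod_cast Finset.card_le_card h1
      _ ≤ Z.card := by exact_mod_cast Finset.card_image_le
      _ = addOrderOf u := by rw [hZc]
      _ ≤ _ := h
  obtain ⟨X, -, hX, hcov⟩ := Finset.ruzsa_covering_add hCne h2
  refine ⟨X, hX, fun z hz => ?_⟩
  have h3 := hcov ((hZmem z).2 hz)
  have h4 : C ⊆ S := Finset.filter_subset _ _
  exact Finset.add_subset_add_left (Finset.sub_subset_sub h4 h4) h3

/-- many popular differences -/
theorem pop_pairs (π : Γ →+ G) (A : Finset Γ) (hA : A.Nonempty) {K : ℝ} (hK : 1 ≤ K) {b : ℕ}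
    (hd : Dl K b A) (hb : 2 * K * (A.image π).card ≤ b) (hb0 : 0 < b) :
    (A.card : ℝ) ^ 2 ≤ 4 * K *
      ((A ×ˢ A).filter (fun q => Pop K (A.image π) (π q.1 - π q.2))).card := by
  have hA0 : (0 : ℝ) < A.card := by exact_mod_cast hA.card_pos
  have hK0 : (0 : ℝ) < K := by linarith
  have h1 := avg_count π A hA hK hd hb hb0
  set ρ : Γ × Γ → ℝ := fun q => ∑ x ∈ A,
      (cf (A.image π) (π x) (π q.1 - π q.2) : ℝ) / addOrderOf (π q.1 - π q.2) with hρ
  set P := (A ×ˢ A).filter (fun q => Pop K (A.image π) (π q.1 - π q.2)) with hP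
  have hρ1 : ∀ q, ρ q ≤ A.card := by
    intro q
    rw [hρ, Finset.card_eq_sum_ones]
    push_cast
    refine Finset.sum_le_sum fun x _ => ?_
    rcases Nat.eq_zero_or_pos (addOrderOf (π q.1 - π q.2)) with h0 | hpos
    · rw [h0, Nat.cast_zero, div_zero]; norm_num
    · rw [div_le_one (by exact_mod_cast hpos)]
      exact_mod_cast cf_le_ord _ _ _ hpos
  have hρ2 : ∀ q, ¬ Pop K (A.image π) (π q.1 - π q.2) → ρ q ≤ A.card / (4 * K) := by
    intro q hq
    by_contra hcon
    push Not at hcon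
    have h2 : ∃ x ∈ A, 1 / (4 * K) <
        (cf (A.image π) (π x) (π q.1 - π q.2) : ℝ) / addOrderOf (π q.1 - π q.2) := by
      by_contra hcon2
      push Not at hcon2
      have h3 : ρ q ≤ ∑ x ∈ A, (1 / (4 * K)) := Finset.sum_le_sum hcon2
      rw [Finset.sum_const, nsmul_eq_mul, mul_one_div] at h3
      linarith
    obtain ⟨x, -, hx⟩ := h2
    apply hq
    have hpos : 0 < addOrderOf (π q.1 - π q.2) := by
      rcases Nat.eq_zero_or_pos (addOrderOf (π q.1 - π q.2)) with h0 | hpos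
      · rw [h0, Nat.cast_zero, div_zero] at hx
        have : (0 : ℝ) < 1 / (4 * K) := by positivity
        linarith
      · exact hpos
    refine pop_of K _ (π x) _ hpos ?_
    have hpos' : (0 : ℝ) < addOrderOf (π q.1 - π q.2) := by exact_mod_cast hpos
    rw [div_lt_div_iff₀ (by positivity) hpos'] at hx
    linarith
  have h2 : ∑ q ∈ A ×ˢ A, ρ q ≤ P.card * A.card + (A.card : ℝ) ^ 2 * (A.card / (4 * K)) := by
    rw [← Finset.sum_filter_add_sum_filter_not (A ×ˢ A)
      (fun q => Pop K (A.image π) (π q.1 - π q.2))]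
    refine add_le_add ?_ ?_
    · calc ∑ q ∈ P, ρ q ≤ ∑ q ∈ P, (A.card : ℝ) := Finset.sum_le_sum fun q _ => hρ1 q
        _ = _ := by rw [Finset.sum_const, nsmul_eq_mul]
    · calc ∑ q ∈ (A ×ˢ A).filter (fun q => ¬ Pop K (A.image π) (π q.1 - π q.2)), ρ q
          ≤ ∑ q ∈ (A ×ˢ A).filter (fun q => ¬ Pop K (A.image π) (π q.1 - π q.2)),
            ((A.card : ℝ) / (4 * K)) :=
            Finset.sum_le_sum fun q hq => hρ2 q (Finset.mem_filter.1 hq).2
        _ = (((A ×ˢ A).filter (fun q => ¬ Pop K (A.image π) (π q.1 - π q.2))).card : ℝ) *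
            (A.card / (4 * K)) := by rw [Finset.sum_const, nsmul_eq_mul]
        _ ≤ (A.card : ℝ) ^ 2 * (A.card / (4 * K)) := by
            refine mul_le_mul_of_nonneg_right ?_ (by positivity)
            have : ((A ×ˢ A).filter (fun q => ¬ Pop K (A.image π) (π q.1 - π q.2))).card ≤
                A.card ^ 2 := by
              rw [sq, ← card_product]
              exact Finset.card_le_card (Finset.filter_subset _ _)
            exact_mod_cast this
  have h3 : (A.card : ℝ) ^ 3 ≤ 2 * K * (P.card * A.card) + (A.card : ℝ) ^ 3 / 2 := by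
    have h4 := h1.trans (mul_le_mul_of_nonneg_left h2 (by positivity : (0 : ℝ) ≤ 2 * K))
    have h5 : 2 * K * ((A.card : ℝ) ^ 2 * (A.card / (4 * K))) = (A.card : ℝ) ^ 3 / 2 := by
      field_simp
      ring
    rw [mul_add, h5] at h4
    exact h4
  have h4 : (A.card : ℝ) * (A.card : ℝ) ^ 2 ≤ A.card * (4 * K * P.card) := by nlinarith [h3]
  exact le_of_mul_le_mul_left h4 hA0

/-- **A common multiple of the orders of the popular elements**, up to small factors. -/
theorem greedy (S : Finset G) (hS : S.Nonempty) (K : ℝ) (hK : 2 ≤ K)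
    (hdbl : ((S + S).card : ℝ) ≤ K ^ 3 * S.card) (c : ℕ) (hc : (S.card : ℝ) ≤ K ^ c) :
    ∃ M : ℕ, 0 < M ∧ (M : ℝ) ≤ K ^ (6 * c) ∧
      ∀ u : G, Pop K S u → (addOrderOf (M • u) : ℝ) < K ^ 11 := by
  have hK1 : (1 : ℝ) < K := by linarith
  have hK0 : (0 : ℝ) < K := by linarith
  let P : ℕ → Prop := fun k => ∃ (T : AddSubgroup G) (M : ℕ) (X : Finset G),
    0 < M ∧ K ^ (11 * k) ≤ M ∧ M ∣ Nat.card T ∧ (X.card : ℝ) ≤ K ^ (3 * k) ∧
      ∀ z ∈ T, z ∈ X + (k • S - k • S)
  have hfinT : ∀ (k : ℕ) (T : AddSubgroup G) (X : Finset G),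
      (∀ z ∈ T, z ∈ X + (k • S - k • S)) → Finite T ∧ (Nat.card T : ℝ) ≤
        X.card * (K ^ (6 * k) * S.card) := by
    intro k T X h
    have hfin : ((T : Set G)).Finite :=
      Set.Finite.subset (Finset.finite_toSet (X + (k • S - k • S))) fun z hz => h z hz
    have hfin' : Finite T := hfin.to_subtype
    refine ⟨hfin', ?_⟩
    have h1 : Nat.card T ≤ (X + (k • S - k • S)).card := by
      have h2 : Nat.card T = (T : Set G).ncard := (Nat.card_coe_set_eq _)
      rw [h2, ← Set.ncard_coe_finset]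
      exact Set.ncard_le_ncard (fun z hz => h z hz) (Finset.finite_toSet _)
    have h2 : ((k • S - k • S).card : ℝ) ≤ (K ^ 3) ^ (k + k) * S.card := plu hS hdbl k k
    calc (Nat.card T : ℝ) ≤ (X + (k • S - k • S)).card := by exact_mod_cast h1
      _ ≤ (X.card : ℝ) * (k • S - k • S).card := by exact_mod_cast Finset.card_add_le
      _ ≤ (X.card : ℝ) * ((K ^ 3) ^ (k + k) * S.card) := by gcongr
      _ = _ := by rw [← pow_mul]; congr 3; ring
  have hbound : ∀ (k : ℕ) (T : AddSubgroup G) (M : ℕ) (X : Finset G), M ∣ Nat.card T →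
      (X.card : ℝ) ≤ K ^ (3 * k) → (∀ z ∈ T, z ∈ X + (k • S - k • S)) →
      (M : ℝ) ≤ K ^ (9 * k + c) := by
    intro k T M X hM hX h
    obtain ⟨hfin, hcard⟩ := hfinT k T X h
    have h1 : (M : ℝ) ≤ Nat.card T := by exact_mod_cast Nat.le_of_dvd Nat.card_pos hM
    calc (M : ℝ) ≤ Nat.card T := h1
      _ ≤ X.card * (K ^ (6 * k) * S.card) := hcard
      _ ≤ K ^ (3 * k) * (K ^ (6 * k) * K ^ c) := by gcongr
      _ = _ := by rw [← pow_add, ← pow_add]; congr 1; ring
  have hPk : ∀ k, P k → 2 * k ≤ c := by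
    rintro k ⟨T, M, X, hM0, hM, hMT, hX, h⟩
    have h1 := hM.trans (hbound k T M X hMT hX h)
    have h2 := (pow_le_pow_iff_right₀ hK1).1 h1
    omega
  have hP0 : P 0 := by
    refine ⟨⊥, 1, {0}, one_pos, by simp, one_dvd _, by simp, ?_⟩
    intro z hz
    rw [AddSubgroup.mem_bot] at hz
    rw [hz, zero_nsmul, sub_zero, add_zero]
    simp
  obtain ⟨T, M, X, hM0, hM, hMT, hX, hcov⟩ : P (Nat.findGreatest P c) :=
    Nat.findGreatest_spec (Nat.zero_le c) hP0
  set k := Nat.findGreatest P c with hk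
  have hkc : 2 * k ≤ c := hPk k ⟨T, M, X, hM0, hM, hMT, hX, hcov⟩
  refine ⟨M, hM0, ?_, ?_⟩
  · refine (hbound k T M X hMT hX hcov).trans (pow_le_pow_right₀ hK1.le (by omega))
  · rintro u ⟨hu0, Xu, hXu, hcovu⟩
    by_contra hcon
    push Not at hcon
    -- one more step
    set T' := T ⊔ AddSubgroup.zmultiples u with hT'
    have hcov' : ∀ z ∈ T', z ∈ (X + Xu) + ((k + 1) • S - (k + 1) • S) := by
      intro z hz
      obtain ⟨x, hx, y, hy, rfl⟩ := AddSubgroup.mem_sup.1 hz
      have h1 := Finset.add_mem_add (hcov x hx) (hcovu y hy)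
      have h2 : X + (k • S - k • S) + (Xu + (S - S)) =
          (X + Xu) + ((k + 1) • S - (k + 1) • S) := by
        rw [add_add_add_comm, sub_add_sub_comm, succ_nsmul]
      rwa [h2] at h1
    have hT'fin := (hfinT (k + 1) T' (X + Xu) hcov').1
    set M' := Nat.lcm M (addOrderOf u) with hM'
    have hM'T : M' ∣ Nat.card T' := by
      refine Nat.lcm_dvd (hMT.trans (AddSubgroup.card_dvd_of_le le_sup_left)) ?_
      rw [← Nat.card_zmultiples]
      exact AddSubgroup.card_dvd_of_le le_sup_right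
    have hM'0 : 0 < M' := Nat.lcm_pos hM0 hu0
    have hM'M : M' = M * addOrderOf (M • u) := by
      rw [addOrderOf_nsmul' u hM0.ne', hM', Nat.lcm]
      rw [Nat.gcd_comm (addOrderOf u) M]
      exact Nat.mul_div_assoc _ (Nat.gcd_dvd_right _ _)
    have hX' : ((X + Xu).card : ℝ) ≤ K ^ (3 * (k + 1)) := by
      calc ((X + Xu).card : ℝ) ≤ (X.card : ℝ) * Xu.card := by exact_mod_cast Finset.card_add_le
        _ ≤ K ^ (3 * k) * (4 * K) := by gcongr
        _ ≤ K ^ (3 * k) * (K ^ 2 * K) := by gcongr; nlinarith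
        _ = _ := by ring
    have hPk1 : P (k + 1) := by
      refine ⟨T', M', X + Xu, hM'0, ?_, hM'T, hX', hcov'⟩
      rw [hM'M]
      push_cast
      calc K ^ (11 * (k + 1)) = K ^ (11 * k) * K ^ 11 := by ring
        _ ≤ _ := by gcongr
    have h3 := hPk _ hPk1
    have h4 := Nat.le_findGreatest (P := P) (n := c) (by omega : k + 1 ≤ c) hPk1
    omega

end Pool.Agent.N142.FD
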