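import Pool.Agent.N142.FD.Chain

/-!
# Finite range of dilates: the structure theorem for groups without small prime torsion
-/

set_option autoImplicit false

namespace Pool.Agent.N142.FD

open Finset
open scoped Pointwise Classical
open Pool.Agent.TH414.Dil

variable {Γ : Type*} [AddCommGroup Γ] {F : Type*} [AddCommGroup F]

/-- the part of `A` in the coset `a₀ + φ F`, translated and pulled back to `F` -/
noncomputable def sh (φ : F →+ Γ) (hφ : Function.Injective φ) (A : Finset Γ) (a₀ : Γ) :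
    Finset F :=
  (A.image (fun a => a - a₀)).preimage φ hφ.injOn

theorem mem_sh {φ : F →+ Γ} {hφ : Function.Injective φ} {A : Finset Γ} {a₀ : Γ} {x : F} :
    x ∈ sh φ hφ A a₀ ↔ φ x + a₀ ∈ A := by
  rw [sh, Finset.mem_preimage, Finset.mem_image]
  constructor
  · rintro ⟨a, ha, h⟩
    rw [← h, sub_add_cancel]; exact ha
  · intro h
    exact ⟨_, h, add_sub_cancel_right _ _⟩

theorem sh_card (φ : F →+ Γ) (hφ : Function.Injective φ) (A : Finset Γ) (a₀ : Γ) :
    (sh φ hφ A a₀).card = (fib φ.range A a₀).card := by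
  refine Finset.card_bij (fun x _ => φ x + a₀) ?_ ?_ ?_
  · intro x hx
    rw [mem_fib, add_sub_cancel_right]
    exact ⟨mem_sh.1 hx, ⟨x, rfl⟩⟩
  · intro x _ y _ h
    exact hφ (add_right_cancel h)
  · intro a ha
    rw [mem_fib] at ha
    obtain ⟨x, hx⟩ := ha.2
    refine ⟨x, ?_, ?_⟩
    · rw [mem_sh, hx, sub_add_cancel]; exact ha.1
    · rw [hx, sub_add_cancel]

theorem sh_add1 (φ : F →+ Γ) (hφ : Function.Injective φ) (A : Finset Γ) (a₀ : Γ) (n : ℕ) :
    (sh φ hφ A a₀ + nd n (sh φ hφ A a₀)).card ≤ (A + nd n A).card := by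
  refine Finset.card_le_card_of_injOn (fun x => φ x + (a₀ + n • a₀)) ?_ ?_
  · intro z hz
    obtain ⟨x, hx, y, hy, rfl⟩ := Finset.mem_add.1 (Finset.mem_coe.1 hz)
    obtain ⟨w, hw, rfl⟩ := Finset.mem_image.1 hy
    rw [mem_sh] at hx hw
    refine Finset.mem_coe.2 (Finset.mem_add.2 ⟨_, hx, _, Finset.mem_image_of_mem _ hw, ?_⟩)
    simp only
    rw [map_add, map_nsmul, nsmul_add]
    abel
  · intro x _ y _ h
    exact hφ (add_right_cancel h)

theorem sh_add2 (φ : F →+ Γ) (hφ : Function.Injective φ) (A : Finset Γ) (a₀ : Γ) (n : ℕ) :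
    (sh φ hφ A a₀ + sh φ hφ A a₀ + nd n (sh φ hφ A a₀)).card ≤ (A + A + nd n A).card := by
  refine Finset.card_le_card_of_injOn (fun x => φ x + (a₀ + a₀ + n • a₀)) ?_ ?_
  · intro z hz
    obtain ⟨x, hx, y, hy, rfl⟩ := Finset.mem_add.1 (Finset.mem_coe.1 hz)
    obtain ⟨w, hw, rfl⟩ := Finset.mem_image.1 hy
    obtain ⟨u, hu, v, hv, rfl⟩ := Finset.mem_add.1 hx
    rw [mem_sh] at hu hv hw
    refine Finset.mem_coe.2 (Finset.mem_add.2 ⟨_, Finset.add_mem_add hu hv, _,
      Finset.mem_image_of_mem _ hw, ?_⟩)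
    simp only
    rw [map_add, map_add, map_nsmul, nsmul_add]
    abel
  · intro x _ y _ h
    exact hφ (add_right_cancel h)

theorem mx_sh (φ : F →+ Γ) (hφ : Function.Injective φ) (A : Finset Γ) (a₀ : Γ)
    (V : AddSubgroup F) : mx V (sh φ hφ A a₀) ≤ mx (V.map φ) A := by
  refine Finset.sup_le fun g _ => ?_
  refine le_trans ?_ (le_mx (V.map φ) A (φ g + a₀))
  refine Finset.card_le_card_of_injOn (fun x => φ x + a₀) ?_ ?_
  · intro x hx
    have hx := mem_fib.1 (Finset.mem_coe.1 hx)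
    refine Finset.mem_coe.2 (mem_fib.2 ⟨mem_sh.1 hx.1, ?_⟩)
    rw [add_sub_add_right_eq_sub]
    exact AddSubgroup.mem_map.2 ⟨x - g, hx.2, map_sub φ x g⟩
  · intro x _ y _ h
    exact hφ (add_right_cancel h)

/-- the differences of cosets have large order -/
theorem LST_of_PF [Finite F] (p : ℕ) (V : AddSubgroup F)
    (hV : PF p V) (B : Finset F) : LST p V B := by
  intro β _ δ _ hne
  right
  have h1 : addOrderOf (β - δ) ≠ 1 := fun h => hne (AddMonoid.addOrderOf_eq_one_iff.1 h)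
  obtain ⟨r, hr, hrd⟩ := Nat.exists_prime_and_dvd h1
  have h2 : r ∣ V.index := hrd.trans (addOrderOf_dvd_natCard _)
  exact (hV r hr h2).trans (Nat.le_of_dvd (addOrderOf_pos _) hrd)

theorem inner [Finite F] (φ : F →+ Γ) (hφ : Function.Injective φ)
    (A : Finset Γ) (hA : A.Nonempty) (K : ℝ) (hK : 1 ≤ K) (b : ℕ)
    (hb : (2 * K) ^ 92 ≤ b) (hb1 : 1 ≤ b) (hb60 : K ^ 60 < b) (hd : Dl K b A) (Q : ℕ)
    (hQ : 256 * K ^ 48 < Q)
    (hΓ : ∀ p : ℕ, p.Prime → p < Q → ∀ x : Γ, p • x = 0 → x = 0)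
    (hHc : ((bar φ.range A).card : ℝ) ≤ K)
    (hmin : ∀ U : AddSubgroup Γ, Finite U → ((bar U A).card : ℝ) ≤ K →
      Nat.card F ≤ Nat.card U) :
    (Nat.card F : ℝ) ≤ 2 * K ^ 10 * A.card := by
  have hA0 : (0 : ℝ) < A.card := by exact_mod_cast hA.card_pos
  have hK0 : (0 : ℝ) < K := by linarith
  have hQ16 : K ^ 16 < Q := by
    refine lt_of_le_of_lt ?_ hQ
    have h1 : K ^ 16 ≤ K ^ 48 := pow_le_pow_right₀ hK (by norm_num)
    nlinarith [pow_pos hK0 48]
  have hbigA : ∀ j n : ℕ, n < b ^ j → ((A + nd n A).card : ℝ) ≤ K ^ (6 * j + 3) * A.card :=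
    fun j n hn => (big_dilate hA hK hb1 hd j n hn).2.trans (by
      have : K ^ (6 * j + 2) ≤ K ^ (6 * j + 3) := pow_le_pow_right₀ hK (by omega)
      gcongr)
  have hd1 := hd 1 hb1
  rw [nd_one] at hd1
  -- the largest part
  obtain ⟨a₀, ha₀, hmx⟩ := exists_mx φ.range A hA
  obtain ⟨B, hBdef⟩ : ∃ B, B = sh φ hφ A a₀ := ⟨_, rfl⟩
  have hBc : B.card = mx φ.range A := by rw [hBdef, sh_card, hmx]
  have hBne : B.Nonempty := by
    rw [← Finset.card_pos, hBc]
    exact mx_pos _ A hA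
  have hAB : (A.card : ℝ) ≤ K * B.card := by
    have h1 : (A.card : ℝ) ≤ (bar φ.range A).card * mx φ.range A := by
      exact_mod_cast card_le_bar_mul φ.range A
    rw [hBc]
    refine h1.trans ?_
    gcongr
  have hBA : (B.card : ℝ) ≤ A.card := by
    rw [hBc]; exact_mod_cast mx_le _ A
  have hB0 : (0 : ℝ) < B.card := by exact_mod_cast hBne.card_pos
  have hB1 : ∀ n : ℕ, n ≤ b → ((B + nd n B).card : ℝ) ≤ K ^ 2 * B.card := by
    intro n hn
    calc ((B + nd n B).card : ℝ) ≤ (A + nd n A).card := by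
          rw [hBdef]; exact_mod_cast sh_add1 φ hφ A a₀ n
      _ ≤ K * A.card := hd n hn
      _ ≤ K * (K * B.card) := by gcongr
      _ = _ := by ring
  have hB2 : ∀ j n : ℕ, n < b ^ j → ((B + nd n B).card : ℝ) ≤ K ^ (6 * j + 3) * B.card := by
    intro j n hn
    calc ((B + nd n B).card : ℝ) ≤ (A + nd n A).card := by
          rw [hBdef]; exact_mod_cast sh_add1 φ hφ A a₀ n
      _ ≤ K ^ (6 * j + 2) * A.card := (big_dilate hA hK hb1 hd j n hn).2
      _ ≤ K ^ (6 * j + 2) * (K * B.card) := by gcongr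
      _ = _ := by ring
  refine le_trans (chain B hBne K hK b hb ?_ ?_ ?_) (by gcongr)
  · -- the prime factors of the order
    intro p hp hpd
    have : Fact p.Prime := ⟨hp⟩
    obtain ⟨x, hx⟩ := exists_prime_addOrderOf_dvd_card' (G := F) p hpd
    have h1 : ¬ p < Q := by
      intro hlt
      have h2 : p • (φ x) = 0 := by
        have h3 : p • x = 0 := by rw [← hx]; exact addOrderOf_nsmul_eq_zero x
        rw [← map_nsmul, h3, map_zero]
      have h3 := hΓ p hp hlt _ h2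
      have h4 : x = 0 := hφ (by rw [h3, map_zero])
      rw [h4, addOrderOf_zero] at hx
      exact hp.one_lt.ne hx
    have h2 : (Q : ℝ) ≤ p := by exact_mod_cast not_lt.1 h1
    linarith
  · intro j n hn
    calc ((B + B + nd n B).card : ℝ) ≤ (A + A + nd n A).card := by
          rw [hBdef]; exact_mod_cast sh_add2 φ hφ A a₀ n
      _ ≤ K ^ (6 * j + 3) * A.card := (big_dilate hA hK hb1 hd j n hn).1
      _ ≤ K ^ (6 * j + 3) * (K * B.card) := by gcongr
      _ = _ := by ring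
  · intro V hV p hp hPF
    by_contra hcon
    push Not at hcon
    obtain ⟨t, ht⟩ : ∃ t, t = (bar V B).card := ⟨_, rfl⟩
    obtain ⟨m, hm⟩ : ∃ m, m = mx V B := ⟨_, rfl⟩
    rw [← hm] at hcon
    have h1 : (t : ℝ) * m ≤ K ^ 2 * B.card := by
      have h2 := bar_mul V B B hBne
      have h3 : ((bar V B).card : ℝ) * mx V B ≤ (B + B).card := by exact_mod_cast h2
      have h4 := hB1 1 hb1
      rw [nd_one] at h4
      rw [ht, hm]
      exact h3.trans h4
    have h2 : (t : ℝ) ^ 4 < p := by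
      have h3 : (m : ℝ) ^ 4 * (t : ℝ) ^ 4 < (m : ℝ) ^ 4 * p := by
        calc (m : ℝ) ^ 4 * (t : ℝ) ^ 4 = ((t : ℝ) * m) ^ 4 := by ring
          _ ≤ (K ^ 2 * B.card) ^ 4 := pow_le_pow_left₀ (by positivity) h1 4
          _ = K ^ 8 * (B.card : ℝ) ^ 4 := by ring
          _ < _ := hcon
      exact lt_of_mul_lt_mul_left h3 (by positivity)
    have h2' : (bar V B).card ^ 4 < p := by rw [← ht]; exact_mod_cast h2
    have h3 : (t : ℝ) ≤ K ^ 2 := by
      rw [ht]
      exact rigid V B hBne hK hb60 2 hB1 hB2 p (LST_of_PF p V hPF B) h2'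
    -- the corresponding subgroup of the ambient group
    set V' := V.map φ with hV'
    have hV'card' : Nat.card V' = Nat.card V := AddSubgroup.card_map_of_injective hφ
    have hV'fin : Finite V' := by
      refine Nat.finite_of_card_ne_zero ?_
      rw [hV'card']
      exact Nat.card_pos.ne'
    have hV'card : Nat.card V' < Nat.card F := by
      rw [hV'card']
      have hlt : (V : Set F) ⊂ (Set.univ : Set F) := by
        rw [Set.ssubset_univ_iff]
        intro h
        apply hV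
        exact SetLike.coe_injective h
      have := Set.ncard_lt_ncard hlt (Set.toFinite _)
      rw [← Nat.card_coe_set_eq, ← Nat.card_coe_set_eq, Nat.card_univ] at this
      exact this
    have h4 : (A.card : ℝ) ≤ K ^ 3 * mx V' A := by
      have h5 : (m : ℝ) ≤ mx V' A := by
        rw [hm, hBdef]; exact_mod_cast mx_sh φ hφ A a₀ V
      have h6 : (B.card : ℝ) ≤ t * m := by
        rw [ht, hm]; exact_mod_cast card_le_bar_mul V B
      calc (A.card : ℝ) ≤ K * B.card := hAB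
        _ ≤ K * (t * m) := by gcongr
        _ ≤ K * (K ^ 2 * mx V' A) := by gcongr
        _ = _ := by ring
    have h5 : ((bar V' A).card : ℝ) * mx V' A ≤ K * A.card := by
      have h6 : ((bar V' A).card : ℝ) * mx V' A ≤ (A + A).card := by
        exact_mod_cast bar_mul V' A A hA
      exact h6.trans hd1
    have h6 : ((bar V' A).card : ℝ) ≤ K ^ 4 := by
      have h7 : (A.card : ℝ) * (bar V' A).card ≤ A.card * K ^ 4 := by
        calc (A.card : ℝ) * (bar V' A).card ≤ (K ^ 3 * mx V' A) * (bar V' A).card := by gcongr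
          _ = K ^ 3 * ((bar V' A).card * mx V' A) := by ring
          _ ≤ K ^ 3 * (K * A.card) := by gcongr
          _ = _ := by ring
      exact le_of_mul_le_mul_left h7 hA0
    have h7 : (bar V' A).card ^ 4 < Q := by
      have h8 : ((bar V' A).card : ℝ) ^ 4 < Q := by
        calc ((bar V' A).card : ℝ) ^ 4 ≤ (K ^ 4) ^ 4 :=
              pow_le_pow_left₀ (Nat.cast_nonneg _) h6 4
          _ = K ^ 16 := by ring
          _ < _ := hQ16
      exact_mod_cast h8
    have h8 : ((bar V' A).card : ℝ) ≤ K := by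
      have h9 := rigid V' A hA hK hb60 1 (fun n hn => by rw [pow_one]; exact hd n hn) hbigA Q
        (LST_of_prime Q hΓ V' A) h7
      rwa [pow_one] at h9
    have h9 := hmin V' hV'fin h8
    omega

theorem b_facts {K : ℝ} (hK : 1 ≤ K) {b : ℕ} (hb : (2 * K) ^ 92 ≤ b) :
    1 ≤ b ∧ K ^ 60 < b := by
  have hK0 : (0 : ℝ) < K := by linarith
  have hb60 : K ^ 60 < b := by
    refine lt_of_lt_of_le ?_ hb
    rw [mul_pow]
    have h1 : K ^ 60 ≤ K ^ 92 := pow_le_pow_right₀ hK (by norm_num)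
    have h2 : (0 : ℝ) < K ^ 92 := by positivity
    nlinarith
  refine ⟨?_, hb60⟩
  have h1 : (1 : ℝ) ≤ K ^ 60 := one_le_pow₀ hK
  have h2 : (1 : ℝ) < b := lt_of_le_of_lt h1 hb60
  have h3 : 1 < b := by exact_mod_cast h2
  exact h3.le

/-- **Structure theorem**, groups without elements of small prime order. -/
theorem structure_fin (A : Finset Γ) (hA : A.Nonempty) (K : ℝ) (hK : 1 ≤ K) (b : ℕ)
    (hb : (2 * K) ^ 92 ≤ b) (hd : Dl K b A) (Q : ℕ) (hQ : 256 * K ^ 48 < Q)
    (hΓ : ∀ p : ℕ, p.Prime → p < Q → ∀ x : Γ, p • x = 0 → x = 0) :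
    ∃ H : AddSubgroup Γ, Finite H ∧ ((bar H A).card : ℝ) ≤ K ∧
      (Nat.card H : ℝ) ≤ 2 * K ^ 10 * A.card := by
  obtain ⟨hb1, hb60⟩ := b_facts hK hb
  -- a subgroup of minimal order
  let P : ℕ → Prop := fun k => ∃ U : AddSubgroup Γ, Finite U ∧ ((bar U A).card : ℝ) ≤ K ∧
    Nat.card U = k
  have hP : ∃ k, P k := by
    obtain ⟨U, hU, h⟩ := few_cosets_fin A hA hK hb60 hd
    exact ⟨_, U, hU, h, rfl⟩
  obtain ⟨H, hHfin, hHc, hHk⟩ := Nat.find_spec hP
  have hmin : ∀ U : AddSubgroup Γ, Finite U → ((bar U A).card : ℝ) ≤ K →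
      Nat.card H ≤ Nat.card U := by
    intro U hU h
    rw [hHk]
    exact Nat.find_min' hP ⟨U, hU, h, rfl⟩
  refine ⟨H, hHfin, hHc, ?_⟩
  exact inner H.subtype Subtype.val_injective A hA K hK b hb hb1 hb60 hd Q hQ hΓ
    (by rw [AddSubgroup.range_subtype]; exact hHc) hmin

end Pool.Agent.N142.FD
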