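import Pool.Agent.N142.FD.Main

/-!
# Finite range of dilates: popular differences have small order modulo a subgroup
-/

set_option autoImplicit false

namespace Pool.Agent.N142.FD

open Finset
open scoped Pointwise Classical
open Pool.Agent.TH414.Dil

variable {Γ : Type*} [AddCommGroup Γ] {G : Type*} [AddCommGroup G]

/-- multipliers sending `u` to `w` -/
theorem count1 (u w : G) (b : ℕ) :
    (((Finset.Icc 1 b).filter (fun n => n • u = w)).card : ℝ) ≤ b / addOrderOf u + 1 := by
  rcases Nat.eq_zero_or_pos (addOrderOf u) with h0 | hpos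
  · rw [h0, Nat.cast_zero, div_zero, zero_add]
    have h1 : ((Finset.Icc 1 b).filter (fun n => n • u = w)).card ≤ 1 := by
      rw [Finset.card_le_one]
      intro x hx y hy
      simp only [mem_filter] at hx hy
      have hinj := injective_nsmul_iff_not_isOfFinAddOrder.2 (addOrderOf_eq_zero_iff.1 h0)
      exact hinj (by simp only [hx.2, hy.2])
    exact_mod_cast h1
  · have h1 : ((Finset.Icc 1 b).filter (fun n => n • u = w)).card ≤
        (range (b / addOrderOf u + 1)).card := by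
      refine Finset.card_le_card_of_injOn (fun n => n / addOrderOf u) ?_ ?_
      · intro n hn
        simp only [coe_filter, mem_Icc, Set.mem_ofPred_eq] at hn
        simp only [coe_range, Set.mem_Iio]
        exact Nat.lt_succ_of_le (Nat.div_le_div_right hn.1.2)
      · intro x hx y hy hxy
        simp only [coe_filter, mem_Icc, Set.mem_ofPred_eq] at hx hy
        simp only at hxy
        have hmod : x ≡ y [MOD addOrderOf u] := nsmul_eq_nsmul_iff_modEq.1 (hx.2.trans hy.2.symm)
        have e1 := Nat.div_add_mod x (addOrderOf u)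
        have e2 := Nat.div_add_mod y (addOrderOf u)
        have e3 : x % addOrderOf u = y % addOrderOf u := hmod
        rw [← e1, ← e2, hxy, e3]
    rw [card_range] at h1
    have h2 : (((Finset.Icc 1 b).filter (fun n => n • u = w)).card : ℝ) ≤
        ((b / addOrderOf u : ℕ) : ℝ) + 1 := by exact_mod_cast h1
    refine h2.trans ?_
    have := @Nat.cast_div_le ℝ _ _ _ b (addOrderOf u)
    linarith

/-- the part of `S` in a coset of the cyclic group generated by `u` -/
noncomputable def cf (S : Finset G) (x u : G) : ℕ :=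
  (S.filter (fun v => v - x ∈ AddSubgroup.zmultiples u)).card

theorem count2 (S : Finset G) (x u : G) (b : ℕ) :
    (((Finset.Icc 1 b).filter (fun n => x + n • u ∈ S)).card : ℝ) ≤
      cf S x u * (b / addOrderOf u + 1) := by
  have h1 : ((Finset.Icc 1 b).filter (fun n => x + n • u ∈ S)).card =
      ∑ v ∈ S.filter (fun v => v - x ∈ AddSubgroup.zmultiples u),
        (((Finset.Icc 1 b).filter (fun n => x + n • u ∈ S)).filter
          (fun n => x + n • u = v)).card := by
    refine Finset.card_eq_sum_card_fiberwise ?_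
    intro n hn
    simp only [coe_filter, Set.mem_ofPred_eq] at hn ⊢
    refine ⟨hn.2, ?_⟩
    rw [add_sub_cancel_left]
    exact AddSubgroup.nsmul_mem _ (AddSubgroup.mem_zmultiples u) n
  rw [h1, cf]
  push_cast
  rw [Finset.card_eq_sum_ones, Nat.cast_sum, Finset.sum_mul]
  refine Finset.sum_le_sum fun v _ => ?_
  rw [Nat.cast_one, one_mul]
  refine le_trans ?_ (count1 u (v - x) b)
  refine Nat.cast_le.2 (Finset.card_le_card ?_)
  intro n hn
  rw [mem_filter, mem_filter] at hn
  rw [mem_filter]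
  refine ⟨hn.1.1, ?_⟩
  rw [← hn.2, add_sub_cancel_left]

theorem cf_le (S : Finset G) (x u : G) : cf S x u ≤ S.card :=
  Finset.card_le_card (Finset.filter_subset _ _)

theorem cf_le_ord (S : Finset G) (x u : G) (hu : 0 < addOrderOf u) :
    cf S x u ≤ addOrderOf u := by
  have hfin : Finite (AddSubgroup.zmultiples u) := by
    refine Nat.finite_of_card_ne_zero ?_
    rw [Nat.card_zmultiples]
    omega
  rw [← Nat.card_zmultiples, cf]
  have : Fintype (AddSubgroup.zmultiples u) := Fintype.ofFinite _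
  rw [Nat.card_eq_fintype_card, ← Finset.card_univ]
  refine Finset.card_le_card_of_injOn
    (fun v => if h : v - x ∈ AddSubgroup.zmultiples u then ⟨v - x, h⟩ else 0) ?_ ?_
  · intro v _
    exact Finset.mem_coe.2 (Finset.mem_univ _)
  · intro v hv w hw h
    simp only [coe_filter, Set.mem_ofPred_eq] at hv hw
    simp only [hv.2, hw.2, dif_pos, Subtype.mk.injEq] at h
    exact sub_left_injective h

/-- the averaged count -/
theorem avg_count (π : Γ →+ G) (A : Finset Γ) (hA : A.Nonempty) {K : ℝ} (hK : 1 ≤ K) {b : ℕ}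
    (hd : Dl K b A) (hb : 2 * K * (A.image π).card ≤ b) (hb0 : 0 < b) :
    (A.card : ℝ) ^ 3 ≤ 2 * K * ∑ q ∈ A ×ˢ A, ∑ x ∈ A,
      (cf (A.image π) (π x) (π q.1 - π q.2) : ℝ) / addOrderOf (π q.1 - π q.2) := by
  have hA0 : (0 : ℝ) < A.card := by exact_mod_cast hA.card_pos
  have hK0 : (0 : ℝ) < K := by linarith
  have hb0' : (0 : ℝ) < b := by exact_mod_cast hb0
  -- one multiplier
  have h1 : ∀ n ∈ Finset.Icc 1 b, (A.card : ℝ) ^ 3 ≤
      K * (((A ×ˢ A) ×ˢ A).filter
        (fun t => π t.2 + n • (π t.1.1 - π t.1.2) ∈ A.image π)).card := by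
    intro n hn
    have h2 := coincidences (A ×ˢ A) (A + nd n A) (fun p => p.1 + n • p.2) (by
      rintro ⟨a, c⟩ hp
      rw [mem_product] at hp
      exact Finset.add_mem_add hp.1 (Finset.mem_image_of_mem _ hp.2))
    rw [card_product] at h2
    have h3 : (((A ×ˢ A) ×ˢ (A ×ˢ A)).filter
        (fun p => p.1.1 + n • p.1.2 = p.2.1 + n • p.2.2)).card ≤
        (((A ×ˢ A) ×ˢ A).filter
          (fun t => π t.2 + n • (π t.1.1 - π t.1.2) ∈ A.image π)).card := by
      refine Finset.card_le_card_of_injOn (fun p => ((p.1.2, p.2.2), p.1.1)) ?_ ?_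
      · rintro ⟨⟨x, y⟩, ⟨x', y'⟩⟩ hp
        simp only [coe_filter, mem_product, Set.mem_ofPred_eq] at hp ⊢
        obtain ⟨⟨⟨hx, hy⟩, hx', hy'⟩, he⟩ := hp
        refine ⟨⟨⟨hy, hy'⟩, hx⟩, ?_⟩
        have : π x + n • (π y - π y') = π x' := by
          rw [← map_sub, ← map_nsmul, ← map_add]
          congr 1
          rw [nsmul_sub, ← add_sub_assoc, he]
          abel
        rw [this]
        exact Finset.mem_image_of_mem _ hx'
      · rintro ⟨⟨x, y⟩, ⟨x', y'⟩⟩ hp ⟨⟨z, w⟩, ⟨z', w'⟩⟩ hq heq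
        simp only [coe_filter, mem_product, Set.mem_ofPred_eq] at hp hq
        simp only [Prod.mk.injEq] at heq ⊢
        obtain ⟨⟨rfl, rfl⟩, rfl⟩ := heq
        refine ⟨⟨rfl, rfl⟩, ?_, rfl⟩
        exact add_right_cancel (hp.2.symm.trans hq.2)
    have h4 : ((A.card : ℝ)) ^ 4 ≤ (A + nd n A).card * ((((A ×ˢ A) ×ˢ A).filter
          (fun t => π t.2 + n • (π t.1.1 - π t.1.2) ∈ A.image π)).card : ℝ) := by
      have : A.card ^ 4 ≤ (A + nd n A).card * (((A ×ˢ A) ×ˢ A).filter
          (fun t => π t.2 + n • (π t.1.1 - π t.1.2) ∈ A.image π)).card := by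
        calc A.card ^ 4 = (A.card * A.card) ^ 2 := by ring
          _ ≤ _ := h2
          _ ≤ _ := Nat.mul_le_mul_left _ h3
      exact_mod_cast this
    have h5 := hd n (Finset.mem_Icc.1 hn).2
    have h6 : (A.card : ℝ) * (A.card : ℝ) ^ 3 ≤ A.card * (K * ((((A ×ˢ A) ×ˢ A).filter
          (fun t => π t.2 + n • (π t.1.1 - π t.1.2) ∈ A.image π)).card : ℝ)) := by
      calc (A.card : ℝ) * (A.card : ℝ) ^ 3 = (A.card : ℝ) ^ 4 := by ring
        _ ≤ _ := h4
        _ ≤ (K * A.card) * _ := mul_le_mul_of_nonneg_right h5 (Nat.cast_nonneg _)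
        _ = _ := by ring
    exact le_of_mul_le_mul_left h6 hA0
  -- sum over the multipliers
  have h2 : (b : ℝ) * (A.card : ℝ) ^ 3 ≤ K * ∑ t ∈ (A ×ˢ A) ×ˢ A,
      (((Finset.Icc 1 b).filter
        (fun n => π t.2 + n • (π t.1.1 - π t.1.2) ∈ A.image π)).card : ℝ) := by
    have h3 : ∑ t ∈ (A ×ˢ A) ×ˢ A, (((Finset.Icc 1 b).filter
        (fun n => π t.2 + n • (π t.1.1 - π t.1.2) ∈ A.image π)).card : ℝ) =
        ∑ n ∈ Finset.Icc 1 b, ((((A ×ˢ A) ×ˢ A).filter
          (fun t => π t.2 + n • (π t.1.1 - π t.1.2) ∈ A.image π)).card : ℝ) := by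
      simp only [Finset.card_filter]
      push_cast
      rw [Finset.sum_comm]
    rw [h3, Finset.mul_sum]
    calc (b : ℝ) * (A.card : ℝ) ^ 3 = ∑ n ∈ Finset.Icc 1 b, (A.card : ℝ) ^ 3 := by
          rw [Finset.sum_const, Nat.card_Icc, nsmul_eq_mul]
          simp
      _ ≤ _ := Finset.sum_le_sum h1
  set t : ℝ := ((A.image π).card : ℝ) with ht
  have h3 : ∑ s ∈ (A ×ˢ A) ×ˢ A, (((Finset.Icc 1 b).filter
        (fun n => π s.2 + n • (π s.1.1 - π s.1.2) ∈ A.image π)).card : ℝ) ≤
      b * (∑ q ∈ A ×ˢ A, ∑ x ∈ A,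
      (cf (A.image π) (π x) (π q.1 - π q.2) : ℝ) / addOrderOf (π q.1 - π q.2)) +
      t * (A.card : ℝ) ^ 3 := by
    have h4 : ∀ s ∈ (A ×ˢ A) ×ˢ A, (((Finset.Icc 1 b).filter
        (fun n => π s.2 + n • (π s.1.1 - π s.1.2) ∈ A.image π)).card : ℝ) ≤
        b * ((cf (A.image π) (π s.2) (π s.1.1 - π s.1.2) : ℝ) /
          addOrderOf (π s.1.1 - π s.1.2)) + t := by
      intro s _
      refine (count2 (A.image π) (π s.2) (π s.1.1 - π s.1.2) b).trans ?_
      have h5 : (cf (A.image π) (π s.2) (π s.1.1 - π s.1.2) : ℝ) ≤ t := by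
        rw [ht]; exact_mod_cast cf_le _ _ _
      have h6 : (cf (A.image π) (π s.2) (π s.1.1 - π s.1.2) : ℝ) *
          (b / addOrderOf (π s.1.1 - π s.1.2) + 1) =
          b * ((cf (A.image π) (π s.2) (π s.1.1 - π s.1.2) : ℝ) /
          addOrderOf (π s.1.1 - π s.1.2)) + cf (A.image π) (π s.2) (π s.1.1 - π s.1.2) := by
        ring
      rw [h6]
      linarith
    refine (Finset.sum_le_sum h4).trans (le_of_eq ?_)
    rw [Finset.sum_add_distrib, ← Finset.mul_sum, Finset.sum_product, Finset.sum_const,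
      card_product, card_product, nsmul_eq_mul]
    push_cast
    ring
  have h4 : K * (t * (A.card : ℝ) ^ 3) ≤ b * (A.card : ℝ) ^ 3 / 2 := by
    have : 2 * K * t * (A.card : ℝ) ^ 3 ≤ b * (A.card : ℝ) ^ 3 :=
      mul_le_mul_of_nonneg_right hb (by positivity)
    linarith
  have h5 := h2.trans (mul_le_mul_of_nonneg_left h3 hK0.le)
  have h6 : (b : ℝ) * (A.card : ℝ) ^ 3 ≤ b * (2 * K * (∑ q ∈ A ×ˢ A, ∑ x ∈ A,
      (cf (A.image π) (π x) (π q.1 - π q.2) : ℝ) / addOrderOf (π q.1 - π q.2))) := by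
    rw [mul_add] at h5
    linarith
  exact le_of_mul_le_mul_left h6 hb0'

end Pool.Agent.N142.FD
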