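import Pool.Agent.N142.FD.Greedy
import Pool.Agent.TH414.UD.Gen

/-!
# Finite range of dilates: resetting the number of cosets
-/

set_option autoImplicit false

namespace Pool.Agent.N142.FD

open Finset
open scoped Pointwise Classical
open Pool.Agent.TH414.Dil

variable {Γ : Type*} [AddCommGroup Γ] {G : Type*} [AddCommGroup G]

/-- the number of cosets of the kernel -/
theorem card_im (π : Γ →+ G) (A : Finset Γ) : (A.image π).card = (bar π.ker A).card := by
  symm
  refine Finset.card_bij (fun y _ => QuotientAddGroup.kerLift π y) ?_ ?_ ?_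
  · intro y hy
    obtain ⟨a, ha, rfl⟩ := exists_rep hy
    exact Finset.mem_image_of_mem _ ha
  · intro y _ z _ h
    exact QuotientAddGroup.kerLift_injective π h
  · intro w hw
    obtain ⟨a, ha, rfl⟩ := Finset.mem_image.1 hw
    exact ⟨_, mem_bar ha, rfl⟩

theorem im_le_of_bar (π : Γ →+ G) (H : AddSubgroup Γ) (hk : π.ker = H) (A : Finset Γ) (x : ℝ)
    (h : ((bar H A).card : ℝ) ≤ x) : ((A.image π).card : ℝ) ≤ x := by
  rw [card_im, hk]; exact h

theorem im_mul (π : Γ →+ G) (B S : Finset Γ) (hB : B.Nonempty) :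
    (S.image π).card * mx π.ker B ≤ (S + B).card := by
  rw [card_im]; exact bar_mul _ B S hB

theorem card_le_im_mul (π : Γ →+ G) (B : Finset Γ) :
    B.card ≤ (B.image π).card * mx π.ker B := by
  rw [card_im]; exact card_le_bar_mul _ B

theorem im_add_nd (π : Γ →+ G) (A : Finset Γ) (n : ℕ) :
    A.image π + nd n (A.image π) = (A + nd n A).image π := by
  have h1 : nd n (A.image π) = (nd n A).image π := by
    ext w
    simp only [nd, mem_image]
    constructor
    · rintro ⟨_, ⟨a, ha, rfl⟩, rfl⟩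
      exact ⟨n • a, ⟨a, ha, rfl⟩, map_nsmul π n a⟩
    · rintro ⟨_, ⟨a, ha, rfl⟩, rfl⟩
      exact ⟨π a, ⟨a, ha, rfl⟩, (map_nsmul π n a).symm⟩
  rw [h1]
  exact (Finset.image_add π).symm

/-- dilates modulo the kernel -/
theorem im_dil (π : Γ →+ G) (A : Finset Γ) (hA : A.Nonempty) (κ : ℝ) (n : ℕ)
    (h : ((A + A + nd n A).card : ℝ) ≤ κ * A.card) :
    (((A.image π) + nd n (A.image π)).card : ℝ) ≤ κ * (A.image π).card := by
  have h1 := im_mul π A (A + nd n A) hA
  have h2 : A + nd n A + A = A + A + nd n A := by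
    rw [add_assoc, add_comm (nd n A) A, ← add_assoc]
  rw [h2, ← im_add_nd] at h1
  have h3 := card_le_im_mul π A
  have hm : 0 < mx π.ker A := mx_pos _ A hA
  have hm' : (0 : ℝ) < mx π.ker A := by exact_mod_cast hm
  have hκ : 0 ≤ κ := by
    by_contra hneg
    push Not at hneg
    have hA0 : (0 : ℝ) < A.card := by exact_mod_cast hA.card_pos
    have : (0 : ℝ) ≤ (A + A + nd n A).card := Nat.cast_nonneg _
    nlinarith
  have h4 : (((A.image π) + nd n (A.image π)).card : ℝ) * mx π.ker A ≤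
      (κ * (A.image π).card) * mx π.ker A := by
    calc (((A.image π) + nd n (A.image π)).card : ℝ) * mx π.ker A ≤ (A + A + nd n A).card := by
          exact_mod_cast h1
      _ ≤ κ * A.card := h
      _ ≤ κ * ((A.image π).card * mx π.ker A) := by
          refine mul_le_mul_of_nonneg_left ?_ hκ
          exact_mod_cast h3
      _ = _ := by ring
  exact le_of_mul_le_mul_right h4 hm'

/-- a large part of `A` whose differences are killed by a small number modulo the kernel -/
theorem exists_part (π : Γ →+ G) (A : Finset Γ) (hA : A.Nonempty) {K : ℝ} (hK : 2 ≤ K) {b : ℕ}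
    (hd : Dl K b A) (c : ℕ) (ht : ((A.image π).card : ℝ) ≤ K ^ c) (hb : K ^ (6 * c + 11) ≤ b) :
    ∃ (M : ℕ) (y₀ : Γ) (A' : Finset Γ), 0 < M ∧ (M : ℝ) ≤ K ^ (6 * c + 11) ∧ A' ⊆ A ∧
      (A.card : ℝ) ≤ K ^ 14 * A'.card ∧ ∀ a ∈ A', M • (π a - π y₀) = 0 := by
  have hK1 : (1 : ℝ) < K := by linarith
  have hK0 : (0 : ℝ) < K := by linarith
  have hA0 : (0 : ℝ) < A.card := by exact_mod_cast hA.card_pos
  have hb0 : (0 : ℝ) < b := lt_of_lt_of_le (by positivity) hb
  have hb0' : 0 < b := by exact_mod_cast hb0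
  have h1 := hd 1 hb0'
  rw [nd_one] at h1
  -- doubling of the image
  have hdbl : (((A.image π) + (A.image π)).card : ℝ) ≤ K ^ 3 * (A.image π).card := by
    have h2 := plu hA h1 3 0
    rw [zero_nsmul, sub_zero] at h2
    have h3 : ((A + A + nd 1 A).card : ℝ) ≤ K ^ 3 * A.card := by
      rw [nd_one]
      have : A + A + A = 3 • A := by
        rw [succ_nsmul, two_nsmul]
      rw [this]
      exact h2
    have h4 := im_dil π A hA (K ^ 3) 1 h3
    rwa [nd_one] at h4
  obtain ⟨M, hM0, hM, hMpop⟩ := greedy (A.image π) (hA.image _) K hK hdbl c ht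
  have hpp := pop_pairs π A hA hK1.le hd (by
    calc 2 * K * ((A.image π).card : ℝ) ≤ K * K * K ^ c := by gcongr
      _ = K ^ (c + 2) := by ring
      _ ≤ K ^ (6 * c + 11) := pow_le_pow_right₀ hK1.le (by omega)
      _ ≤ b := hb) hb0'
  set P := (A ×ˢ A).filter (fun q => Pop K (A.image π) (π q.1 - π q.2)) with hP
  set D : ℕ := ⌈K ^ 11⌉₊ with hD
  have hDle : ((D - 1 : ℕ) : ℝ) ≤ K ^ 11 := by
    have h2 : (D : ℝ) < K ^ 11 + 1 := Nat.ceil_lt_add_one (by positivity)
    have h3 : 1 ≤ D := Nat.one_le_iff_ne_zero.2 (by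
      rw [hD, Ne, Nat.ceil_eq_zero]
      push Not
      positivity)
    rw [Nat.cast_sub h3]
    push_cast
    linarith
  have hord : ∀ q ∈ P, 0 < addOrderOf (M • (π q.1 - π q.2)) ∧
      addOrderOf (M • (π q.1 - π q.2)) < D := by
    intro q hq
    have h2 := (Finset.mem_filter.1 hq).2
    refine ⟨?_, ?_⟩
    · have h3 : IsOfFinAddOrder (π q.1 - π q.2) := addOrderOf_pos_iff.1 h2.1
      exact addOrderOf_pos_iff.2 (h3.nsmul)
    · have h3 := hMpop _ h2
      have h4 : K ^ 11 ≤ (D : ℝ) := Nat.le_ceil _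
      exact_mod_cast h3.trans_le h4
  obtain ⟨⟨d, y₀⟩, hdy, hfib⟩ := Finset.exists_le_card_fiber_of_nsmul_le_card_of_maps_to
    (s := P) (t := (Finset.Ico 1 D) ×ˢ A)
    (f := fun q => (addOrderOf (M • (π q.1 - π q.2)), q.2)) (b := (A.card : ℝ) / K ^ 14)
    (by
      intro q hq
      obtain ⟨h2, h3⟩ := hord q hq
      rw [mem_product]
      exact ⟨Finset.mem_Ico.2 ⟨h2, h3⟩, (Finset.mem_product.1 (Finset.mem_filter.1 hq).1).2⟩)
    (by
      have hPne : P.Nonempty := by
        rw [← Finset.card_pos]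
        by_contra hcon
        have h0 : P.card = 0 := by omega
        rw [h0, Nat.cast_zero, mul_zero] at hpp
        nlinarith [pow_pos hA0 2]
      obtain ⟨q, hq⟩ := hPne
      obtain ⟨h2, h3⟩ := hord q hq
      exact ⟨(addOrderOf (M • (π q.1 - π q.2)), q.2), mem_product.2
        ⟨Finset.mem_Ico.2 ⟨h2, h3⟩, (Finset.mem_product.1 (Finset.mem_filter.1 hq).1).2⟩⟩)
    (by
      rw [nsmul_eq_mul, card_product, Nat.card_Ico]
      push_cast
      have h2 : (((D - 1 : ℕ) : ℝ) * A.card) * (A.card / K ^ 14) ≤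
          (K ^ 11 * A.card) * (A.card / K ^ 14) := by gcongr
      have h3 : (K ^ 11 * A.card) * ((A.card : ℝ) / K ^ 14) = (A.card : ℝ) ^ 2 / K ^ 3 := by
        field_simp
      have h4 : (A.card : ℝ) ^ 2 / K ^ 3 ≤ P.card := by
        rw [div_le_iff₀ (by positivity)]
        calc (A.card : ℝ) ^ 2 ≤ 4 * K * P.card := hpp
          _ ≤ (K * K) * K * P.card := by gcongr; nlinarith
          _ = _ := by ring
      linarith)
  rw [mem_product, Finset.mem_Ico] at hdy
  obtain ⟨⟨hd1, hdD⟩, hy₀⟩ := hdy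
  set A' := (P.filter (fun q => (addOrderOf (M • (π q.1 - π q.2)), q.2) = (d, y₀))).image
    Prod.fst with hA'
  refine ⟨M * d, y₀, A', Nat.mul_pos hM0 hd1, ?_, ?_, ?_, ?_⟩
  · have h2 : (d : ℝ) ≤ K ^ 11 := by
      have h3 : d ≤ D - 1 := by omega
      have h4 : (d : ℝ) ≤ ((D - 1 : ℕ) : ℝ) := by exact_mod_cast h3
      exact h4.trans hDle
    push_cast
    calc (M : ℝ) * d ≤ K ^ (6 * c) * K ^ 11 := by gcongr
      _ = _ := by rw [← pow_add]
  · intro a ha
    obtain ⟨q, hq, rfl⟩ := Finset.mem_image.1 ha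
    exact (Finset.mem_product.1 (Finset.mem_filter.1 (Finset.mem_filter.1 hq).1).1).1
  · have h2 : A'.card = (P.filter
        (fun q => (addOrderOf (M • (π q.1 - π q.2)), q.2) = (d, y₀))).card := by
      rw [hA']
      refine Finset.card_image_of_injOn ?_
      rintro ⟨x, y⟩ hx ⟨x', y'⟩ hx' h
      simp only [coe_filter, Set.mem_ofPred_eq, Prod.mk.injEq] at hx hx' h ⊢
      exact ⟨h, hx.2.2.trans hx'.2.2.symm⟩
    rw [h2]
    rw [div_le_iff₀ (by positivity)] at hfib
    linarith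
  · intro a ha
    obtain ⟨⟨x, y⟩, hq, rfl⟩ := Finset.mem_image.1 ha
    have h2 := (Finset.mem_filter.1 hq).2
    simp only [Prod.mk.injEq] at h2
    obtain ⟨h3, rfl⟩ := h2
    simp only
    rw [mul_nsmul, ← h3]
    exact addOrderOf_nsmul_eq_zero _

/-- periodicity of the dilates of a set killed by `M`, up to translation -/
theorem all_dil (S : Finset G) (κ : ℝ) (M : ℕ) (hM : 0 < M) (s₀ : G)
    (hS : ∀ s ∈ S, M • (s - s₀) = 0)
    (h : ∀ n : ℕ, n < M → ((S + nd n S).card : ℝ) ≤ κ * S.card) (n : ℕ) :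
    ((S + nd n S).card : ℝ) ≤ κ * S.card := by
  refine le_trans ?_ (h (n % M) (Nat.mod_lt _ hM))
  have h1 : S + nd n S ⊆ (S + nd (n % M) S).image (fun z => (n • s₀ - (n % M) • s₀) + z) := by
    intro z hz
    obtain ⟨x, hx, y, hy, rfl⟩ := Finset.mem_add.1 hz
    obtain ⟨s, hs, rfl⟩ := Finset.mem_image.1 hy
    rw [mem_image]
    refine ⟨x + (n % M) • s, Finset.add_mem_add hx (Finset.mem_image_of_mem _ hs), ?_⟩
    have h2 : n • (s - s₀) = (n % M) • (s - s₀) := by
      conv_lhs => rw [← Nat.div_add_mod n M]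
      rw [add_nsmul, mul_nsmul, hS s hs, nsmul_zero, zero_add]
    rw [nsmul_sub, nsmul_sub] at h2
    have h3 : n • s = (n % M) • s - (n % M) • s₀ + n • s₀ := by
      rw [← h2]; abel
    rw [h3]
    abel
  exact_mod_cast (Finset.card_le_card h1).trans Finset.card_image_le

/-- covering by cosets bounds the number of cosets -/
theorem bar_le_of_cover (V : AddSubgroup Γ) (S : Finset Γ) (X : Finset G)
    (r : Γ → G → Prop) (h : ∀ a ∈ S, ∃ x ∈ X, r a x)
    (hr : ∀ a ∈ S, ∀ a' ∈ S, ∀ x, r a x → r a' x → a - a' ∈ V) :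
    (bar V S).card ≤ X.card := by
  have hs : ∀ y : Γ ⧸ V, ∃ x : G, y ∈ bar V S → x ∈ X ∧ ∃ a ∈ S, (a : Γ ⧸ V) = y ∧ r a x := by
    intro y
    by_cases hy : y ∈ bar V S
    · obtain ⟨a, ha, hay⟩ := exists_rep hy
      obtain ⟨x, hx, hrx⟩ := h a ha
      exact ⟨x, fun _ => ⟨hx, a, ha, hay, hrx⟩⟩
    · exact ⟨0, fun h => absurd h hy⟩
  choose g hg using hs
  refine Finset.card_le_card_of_injOn g ?_ ?_
  · intro y hy
    exact (hg y hy).1
  · intro y hy z hz hyz
    obtain ⟨-, a, ha, hay, hra⟩ := hg y hy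
    obtain ⟨-, a', ha', haz, hra'⟩ := hg z hz
    rw [← hyz] at hra'
    have := hr a ha a' ha' _ hra hra'
    rw [← hay, ← haz, ← sub_eq_zero, ← QuotientAddGroup.mk_sub]
    exact (QuotientAddGroup.eq_zero_iff _).2 this

/-- the order of a preimage -/
theorem card_comap_le (π : Γ →+ G) (V : AddSubgroup G) [Finite V] [Finite π.ker] :
    Finite (V.comap π) ∧ Nat.card (V.comap π) ≤ Nat.card V * Nat.card π.ker := by
  have hs : ∀ w : G, ∃ a : Γ, (∃ x, π x = w) → π a = w := by
    intro w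
    by_cases h : ∃ x, π x = w
    · obtain ⟨x, hx⟩ := h
      exact ⟨x, fun _ => hx⟩
    · exact ⟨0, fun h' => absurd h' h⟩
  choose s hs using hs
  let f : V.comap π → V × π.ker := fun v => (⟨π v.1, v.2⟩, ⟨v.1 - s (π v.1), by
    rw [AddMonoidHom.mem_ker, map_sub, hs _ ⟨v.1, rfl⟩, sub_self]⟩)
  have hf : Function.Injective f := by
    intro v w h
    have h' := Prod.ext_iff.1 h
    apply Subtype.ext
    have h1 : π v.1 = π w.1 := congrArg Subtype.val h'.1
    have h2 : v.1 - s (π v.1) = w.1 - s (π w.1) := congrArg Subtype.val h'.2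
    rw [h1] at h2
    exact sub_left_injective h2
  refine ⟨Finite.of_injective f hf, ?_⟩
  rw [← Nat.card_prod]
  exact Nat.card_le_card_of_injective f hf

/-- the number of cosets from a large part -/
theorem bar_of_part (V : AddSubgroup Γ) (A A' : Finset Γ) (hA : A.Nonempty) (K : ℝ) (s c : ℕ)
    (hK : 1 ≤ K) (h1 : ((A + A).card : ℝ) ≤ K * A.card) (hsub : A' ⊆ A)
    (hc : (A.card : ℝ) ≤ K ^ s * A'.card) (ht : ((bar V A').card : ℝ) ≤ K ^ c) :
    ((bar V A).card : ℝ) ≤ K ^ (s + c + 1) := by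
  have hA0 : (0 : ℝ) < A.card := by exact_mod_cast hA.card_pos
  have hK0 : (0 : ℝ) < K := by linarith
  have h2 : (A'.card : ℝ) ≤ (bar V A').card * mx V A' := by
    exact_mod_cast card_le_bar_mul V A'
  have h3 : (mx V A' : ℝ) ≤ mx V A := by
    have : mx V A' ≤ mx V A := by
      refine Finset.sup_le fun g _ => ?_
      refine le_trans (Finset.card_le_card ?_) (le_mx V A g)
      intro x hx
      rw [mem_fib] at hx ⊢
      exact ⟨hsub hx.1, hx.2⟩
    exact_mod_cast this
  have h4 : ((bar V A).card : ℝ) * mx V A ≤ K * A.card := by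
    have h6 : ((bar V A).card : ℝ) * mx V A ≤ (A + A).card := by
      exact_mod_cast bar_mul V A A hA
    exact h6.trans h1
  have h5 : (A.card : ℝ) ≤ K ^ (s + c) * mx V A := by
    calc (A.card : ℝ) ≤ K ^ s * A'.card := hc
      _ ≤ K ^ s * ((bar V A').card * mx V A') := by gcongr
      _ ≤ K ^ s * (K ^ c * mx V A) := by gcongr
      _ = _ := by ring
  have h7 : (A.card : ℝ) * (bar V A).card ≤ A.card * K ^ (s + c + 1) := by
    calc (A.card : ℝ) * (bar V A).card ≤ (K ^ (s + c) * mx V A) * (bar V A).card := by gcongr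
      _ = K ^ (s + c) * ((bar V A).card * mx V A) := by ring
      _ ≤ K ^ (s + c) * (K * A.card) := by gcongr
      _ = _ := by ring
  exact le_of_mul_le_mul_left h7 hA0

/-- the reset of the number of cosets, modulo the kernel of a homomorphism -/
theorem reset_core (π : Γ →+ G) (A : Finset Γ) (hA : A.Nonempty) {K : ℝ} (hK : 2 ≤ K) {b : ℕ}
    (hd : Dl K b A) (c : ℕ) (ht : ((A.image π).card : ℝ) ≤ K ^ c) (hb : K ^ (6 * c + 11) ≤ b) :
    ∃ V : AddSubgroup G, Finite V ∧ (Nat.card V : ℝ) ≤ K ^ (124292 + c) ∧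
      ((bar (V.comap π) A).card : ℝ) ≤ K ^ 124353 := by
  have hK1 : (1 : ℝ) < K := by linarith
  have hK0 : (0 : ℝ) < K := by linarith
  have hA0 : (0 : ℝ) < A.card := by exact_mod_cast hA.card_pos
  have hb0 : (0 : ℝ) < b := lt_of_lt_of_le (by positivity) hb
  have hb0' : 0 < b := by exact_mod_cast hb0
  have h1 := hd 1 hb0'
  rw [nd_one] at h1
  obtain ⟨M, y₀, A', hM0, hM, hA'A, hA'c, hkill⟩ := exists_part π A hA hK hd c ht hb
  have hA'ne : A'.Nonempty := by
    rw [← Finset.card_pos]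
    by_contra hcon
    have h0 : A'.card = 0 := by omega
    rw [h0, Nat.cast_zero, mul_zero] at hA'c
    linarith
  have hMb : M ≤ b := by exact_mod_cast hM.trans hb
  -- all dilates of the image of the part
  have hall : ∀ n : ℕ, (((A'.image π) + nd n (A'.image π)).card : ℝ) ≤
      K ^ 23 * (A'.image π).card := by
    refine all_dil (A'.image π) (K ^ 23) M hM0 (π y₀) ?_ ?_
    · intro s hs
      obtain ⟨a, ha, rfl⟩ := Finset.mem_image.1 hs
      exact hkill a ha
    · intro n hn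
      refine im_dil π A' hA'ne (K ^ 23) n ?_
      have h2 := (big_dilate hA hK1.le hb0' hd 1 n (by rw [pow_one]; omega)).1
      calc ((A' + A' + nd n A').card : ℝ) ≤ (A + A + nd n A).card := by
            refine Nat.cast_le.2 (Finset.card_le_card ?_)
            exact Finset.add_subset_add (Finset.add_subset_add hA'A hA'A)
              (Finset.image_subset_image hA'A)
        _ ≤ K ^ (6 * 1 + 3) * A.card := h2
        _ ≤ K ^ (6 * 1 + 3) * (K ^ 14 * A'.card) := by gcongr
        _ = _ := by ring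
  obtain ⟨V, T, hVfin, hVc, hTc, hcov⟩ :=
    Pool.Agent.TH414.UD.structureA (A'.image π) (hA'ne.image _) (K ^ 23) hall
  refine ⟨V, hVfin, ?_, ?_⟩
  · calc (Nat.card V : ℝ) ≤ (K ^ 23) ^ 5404 * (A'.image π).card := hVc
      _ ≤ (K ^ 23) ^ 5404 * (A.image π).card := by
          refine mul_le_mul_of_nonneg_left ?_ (by positivity)
          exact_mod_cast Finset.card_le_card (Finset.image_subset_image hA'A)
      _ ≤ (K ^ 23) ^ 5404 * K ^ c := mul_le_mul_of_nonneg_left ht (by positivity)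
      _ = _ := by rw [← pow_mul, ← pow_add]
  · have h2 : ((bar (V.comap π) A').card : ℝ) ≤ K ^ (23 * 5406) := by
      have h3 : (bar (V.comap π) A').card ≤ T.card := by
        refine bar_le_of_cover (V.comap π) A' T (fun a t => π a - t ∈ V) ?_ ?_
        · intro a ha
          obtain ⟨t, htT, h⟩ := hcov (π a) (Finset.mem_image_of_mem _ ha)
          exact ⟨t, htT, h⟩
        · intro a _ a' _ x hax ha'x
          rw [AddSubgroup.mem_comap, map_sub]
          have : π a - π a' = (π a - x) - (π a' - x) := by abel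
          rw [this]
          exact V.sub_mem hax ha'x
      calc ((bar (V.comap π) A').card : ℝ) ≤ T.card := by exact_mod_cast h3
        _ ≤ (K ^ 23) ^ 5406 := hTc
        _ = _ := by rw [← pow_mul]
    exact bar_of_part (V.comap π) A A' hA K 14 (23 * 5406) hK1.le h1 hA'A hA'c h2

/-- **The reset lemma.** -/
theorem reset (H : AddSubgroup Γ) [Finite H] (A : Finset Γ) (hA : A.Nonempty) {K : ℝ}
    (hK : 2 ≤ K) {b : ℕ} (hd : Dl K b A) (c : ℕ) (ht : ((bar H A).card : ℝ) ≤ K ^ c)
    (hb : K ^ (6 * c + 11) ≤ b) :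
    ∃ V : AddSubgroup Γ, Finite V ∧ ((bar V A).card : ℝ) ≤ K ^ 124353 ∧
      (Nat.card V : ℝ) ≤ K ^ (124292 + c) * Nat.card H := by
  have hker : (QuotientAddGroup.mk' H).ker = H := QuotientAddGroup.ker_mk' H
  obtain ⟨V, hVfin, hVc, hbar⟩ := reset_core (QuotientAddGroup.mk' H) A hA hK hd c
    (im_le_of_bar _ H hker A _ ht) hb
  have hkfin : Finite (QuotientAddGroup.mk' H).ker := by rw [hker]; infer_instance
  obtain ⟨h2, h3⟩ := card_comap_le (QuotientAddGroup.mk' H) V
  refine ⟨V.comap (QuotientAddGroup.mk' H), h2, hbar, ?_⟩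
  rw [hker] at h3
  calc (Nat.card (V.comap (QuotientAddGroup.mk' H)) : ℝ) ≤ Nat.card V * Nat.card H := by
        exact_mod_cast h3
    _ ≤ _ := by gcongr

end Pool.Agent.N142.FD
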