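import Pool.Agent.N142.FD.Digits

/-!
# Finite range of dilates: rigidity of the set of cosets
-/

set_option autoImplicit false

namespace Pool.Agent.N142.FD

open Finset
open scoped Pointwise Classical
open Pool.Agent.TH414.Dil

variable {Γ : Type*} [AddCommGroup Γ]

/-- at most one small multiplier sends `u` to `v` -/
theorem mult_one {G : Type*} [AddCommGroup G] (u v : G) (N Q : ℕ) (hNQ : N ≤ Q)
    (hu : addOrderOf u = 0 ∨ Q ≤ addOrderOf u) :
    ((range N).filter (fun n => n • u = v)).card ≤ 1 := by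
  rw [Finset.card_le_one]
  intro a ha b hb
  simp only [mem_filter, mem_range] at ha hb
  rcases hu with hu | hu
  · have hinj := injective_nsmul_iff_not_isOfFinAddOrder.2 (addOrderOf_eq_zero_iff.1 hu)
    exact hinj (by simp only [ha.2, hb.2])
  · have hmod : a ≡ b [MOD addOrderOf u] := nsmul_eq_nsmul_iff_modEq.1 (ha.2.trans hb.2.symm)
    have h1 : a < addOrderOf u := by omega
    have h2 : b < addOrderOf u := by omega
    have h3 : a % addOrderOf u = b % addOrderOf u := hmod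
    rwa [Nat.mod_eq_of_lt h1, Nat.mod_eq_of_lt h2] at h3

/-- at most one small multiplier makes a given quadruple collide -/
theorem coll_one {G : Type*} [AddCommGroup G] (N Q : ℕ) (hNQ : N ≤ Q) (α β γ δ : G)
    (hu : β - δ ≠ 0 → addOrderOf (β - δ) = 0 ∨ Q ≤ addOrderOf (β - δ)) :
    ((range N).filter (fun n => CP n α β γ δ)).card ≤ 1 := by
  by_cases h : β - δ = 0
  · have h1 : β = δ := sub_eq_zero.1 h
    have : (range N).filter (fun n => CP n α β γ δ) = ∅ := by
      rw [Finset.filter_eq_empty_iff]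
      rintro n - hn
      subst h1
      exact hn.2 ⟨(add_right_cancel hn.1).symm, rfl⟩
    rw [this]; simp
  · refine le_trans (Finset.card_le_card ?_) (mult_one (β - δ) (γ - α) N Q hNQ (hu h))
    intro n hn
    rw [mem_filter] at hn ⊢
    refine ⟨hn.1, ?_⟩
    have := hn.2.1
    rw [nsmul_sub, sub_eq_sub_iff_add_eq_add, add_comm, this]

/-- one of the first multipliers separates all sums of cosets -/
theorem exists_good (U : AddSubgroup Γ) (A : Finset Γ) (Q : ℕ) (hG : LST Q U A)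
    (hc : (bar U A).card ^ 4 < Q) : ∃ n : ℕ, n ≤ (bar U A).card ^ 4 ∧ Good U A n := by
  set N := (bar U A).card ^ 4 + 1 with hN
  have hT : (bar U A ×ˢ (bar U A ×ˢ (bar U A ×ˢ bar U A))).card = (bar U A).card ^ 4 := by
    rw [card_product, card_product, card_product]; ring
  by_contra hcon
  push Not at hcon
  have h1 := double_count (range N)
    (bar U A ×ˢ (bar U A ×ˢ (bar U A ×ˢ bar U A)))
    (fun n t => CP n t.1 t.2.1 t.2.2.1 t.2.2.2) 1 1 (by
      rintro ⟨α, β, γ, δ⟩ ht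
      rw [mem_product, mem_product, mem_product] at ht
      rw [one_mul]
      exact coll_one N Q (by omega) _ _ _ _ (hG _ ht.2.1 _ ht.2.2.2))
  rw [one_mul, mul_one, hT] at h1
  have h2 : (range N).card ≤ ∑ n ∈ range N, ((bar U A ×ˢ (bar U A ×ˢ (bar U A ×ˢ bar U A))).filter
      (fun t => CP n t.1 t.2.1 t.2.2.1 t.2.2.2)).card := by
    rw [Finset.card_eq_sum_ones]
    refine Finset.sum_le_sum fun n hn => ?_
    rw [mem_range] at hn
    have h := hcon n (by omega)
    simp only [Good, not_forall] at h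
    obtain ⟨α, hα, β, hβ, γ, hγ, δ, hδ, he, hne⟩ := h
    refine Finset.card_pos.2 ⟨(α, β, γ, δ), ?_⟩
    rw [mem_filter]
    exact ⟨mem_product.2 ⟨hα, mem_product.2 ⟨hβ, mem_product.2 ⟨hγ, hδ⟩⟩⟩, he, hne⟩
  rw [card_range] at h2
  omega

/-- rigidity -/
theorem rigid (U : AddSubgroup Γ) (A : Finset Γ) (hA : A.Nonempty) {K : ℝ} (hK : 1 ≤ K)
    {b : ℕ} (hb : K ^ 60 < b) (s : ℕ)
    (h1 : ∀ n : ℕ, n ≤ b → ((A + nd n A).card : ℝ) ≤ K ^ s * A.card)
    (h2 : ∀ j n : ℕ, n < b ^ j → ((A + nd n A).card : ℝ) ≤ K ^ (6 * j + 3) * A.card)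
    (Q : ℕ) (hG : LST Q U A) (hc : (bar U A).card ^ 4 < Q) :
    ((bar U A).card : ℝ) ≤ K ^ s := by
  obtain ⟨n, hn, hgood⟩ := exists_good U A Q hG hc
  have hA0 : (0 : ℝ) < A.card := by exact_mod_cast hA.card_pos
  have h3 : ((A.card * (bar U A).card : ℕ) : ℝ) ≤ (A + nd n A).card := by
    exact_mod_cast good_card U A n hgood
  push_cast at h3
  have h4 : ∀ R : ℝ, ((A + nd n A).card : ℝ) ≤ R * A.card → ((bar U A).card : ℝ) ≤ R := by
    intro R hR
    have h5 : (A.card : ℝ) * (bar U A).card ≤ A.card * R := by linarith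
    exact le_of_mul_le_mul_left h5 hA0
  have hK1 : (1 : ℝ) ≤ K ^ 60 := one_le_pow₀ hK
  have hb1 : 1 < b := by
    have : (1 : ℝ) < b := lt_of_le_of_lt hK1 hb
    exact_mod_cast this
  by_cases hnb : n ≤ b
  · exact h4 _ (h1 n hnb)
  · exfalso
    push Not at hnb
    set t := (bar U A).card with ht
    -- the number of digits
    set j := Nat.log b (t ^ 4) with hj
    have ht4 : t ^ 4 ≠ 0 := by omega
    have h5 : b ^ j ≤ t ^ 4 := Nat.pow_log_le_self b ht4
    have h6 : t ^ 4 < b ^ (j + 1) := Nat.lt_pow_succ_log_self hb1 _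
    have hj1 : 1 ≤ j := by
      rw [hj]
      exact Nat.log_pos hb1 (by omega)
    have h7 := h4 _ (h2 (j + 1) n (lt_of_le_of_lt hn h6))
    have h8 : ((b : ℝ)) ^ j ≤ (t : ℝ) ^ 4 := by exact_mod_cast h5
    have h9 : (t : ℝ) ^ 4 ≤ (K ^ (6 * (j + 1) + 3)) ^ 4 :=
      pow_le_pow_left₀ (Nat.cast_nonneg _) h7 4
    have h10 : (K ^ (6 * (j + 1) + 3)) ^ 4 ≤ (K ^ 60) ^ j := by
      rw [← pow_mul, ← pow_mul]
      exact pow_le_pow_right₀ hK (by omega)
    have h11 : (K ^ 60) ^ j < (b : ℝ) ^ j :=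
      pow_lt_pow_left₀ hb (by positivity) (by omega)
    linarith

/-- the subgroup generated by the differences of finite order -/
theorem start_U (A : Finset Γ) :
    ∃ U : AddSubgroup Γ, Finite U ∧ ∀ Q : ℕ, LST Q U A := by
  set S : Finset Γ := ((A ×ˢ A).image (fun p => p.1 - p.2)).filter
    (fun x => IsOfFinAddOrder x) with hS
  set U := AddSubgroup.closure (S : Set Γ) with hU
  have htor : ∀ x ∈ U, IsOfFinAddOrder x := by
    intro x hx
    refine AddSubgroup.closure_induction (p := fun x _ => IsOfFinAddOrder x) ?_ ?_ ?_ ?_ hx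
    · intro y hy
      exact (Finset.mem_filter.1 (Finset.mem_coe.1 hy)).2
    · exact IsOfFinAddOrder.zero
    · intro y z _ _ hy hz
      exact hy.add hz
    · intro y _ hy
      exact hy.neg
  have hfg : AddGroup.FG U := (AddGroup.fg_iff_addSubgroup_fg U).2 ⟨S, rfl⟩
  have hUtor : IsAddTorsion U := by
    intro x
    have h := htor x.1 x.2
    rw [isOfFinAddOrder_iff_nsmul_eq_zero] at h ⊢
    obtain ⟨n, hn, h⟩ := h
    exact ⟨n, hn, Subtype.ext (by simpa using h)⟩
  have hfin : Finite U := AddCommGroup.finite_of_fg_isAddTorsion U hUtor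
  refine ⟨U, hfin, ?_⟩
  intro Q β hβ δ hδ hne
  left
  obtain ⟨b, hb, rfl⟩ := exists_rep hβ
  obtain ⟨d, hd, rfl⟩ := exists_rep hδ
  rw [addOrderOf_eq_zero_iff]
  intro hfo
  apply hne
  rw [isOfFinAddOrder_iff_nsmul_eq_zero] at hfo
  obtain ⟨n, hn, h⟩ := hfo
  rw [← QuotientAddGroup.mk_sub, ← QuotientAddGroup.mk_nsmul, QuotientAddGroup.eq_zero_iff] at h
  have h1 := htor _ h
  have h2 : IsOfFinAddOrder (b - d) := by
    rw [isOfFinAddOrder_iff_nsmul_eq_zero] at h1 ⊢
    obtain ⟨m, hm, h1⟩ := h1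
    exact ⟨m * n, Nat.mul_pos hm hn, by rw [mul_nsmul', h1]⟩
  rw [← QuotientAddGroup.mk_sub, QuotientAddGroup.eq_zero_iff]
  refine AddSubgroup.subset_closure ?_
  rw [hS, Finset.mem_coe, Finset.mem_filter]
  exact ⟨Finset.mem_image.2 ⟨(b, d), Finset.mem_product.2 ⟨hb, hd⟩, rfl⟩, h2⟩

/-- the first conclusion -/
theorem few_cosets_fin (A : Finset Γ) (hA : A.Nonempty) {K : ℝ} (hK : 1 ≤ K) {b : ℕ}
    (hb : K ^ 60 < b) (hd : Dl K b A) :
    ∃ U : AddSubgroup Γ, Finite U ∧ ((bar U A).card : ℝ) ≤ K := by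
  obtain ⟨U, hU, hL⟩ := start_U A
  have hK1 : (1 : ℝ) ≤ K ^ 60 := one_le_pow₀ hK
  have hb1 : 1 < b := by
    have : (1 : ℝ) < b := lt_of_le_of_lt hK1 hb
    exact_mod_cast this
  refine ⟨U, hU, ?_⟩
  have h := rigid U A hA hK hb 1 (fun n hn => by rw [pow_one]; exact hd n hn)
    (fun j n hn => (big_dilate hA hK hb1.le hd j n hn).2.trans (by
      have : K ^ (6 * j + 2) ≤ K ^ (6 * j + 3) := pow_le_pow_right₀ hK (by omega)
      gcongr)) _ (hL _) (Nat.lt_succ_self _)
  rwa [pow_one] at h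

end Pool.Agent.N142.FD
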