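import Pool.Agent.N142.FD.Energy2

/-!
# Finite range of dilates: the chain of subgroups in a general finite group
-/

set_option autoImplicit false

namespace Pool.Agent.N142.FD

open Finset
open scoped Pointwise Classical ComplexConjugate
open Pool.Agent.TH414.Dil

variable {Γ : Type*} [AddCommGroup Γ]

/-- rigidity, general costs -/
theorem rigid' (U : AddSubgroup Γ) (A : Finset Γ) (hA : A.Nonempty) {K : ℝ} (hK : 1 ≤ K)
    {b : ℕ} (s e : ℕ) (hb : K ^ (48 + 4 * s) < b)
    (h1 : ∀ n : ℕ, n ≤ b → ((A + nd n A).card : ℝ) ≤ K ^ e * A.card)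
    (h2 : ∀ j n : ℕ, n < b ^ j → ((A + nd n A).card : ℝ) ≤ K ^ (6 * j + s) * A.card)
    (Q : ℕ) (hG : LST Q U A) (hc : (bar U A).card ^ 4 < Q) :
    ((bar U A).card : ℝ) ≤ K ^ e := by
  obtain ⟨n, hn, hgood⟩ := exists_good U A Q hG hc
  have hA0 : (0 : ℝ) < A.card := by exact_mod_cast hA.card_pos
  have h3 : ((A.card * (bar U A).card : ℕ) : ℝ) ≤ (A + nd n A).card := by
    exact_mod_cast good_card U A n hgood
  push_cast at h3
  have h4 : ∀ R : ℝ, ((A + nd n A).card : ℝ) ≤ R * A.card → ((bar U A).card : ℝ) ≤ R := by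
    intro R hR
    have h5 : (A.card : ℝ) * (bar U A).card ≤ A.card * R := by linarith
    exact le_of_mul_le_mul_left h5 hA0
  have hK1 : (1 : ℝ) ≤ K ^ (48 + 4 * s) := one_le_pow₀ hK
  have hb1 : 1 < b := by
    have : (1 : ℝ) < b := lt_of_le_of_lt hK1 hb
    exact_mod_cast this
  by_cases hnb : n ≤ b
  · exact h4 _ (h1 n hnb)
  · exfalso
    push Not at hnb
    set t := (bar U A).card with ht
    set j := Nat.log b (t ^ 4) with hj
    have ht4 : t ^ 4 ≠ 0 := by omega
    have h5 : b ^ j ≤ t ^ 4 := Nat.pow_log_le_self b ht4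
    have h6 : t ^ 4 < b ^ (j + 1) := Nat.lt_pow_succ_log_self hb1 _
    have hj1 : 1 ≤ j := by
      rw [hj]
      exact Nat.log_pos hb1 (by omega)
    have h7 := h4 _ (h2 (j + 1) n (lt_of_le_of_lt hn h6))
    have h8 : ((b : ℝ)) ^ j ≤ (t : ℝ) ^ 4 := by exact_mod_cast h5
    have h9 : (t : ℝ) ^ 4 ≤ (K ^ (6 * (j + 1) + s)) ^ 4 :=
      pow_le_pow_left₀ (Nat.cast_nonneg _) h7 4
    have h10 : (K ^ (6 * (j + 1) + s)) ^ 4 ≤ (K ^ (48 + 4 * s)) ^ j := by
      rw [← pow_mul, ← pow_mul]
      exact pow_le_pow_right₀ hK (by nlinarith)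
    have h11 : (K ^ (48 + 4 * s)) ^ j < (b : ℝ) ^ j :=
      pow_lt_pow_left₀ hb (by positivity) (by omega)
    linarith

section finite

variable {F : Type*} [AddCommGroup F] [Finite F]

/-- one step of the chain, with the choice of the number of digits, general costs -/
theorem zone' (W : AddSubgroup F) (B : Finset F) (hB : B.Nonempty) (K : ℝ) (hK : 2 ≤ K)
    (b s r l : ℕ) (hb : K ^ (64 + 5 * s + r + l) ≤ b) (p : ℝ) (hp : K ^ (32 + 4 * s + r) ≤ p)
    (hE : ∀ j n : ℕ, n < b ^ j → ((B + B + nd n B).card : ℝ) ≤ K ^ (6 * j + s) * B.card)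
    (hs : ∀ V : AddSubgroup F, W ≤ V → V ≠ ⊤ →
      (mx V B : ℝ) ^ 4 * p ≤ K ^ r * (B.card : ℝ) ^ 4)
    (hZ : (W.index * mx W B : ℝ) ≤ p * (K ^ l * B.card)) :
    (W.index * mx W B : ℝ) ≤ K ^ (7 + s) * B.card := by
  have hB0 : (0 : ℝ) < B.card := by exact_mod_cast hB.card_pos
  have hK1 : (1 : ℝ) ≤ K := by linarith
  have hK0 : (0 : ℝ) < K := by linarith
  have h4K : (4 : ℝ) ≤ K ^ 2 := by nlinarith
  have hp0 : (0 : ℝ) < p := lt_of_lt_of_le (by positivity) hp
  set Z : ℝ := (W.index * mx W B : ℝ) with hZdef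
  have hZ0 : 0 ≤ Z := by positivity
  have hb0 : (0 : ℝ) < b := lt_of_lt_of_le (by positivity) hb
  have hb0' : 0 < b := by exact_mod_cast hb0
  have hbpow : ∀ i : ℕ, K ^ ((64 + 5 * s + r + l) * i) ≤ (b : ℝ) ^ i := by
    intro i
    rw [pow_mul]
    exact pow_le_pow_left₀ (by positivity) hb i
  -- the number of digits
  have hex : ∃ j : ℕ, 1 ≤ j ∧ 4 * K ^ (6 * j + s) * Z ≤ (b : ℝ) ^ j * B.card := by
    obtain ⟨i, hi⟩ := pow_unbounded_of_one_lt (4 * K ^ s * Z / B.card)
      (by linarith : (1 : ℝ) < K)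
    refine ⟨i + 1, by omega, ?_⟩
    rw [div_lt_iff₀ hB0] at hi
    have h1 : K ^ i * K ^ (6 * (i + 1)) ≤ (b : ℝ) ^ (i + 1) := by
      refine le_trans ?_ (hbpow (i + 1))
      rw [← pow_add]
      exact pow_le_pow_right₀ hK1 (by nlinarith)
    calc 4 * K ^ (6 * (i + 1) + s) * Z = K ^ (6 * (i + 1)) * (4 * K ^ s * Z) := by
          rw [pow_add]; ring
      _ ≤ K ^ (6 * (i + 1)) * (K ^ i * B.card) := by gcongr
      _ = (K ^ i * K ^ (6 * (i + 1))) * B.card := by ring
      _ ≤ _ := by gcongr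
  obtain ⟨hj1, hj⟩ := Nat.find_spec hex
  set j := Nat.find hex with hjdef
  have hmain : (4 * K ^ (6 * j + s)) ^ 4 * K ^ r ≤ p → Z ≤ 2 * K ^ (6 * j + s) * B.card := by
    intro hc
    refine lam_step W B hB (K ^ (6 * j + s)) (one_le_pow₀ hK1) (b ^ j) (Nat.pow_pos hb0')
      (hE j) ?_ ?_
    · intro V hWV hV
      have h1 := hs V hWV hV
      have hKr : 0 < K ^ r := by positivity
      have h3 : K ^ r * (4 * K ^ (6 * j + s) * mx V B) ^ 4 ≤ K ^ r * (B.card : ℝ) ^ 4 := by
        calc K ^ r * (4 * K ^ (6 * j + s) * mx V B) ^ 4 =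
              (mx V B : ℝ) ^ 4 * ((4 * K ^ (6 * j + s)) ^ 4 * K ^ r) := by ring
          _ ≤ (mx V B : ℝ) ^ 4 * p := by gcongr
          _ ≤ _ := h1
      have h4 := le_of_mul_le_mul_left h3 hKr
      exact (pow_le_pow_iff_left₀ (by positivity) hB0.le (by norm_num)).1 h4
    · push_cast
      exact hj
  have hcost : ∀ j : ℕ, (4 * K ^ (6 * j + s)) ^ 4 * K ^ r ≤ K ^ (24 * j + 8 + 4 * s + r) := by
    intro j
    calc (4 * K ^ (6 * j + s)) ^ 4 * K ^ r ≤ (K ^ 2 * K ^ (6 * j + s)) ^ 4 * K ^ r := by gcongr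
      _ = _ := by
        rw [← pow_add, ← pow_mul, ← pow_add]
        congr 1; ring
  rcases Nat.lt_or_ge j 2 with hj2 | hj2
  · have hj' : j = 1 := by omega
    rw [hj'] at hmain
    have h1 := hmain ((hcost 1).trans (le_trans (le_of_eq (by congr 1 <;> ring)) hp))
    calc Z ≤ 2 * K ^ (6 * 1 + s) * B.card := h1
      _ ≤ K * K ^ (6 * 1 + s) * B.card := by gcongr
      _ = _ := by rw [← pow_succ']; congr 2 <;> ring
  · exfalso
    obtain ⟨i, hi⟩ : ∃ i, j = i + 1 := ⟨j - 1, by omega⟩
    have hi1 : 1 ≤ i := by omega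
    have hmin := Nat.find_min hex (m := i) (by rw [← hjdef]; omega)
    rw [not_and] at hmin
    have hmin' := not_le.1 (hmin hi1)
    have h1 : (b : ℝ) ^ i < K ^ (6 * i + s + 2 + l) * p := by
      have h2 : (b : ℝ) ^ i * B.card < (K ^ (6 * i + s + 2 + l) * p) * B.card := by
        calc (b : ℝ) ^ i * B.card < 4 * K ^ (6 * i + s) * Z := hmin'
          _ ≤ K ^ 2 * K ^ (6 * i + s) * (p * (K ^ l * B.card)) := by gcongr
          _ = (K ^ 2 * K ^ (6 * i + s) * K ^ l) * p * B.card := by ring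
          _ = _ := by
            rw [← pow_add, ← pow_add]
            congr 3; ring
      exact lt_of_mul_lt_mul_right h2 hB0.le
    have hc : (4 * K ^ (6 * j + s)) ^ 4 * K ^ r ≤ p := by
      refine (hcost j).trans ?_
      by_contra hcon
      push Not at hcon
      have h2 : (b : ℝ) ^ i < K ^ (30 * i + 34 + 5 * s + r + l) := by
        calc (b : ℝ) ^ i < K ^ (6 * i + s + 2 + l) * p := h1
          _ ≤ K ^ (6 * i + s + 2 + l) * K ^ (24 * j + 8 + 4 * s + r) := by gcongr
          _ = _ := by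
            rw [hi, ← pow_add]
            congr 1; ring
      have h3 : K ^ (30 * i + 34 + 5 * s + r + l) ≤ K ^ ((64 + 5 * s + r + l) * i) :=
        pow_le_pow_right₀ hK1 (by nlinarith)
      exact absurd (h2.trans_le (h3.trans (hbpow i))) (lt_irrefl _)
    have h2 := hmain hc
    have h3 : (b : ℝ) ^ i < K ^ (12 * i + 9 + 2 * s) := by
      have h4 : (b : ℝ) ^ i * B.card < K ^ (12 * i + 9 + 2 * s) * B.card := by
        calc (b : ℝ) ^ i * B.card < 4 * K ^ (6 * i + s) * Z := hmin'
          _ ≤ K ^ 2 * K ^ (6 * i + s) * (K * K ^ (6 * j + s) * B.card) := by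
              gcongr
              exact h2.trans (by gcongr)
          _ = (K ^ 2 * K ^ (6 * i + s) * (K * K ^ (6 * j + s))) * B.card := by ring
          _ = _ := by
            rw [hi, ← pow_succ', ← pow_add, ← pow_add]
            congr 2; ring
      exact lt_of_mul_lt_mul_right h4 hB0.le
    have h4 : K ^ (12 * i + 9 + 2 * s) ≤ K ^ ((64 + 5 * s + r + l) * i) :=
      pow_le_pow_right₀ hK1 (by nlinarith)
    exact absurd (h3.trans_le (h4.trans (hbpow i))) (lt_irrefl _)

/-- **The chain of subgroups**, general finite group. -/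
theorem chain' (B : Finset F) (hB : B.Nonempty) (K : ℝ) (hK : 2 ≤ K) (b s r l e : ℕ)
    (hl : 7 + s ≤ l) (he : 32 + 4 * s + r ≤ e)
    (hb : K ^ (64 + 5 * s + r + l) ≤ b)
    (hE : ∀ j n : ℕ, n < b ^ j → ((B + B + nd n B).card : ℝ) ≤ K ^ (6 * j + s) * B.card)
    (hs : ∀ V : AddSubgroup F, V ≠ ⊤ → ∀ p : ℕ, p.Prime → K ^ e ≤ p → PF p V →
      (mx V B : ℝ) ^ 4 * p ≤ K ^ r * (B.card : ℝ) ^ 4)
    (hsm : ∀ W : AddSubgroup F, (W.index * mx W B : ℝ) ≤ K ^ (e + l) * B.card →
      (W.index * mx W B : ℝ) ≤ K ^ l * B.card) :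
    (Nat.card F : ℝ) ≤ K ^ l * B.card := by
  have hB0 : (0 : ℝ) < B.card := by exact_mod_cast hB.card_pos
  have hK0 : (0 : ℝ) < K := by linarith
  have hK1 : (1 : ℝ) ≤ K := by linarith
  have key : ∀ k : ℕ, ∀ W : AddSubgroup F, Nat.card W = k →
      (∀ p : ℕ, p.Prime → p ∣ Nat.card W → PF p W) →
      (W.index * mx W B : ℝ) ≤ K ^ l * B.card →
      (Nat.card F : ℝ) ≤ K ^ l * B.card := by
    intro k
    induction k using Nat.strong_induction_on with
    | _ k ih =>
      intro W hWk hPF hlam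
      have hWpos : 0 < Nat.card W := Nat.card_pos
      have hWF : Nat.card W ∣ Nat.card F := AddSubgroup.card_addSubgroup_dvd_card W
      have hci := W.card_mul_index
      by_cases hW1 : Nat.card W = 1
      · rw [hW1, one_mul] at hci
        rw [← hci]
        refine le_trans ?_ hlam
        have h1 : (1 : ℝ) ≤ mx W B := by exact_mod_cast mx_pos W B hB
        have h2 : (0 : ℝ) ≤ W.index := Nat.cast_nonneg _
        nlinarith
      · have hne : (Nat.card W).primeFactors.Nonempty := by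
          rw [Nat.nonempty_primeFactors]
          omega
        set p := (Nat.card W).primeFactors.max' hne with hpdef
        have hpmem : p ∈ (Nat.card W).primeFactors := Finset.max'_mem _ _
        have hp : p.Prime := Nat.prime_of_mem_primeFactors hpmem
        have hpW : p ∣ Nat.card W := Nat.dvd_of_mem_primeFactors hpmem
        have hpmax : ∀ q : ℕ, q.Prime → q ∣ Nat.card W → q ≤ p := by
          intro q hq hqd
          exact Finset.le_max' _ _ (Nat.mem_primeFactors.2 ⟨hq, hqd, hWpos.ne'⟩)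
        obtain ⟨W', hle, -, hlt, hidx, hpx⟩ := exists_sub W p hp hpW
        have hPF' : PF p W' := PF_step hp (hPF p hp hpW) hle hpx
        have hci' := W'.card_mul_index
        have hindex : W'.index ≤ p * W.index := by
          have h1 : Nat.card W' * W'.index ≤ Nat.card W' * (p * W.index) := by
            calc Nat.card W' * W'.index = Nat.card W * W.index := by rw [hci', hci]
              _ ≤ (p * Nat.card W') * W.index := Nat.mul_le_mul_right _ hidx
              _ = _ := by ring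
          exact Nat.le_of_mul_le_mul_left h1 Nat.card_pos
        have hZ : (W'.index * mx W' B : ℝ) ≤ p * (K ^ l * B.card) := by
          have h1 : (W'.index : ℝ) ≤ p * W.index := by exact_mod_cast hindex
          have h2 : (mx W' B : ℝ) ≤ mx W B := by exact_mod_cast mx_mono hle B
          calc (W'.index * mx W' B : ℝ) ≤ (p * W.index) * mx W B :=
                mul_le_mul h1 h2 (Nat.cast_nonneg _) (by positivity)
            _ = p * (W.index * mx W B) := by ring
            _ ≤ _ := by gcongr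
        refine ih (Nat.card W') (hWk ▸ hlt) W' rfl ?_ ?_
        · intro q hq hqd r hr hrd
          exact (hpmax q hq (hqd.trans (AddSubgroup.card_dvd_of_le hle))).trans (hPF' r hr hrd)
        · by_cases hpe : K ^ e ≤ p
          · have h1 := zone' W' B hB K hK b s r l hb p
              ((pow_le_pow_right₀ hK1 he).trans hpe) hE
              (fun V hWV hV => hs V hV p hp hpe (PF_mono hWV hPF')) hZ
            refine h1.trans ?_
            have := pow_le_pow_right₀ hK1 hl
            gcongr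
          · push Not at hpe
            refine hsm W' (hZ.trans ?_)
            calc (p : ℝ) * (K ^ l * B.card) ≤ K ^ e * (K ^ l * B.card) := by gcongr
              _ = _ := by rw [pow_add]; ring
  refine key _ ⊤ rfl ?_ ?_
  · intro p hp _ r hr hd
    rw [AddSubgroup.index_top] at hd
    exact absurd (Nat.dvd_one.1 hd) hr.one_lt.ne'
  · rw [AddSubgroup.index_top]
    have h1 : (mx (⊤ : AddSubgroup F) B : ℝ) ≤ B.card := by exact_mod_cast mx_le _ B
    have h2 : (1 : ℝ) ≤ K ^ l := one_le_pow₀ hK1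
    push_cast
    nlinarith

end finite

end Pool.Agent.N142.FD
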